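import Pool.Agent.H985Z.Rich.Lift
import Pool.Agent.H403Z.Rich.Onto
import Pool.Agent.H510Z.Rich.Base
import Pool.Agent.H862Z.Rich.TopStep

set_option autoImplicit false

namespace Pool.Agent.H259Z.Rich

theorem red_all : RedAll := redAll base (topStep lift onto)

end Pool.Agent.H259Z.Rich
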