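import Pool.Agent.H259Z.Rich.Step
import Pool.Agent.H259Z.Rich.RedAll

/-! Arithmetic inside a free solvable group, and the coding theorem. -/

set_option autoImplicit false
set_option linter.unusedSectionVars false
set_option synthInstance.maxSize 100000

namespace Pool.Agent.H259Z.Rich

open FirstOrder FirstOrder.Language

variable {L : FirstOrder.Language.{0, 0}} {c : Ctx L}
variable {r : ℕ} {G Q : Type} [Group G] [Group Q]

/-- `a` has infinite order modulo `(z - 1) V`. -/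
def MS.Inf (S : MS r G Q) (z : Q) (a : S.V) : Prop :=
  ∀ (n : ℤ) (w : S.V), n • a = oo z • w - w → n = 0

theorem MS.mul_iff (S : MS r G Q) [UniqueProds Q] {z : Q} (hz : z ≠ 1) {a : S.V} (ha : S.Inf z a)
    (n m k : ℤ) : n * m = k ↔ ∃ w1 w2 w3 u : S.V, oo (z ^ n) • a - a = oo z • w1 - w1 ∧
      oo (z ^ m) • w1 - w1 = oo z • w2 - w2 ∧ oo (z ^ k) • a - a = oo z • w3 - w3 ∧
      w2 - w3 = oo z • u - u := by
  obtain ⟨w1, u1, a1, b1⟩ := S.V_geom z n a
  obtain ⟨w2, u2, a2, b2⟩ := S.V_geom z m w1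
  obtain ⟨w3, u3, a3, b3⟩ := S.V_geom z k a
  have key : w2 - w3 - (n * m - k) • a =
      oo z • (u2 + m • u1 - u3) - (u2 + m • u1 - u3) := by
    rw [smul_sub, smul_add, smul_comm (oo z) m u1,
      show oo z • u2 + m • oo z • u1 - oo z • u3 - (u2 + m • u1 - u3) =
        (oo z • u2 - u2) + m • (oo z • u1 - u1) - (oo z • u3 - u3) by rw [smul_sub]; abel,
      ← b1, ← b2, ← b3, sub_smul, mul_comm, mul_smul, smul_sub]
    abel
  constructor
  · rintro rfl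
    exact ⟨w1, w2, w3, _, a1, a2, a3, by rw [← key, sub_self, zero_smul, sub_zero]⟩
  · rintro ⟨v1, v2, v3, u, c1, c2, c3, c4⟩
    obtain rfl := S.V_cancel hz (a1.symm.trans c1)
    obtain rfl := S.V_cancel hz (a2.symm.trans c2)
    obtain rfl := S.V_cancel hz (a3.symm.trans c3)
    refine sub_eq_zero.1 (ha _ (u - (u2 + m • u1 - u3)) ?_)
    rw [smul_sub, show oo z • u - oo z • (u2 + m • u1 - u3) - (u - (u2 + m • u1 - u3)) =
      (oo z • u - u) - (oo z • (u2 + m • u1 - u3) - (u2 + m • u1 - u3)) by abel, ← key, ← c4]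
    abel

abbrev ZpI (c : Ctx L) [Srt c (fun _ => ℤ)] [Srt c (fun _ => Q)] (z : Q) : Prop :=
  ∀ {X : c.I → Type} [Srt c X] (f : ∀ i, X i → ℤ) [DF c f], DF c (fun i x => z ^ f i x)

theorem exists_int (S : MS r G Q) [UniqueProds Q] (hQ : TF Q) [Srt c (fun _ => G)]
    [Srt c (fun _ => Q)] [MulD c (fun _ => G)] [MulD c (fun _ => Q)] (hpr : HomI c S.pr)
    (hc : ∀ g : G, DC c (fun _ => g)) {i0 : Fin r} (hi : S.pr (S.x i0) ≠ 1) {a : S.V}
    (ha : S.Inf (S.pr (S.x i0)) a) :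
    ∃ _ : Srt c (fun _ => ℤ), AddD c (fun _ => ℤ) ∧ MulD c (fun _ => ℤ) ∧
      ZpI c (S.pr (S.x i0)) := by
  obtain ⟨_, hG, _, hA⟩ := exists_V (c := c) S hpr
  obtain ⟨_, _, _⟩ := grpI c (fun _ => G)
  obtain ⟨_, _, _, _⟩ := agI c (fun _ => S.V)
  have hV := V_dc S hG hc
  have hx : S.x i0 ≠ 1 := fun e => hi (by rw [e, map_one])
  have hd : ∀ n : ℤ, S.dg i0 (S.x i0 ^ n) = n := fun n => by
    rw [S.dg_zpow, S.dg_x, if_pos rfl, mul_one]
  obtain ⟨t, ht⟩ := exists_srt (c := c) (X := fun _ => G) (Y := fun _ => ℤ)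
    (fun _ g => S.x i0 * g = g * S.x i0) (fun _ g => S.dg i0 g)
    (fun _ n => ⟨S.x i0 ^ n, ((Commute.refl _).zpow_right n).eq, hd n⟩)
    (DP.of_iff (fun _ p => S.x i0 * p.1 = p.1 * S.x i0 ∧ p.1 = p.2) (fun _ p => by
      constructor
      · rintro ⟨h1, h2, h3⟩
        exact ⟨h1, (S.cent_x hQ hi h1).trans (h3 ▸ (S.cent_x hQ hi h2).symm)⟩
      · rintro ⟨h1, h2⟩
        exact ⟨h1, h2 ▸ h1, by rw [h2]⟩) (by infer_instance))
  have h1 : DF c (X := fun _ => ℤ) (fun _ n => S.x i0 ^ n) :=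
    DF.of_graph _ (fun _ p => Ap2 (fun (g : G) (n : ℤ) => S.x i0 * g = g * S.x i0 ∧ S.dg i0 g = n)
      p.2 p.1) (fun _ n g => by
        constructor
        · rintro rfl
          exact ⟨((Commute.refl _).zpow_right n).eq, hd n⟩
        · rintro ⟨h, e⟩
          have e' : S.dg i0 g = n := e
          rw [← e']
          exact (S.cent_x hQ hi h).symm) (by infer_instance)
  have h2 : ZpI c (S.x i0) := fun f _ => DF.comp (fun _ (n : ℤ) => S.x i0 ^ n) f
  have h3 : ZpI c (S.pr (S.x i0)) := fun f _ =>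
    DF.congr (f := fun i x => S.pr (S.x i0 ^ f i x)) (by infer_instance) fun _ _ => map_zpow _ _ _
  have h4 : DC c (fun _ => S.pr (S.x i0)) := DC.ap (fun _ g => S.pr g) (fun _ => S.x i0)
  refine ⟨t, ⟨?_⟩, ⟨?_⟩, h3⟩
  · exact DF.of_graph _ (fun _ p => S.x i0 ^ p.1.1 * S.x i0 ^ p.1.2 = S.x i0 ^ p.2)
      (fun _ p k => by
        rw [← zpow_add]
        exact ⟨fun e => by rw [e], (S.tf hQ).zpow_inj hx⟩) (by infer_instance)
  · exact DF.of_graph _ (fun _ p => ∃ w1 w2 w3 u : S.V,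
      oo (S.pr (S.x i0) ^ p.1.1) • a - a = oo (S.pr (S.x i0)) • w1 - w1 ∧
      oo (S.pr (S.x i0) ^ p.1.2) • w1 - w1 = oo (S.pr (S.x i0)) • w2 - w2 ∧
      oo (S.pr (S.x i0) ^ p.2) • a - a = oo (S.pr (S.x i0)) • w3 - w3 ∧
      w2 - w3 = oo (S.pr (S.x i0)) • u - u) (fun _ p k => S.mul_iff hi ha _ _ _)
      (by infer_instance)

theorem exists_nat [Srt c (fun _ => ℤ)] [AddD c (fun _ => ℤ)] [MulD c (fun _ => ℤ)] :
    ∃ _ : Srt c (fun _ => ℕ), AddD c (fun _ => ℕ) ∧ MulD c (fun _ => ℕ) ∧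
      DF c (X := fun _ => ℕ) (fun _ n => (n : ℤ)) := by
  have : AddI c (fun _ => ℤ) := addI c _
  have : MulI c (fun _ => ℤ) := mulI c _
  have hsq : ∀ z : ℤ, 0 ≤ z ↔ ∃ a b d e : ℤ, z = a * a + b * b + d * d + e * e := fun z => by
    constructor
    · intro h
      obtain ⟨n, rfl⟩ := Int.eq_ofNat_of_zero_le h
      obtain ⟨a, b, d, e, h⟩ := Nat.sum_four_squares n
      exact ⟨a, b, d, e, by rw [← h]; push_cast; ring⟩
    · rintro ⟨a, b, d, e, rfl⟩
      nlinarith [mul_self_nonneg a, mul_self_nonneg b, mul_self_nonneg d, mul_self_nonneg e]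
  have h0 : DP c (X := fun _ => ℤ) (fun _ z => 0 ≤ z) :=
    DP.of_iff _ (fun _ z => hsq z) (by infer_instance)
  obtain ⟨t, ht⟩ := exists_srt (c := c) (X := fun _ => ℤ) (Y := fun _ => ℕ)
    (fun _ z => 0 ≤ z) (fun _ z => z.toNat) (fun _ n => ⟨n, by simp, by simp⟩)
    (DP.of_iff (fun _ p => Ap (fun z : ℤ => 0 ≤ z) p.1 ∧ p.1 = p.2) (fun _ p => by
      simp only [Ap]; omega) (by infer_instance))
  have h1 : DF c (X := fun _ => ℕ) (fun _ n => (n : ℤ)) :=
    DF.of_graph _ (fun _ p => Ap2 (fun (z : ℤ) (n : ℕ) => 0 ≤ z ∧ z.toNat = n) p.2 p.1)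
      (fun _ n z => by simp only [Ap2]; omega) (by infer_instance)
  refine ⟨t, ⟨?_⟩, ⟨?_⟩, h1⟩
  · exact DF.of_graph _ (fun _ p => Ap (fun n : ℕ => (n : ℤ)) p.1.1 + Ap (fun n : ℕ => (n : ℤ)) p.1.2
      = Ap (fun n : ℕ => (n : ℤ)) p.2) (fun _ p k => by simp only [Ap]; omega) (by infer_instance)
  · exact DF.of_graph _ (fun _ p => Ap (fun n : ℕ => (n : ℤ)) p.1.1 * Ap (fun n : ℕ => (n : ℤ)) p.1.2
      = Ap (fun n : ℕ => (n : ℤ)) p.2) (fun _ p k => by simp only [Ap]; norm_cast)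
      (by infer_instance)

theorem MS.pow_iff (S : MS r G Q) [UniqueProds Q] (hQ : TF Q) {i : Fin r} (hi : S.pr (S.x i) ≠ 1)
    {a : S.V} (ha : S.Inf (S.pr (S.x i)) a) (n : ℕ) (h : G) :
    S.x i ^ n = h ↔ S.x i * h = h * S.x i ∧ ∃ w u : S.V,
      oo (S.pr h) • a - a = oo (S.pr (S.x i)) • w - w ∧ w - n • a = oo (S.pr (S.x i)) • u - u := by
  constructor
  · rintro rfl
    obtain ⟨w, u, h1, h2⟩ := S.V_geom (S.pr (S.x i)) n a
    rw [zpow_natCast, ← map_pow] at h1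
    rw [natCast_zsmul] at h2
    exact ⟨((Commute.refl _).pow_right n).eq, w, u, h1, h2⟩
  · rintro ⟨h0, w, u, h1, h2⟩
    have e := S.cent_x hQ hi h0
    obtain ⟨w', u', h1', h2'⟩ := S.V_geom (S.pr (S.x i)) (S.dg i h) a
    rw [← map_zpow, ← e, h1] at h1'
    obtain rfl := S.V_cancel hi h1'
    have : (n : ℤ) - S.dg i h = 0 := ha _ (u' - u) (by
      rw [smul_sub, show oo (S.pr (S.x i)) • u' - oo (S.pr (S.x i)) • u - (u' - u) =
        (oo (S.pr (S.x i)) • u' - u') - (oo (S.pr (S.x i)) • u - u) by abel, ← h2, ← h2', sub_smul,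
        natCast_zsmul]
      abel)
    rw [e, ← sub_eq_zero.1 this, zpow_natCast]

theorem fs1_comm (r : ℕ) (a b : FS r 1) : a * b = b * a :=
  (msd r 0).ker_comm (Subsingleton.elim _ _) (Subsingleton.elim _ _)

theorem fs2_inf {r : ℕ} {i j : Fin r} (hij : i ≠ j) : ∃ a, (msd r 1).Inf (gx r 1 i) a := by
  let S := msd r 1
  have h1 : S.pr (S.x i * S.x j * (S.x i)⁻¹ * (S.x j)⁻¹) = 1 := by
    rw [map_mul, map_mul, map_mul, map_inv, map_inv, fs1_comm r (S.pr (S.x i))]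
    simp
  refine ⟨⟨_, _, h1, rfl⟩, fun n w e => ?_⟩
  have h2 := congrArg (E ((msd r 0).dg j)) (congrFun (congrArg Subtype.val e) i)
  have h3 := E_left (χ := (msd r 0).dg j) (h := gx r 1 i) (fun q => by
    rw [MS.dg_mul, ← msd_x, MS.dg_x, if_neg hij.symm, zero_add]) (w.1 i)
  rw [sub_mul, one_mul] at h3
  have h4 : E ((msd r 0).dg j) (S.der (S.x i * S.x j * (S.x i)⁻¹ * (S.x j)⁻¹) i) = -1 := by
    rw [S.der_comm, S.der_x, S.der_x, fs1_comm r (S.pr (S.x i)), mul_inv_cancel_right]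
    simp only [Pi.add_apply, Pi.smul_apply, Pi.single_eq_same, Pi.single_eq_of_ne hij,
      smul_eq_mul, mul_one, mul_zero, add_zero, map_sub, E_one, E_oo, MS.dg_one]
    have := (msd r 0).dg_x j j
    rw [if_pos rfl] at this
    exact (zero_sub _).trans (congrArg Neg.neg this)
  have h5 : n • (-1 : ℤ) = 0 := by
    rw [← h4, ← map_zsmul]
    exact h2.trans h3
  simpa using h5

theorem prod_surj {A : Type} [Group A] (hA : ∀ a b : A, a * b = b * a) {r : ℕ} (x : Fin r → A)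
    (hx : Subgroup.closure (Set.range x) = ⊤) (g : A) :
    ∃ p : (Fin r → ℕ) × (Fin r → ℕ), (List.ofFn fun j => x j ^ p.1 j).prod *
      ((List.ofFn fun j => x j ^ p.2 j).prod)⁻¹ = g := by
  let _ : CommGroup A := { (inferInstance : Group A) with mul_comm := hA }
  simp only [List.prod_ofFn]
  have hg : g ∈ Subgroup.closure (Set.range x) := by rw [hx]; trivial
  induction hg using Subgroup.closure_induction with
  | mem y hy =>
    obtain ⟨j, rfl⟩ := hy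
    refine ⟨(Pi.single j 1, 0), ?_⟩
    rw [Finset.prod_eq_single j] <;> simp +contextual
  | one => exact ⟨(0, 0), by simp⟩
  | mul a b _ _ ha hb =>
    obtain ⟨p, rfl⟩ := ha
    obtain ⟨q, rfl⟩ := hb
    refine ⟨p + q, ?_⟩
    simp only [Prod.fst_add, Prod.snd_add, Pi.add_apply, pow_add, Finset.prod_mul_distrib, mul_inv]
    exact mul_mul_mul_comm _ _ _ _
  | inv a _ ha =>
    obtain ⟨p, rfl⟩ := ha
    exact ⟨(p.2, p.1), by simp⟩

/-- The quotient by the kernel as a sort. -/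
theorem exists_quot (S : MS r G Q) [UniqueProds Q] [Srt c (fun _ => G)] [MulD c (fun _ => G)]
    (hc : ∀ g : G, DC c (fun _ => g)) {a : G} (ha : S.pr a = 1) (ha1 : a ≠ 1) :
    ∃ _ : Srt c (fun _ => Q), HomI c S.pr ∧ MulD c (fun _ => Q) ∧ ∀ q : Q, DC c (fun _ => q) := by
  obtain ⟨_, _, _⟩ := grpI c (fun _ => G)
  obtain ⟨t, ht⟩ := exists_srt_quot (c := c) (X := fun _ => G) (Y := fun _ => Q)
    (fun _ g => S.pr g) (fun _ => S.surj)
    (DP.of_iff (fun _ p => p.1 * p.2⁻¹ * a = a * (p.1 * p.2⁻¹)) (fun _ p => by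
      rw [← mul_inv_eq_one, ← map_inv, ← map_mul]
      exact ⟨fun h => S.ker_comm h ha, fun h => by_contra fun h' => ha1 (S.ker_fix h' ha h)⟩)
      (by infer_instance))
  have hp : HomI c S.pr := homI S.pr ht
  refine ⟨t, hp, ⟨DF.of_graph _ (fun _ p => ∃ g h : G, S.pr g = p.1.1 ∧ S.pr h = p.1.2 ∧
    S.pr (g * h) = p.2) (fun _ p k => ?_) (by infer_instance)⟩, fun q => ?_⟩
  · constructor
    · rintro rfl
      obtain ⟨g, hg⟩ := S.surj p.1
      obtain ⟨h, hh⟩ := S.surj p.2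
      exact ⟨g, h, hg, hh, by rw [map_mul, hg, hh]⟩
    · rintro ⟨g, h, hg, hh, e⟩
      rw [map_mul, hg, hh] at e
      exact e
  · obtain ⟨g, rfl⟩ := S.surj q
    exact DC.ap (fun _ g => S.pr g) (fun _ => g)

theorem coded_base (hr : 2 ≤ r) [Srt c (fun _ => FS r 2)] [MulD c (fun _ => FS r 2)]
    [Srt c (fun _ => FS r 1)] [MulD c (fun _ => FS r 1)] (hpr : HomI c (msd r 1).pr)
    (hc : ∀ g : FS r 2, DC c (fun _ => g)) :
    ∃ (_ : Srt c (fun _ => ℕ)) (_ : AddD c (fun _ => ℕ)) (_ : MulD c (fun _ => ℕ)),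
      Coded c (FS r 1) := by
  have hinf : ∀ i : Fin r, ∃ a, (msd r 1).Inf (gx r 1 i) a := fun i => by
    have : Nontrivial (Fin r) := Fin.nontrivial_iff_two_le.2 hr
    obtain ⟨j, hj⟩ := exists_ne i
    exact fs2_inf hj.symm
  choose a ha using hinf
  let i0 : Fin r := ⟨0, by omega⟩
  obtain ⟨_, _, _, hz⟩ := exists_int (c := c) (msd r 1) (fs_tf r 1) hpr hc (i0 := i0)
    (gx_ne_one r 0 i0) (ha i0)
  obtain ⟨sN, _, _, hcast⟩ := exists_nat (c := c)
  refine ⟨sN, inferInstance, inferInstance, ?_⟩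
  obtain ⟨_, hG, _, hA⟩ := exists_V (c := c) (msd r 1) hpr
  obtain ⟨_, _, _⟩ := grpI c (fun _ => FS r 2)
  obtain ⟨_, _, _⟩ := grpI c (fun _ => FS r 1)
  obtain ⟨_, _, _, _⟩ := agI c (fun _ => (msd r 1).V)
  have hV := V_dc _ hG hc
  have hN : NsmI c (msd r 1) := nsmI _ (fs_tf r 1) hA (z := (msd r 1).pr ((msd r 1).x i0))
    (gx_ne_one r 0 i0) (fun f _ => DF.congr
      (f := fun i x => (msd r 1).pr ((msd r 1).x i0) ^ Ap (fun n : ℕ => (n : ℤ)) (f i x))
      (by infer_instance) fun _ _ => zpow_natCast _ _)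
  have hx : ∀ i, DF c (X := fun _ => ℕ) (fun _ n => gx r 1 i ^ n) := fun i => by
    have h4 : DC c (fun _ => (msd r 1).pr ((msd r 1).x i)) :=
      DC.ap (fun _ g => (msd r 1).pr g) (fun _ => (msd r 1).x i)
    have h1 : DF c (X := fun _ => ℕ) (fun _ n => (msd r 1).x i ^ n) :=
      DF.of_graph _ (fun _ p => (msd r 1).x i * p.2 = p.2 * (msd r 1).x i ∧ ∃ w u : (msd r 1).V,
        oo ((msd r 1).pr p.2) • a i - a i = oo ((msd r 1).pr ((msd r 1).x i)) • w - w ∧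
        w - p.1 • a i = oo ((msd r 1).pr ((msd r 1).x i)) • u - u)
        (fun _ n h => (msd r 1).pow_iff (fs_tf r 1) (gx_ne_one r 0 i) (ha i) n h)
        (by infer_instance)
    exact DF.congr (f := fun _ n => (msd r 1).pr (Ap (fun n : ℕ => (msd r 1).x i ^ n) n))
      (by infer_instance) fun _ _ => map_pow _ _ _
  have h5 : DF c (X := fun _ => Fin r → ℕ)
      (fun _ v => (List.ofFn fun j => gx r 1 j ^ v j).prod) :=
    DF.listProd (X := fun _ => Fin r → ℕ) (fun j _ v => Ap (fun n : ℕ => gx r 1 j ^ n) (Ev v j))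
      fun j => by have := hx j; infer_instance
  refine Coded.of_surj _ (prod_surj (fs1_comm r) (gx r 1) (gx_gen r 1)) ?_
  exact DF.congr (f := fun _ (p : (Fin r → ℕ) × (Fin r → ℕ)) =>
    Ap (fun v : Fin r → ℕ => (List.ofFn fun j => gx r 1 j ^ v j).prod) p.1 *
    (Ap (fun v : Fin r → ℕ => (List.ofFn fun j => gx r 1 j ^ v j).prod) p.2)⁻¹)
    (by infer_instance) fun _ _ => rfl

theorem coded_succ (hr : 2 ≤ r) (d : ℕ) [Srt c (fun _ => ℕ)] [AddD c (fun _ => ℕ)]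
    [MulD c (fun _ => ℕ)] [Srt c (fun _ => FS r (d + 2))] [MulD c (fun _ => FS r (d + 2))]
    [Srt c (fun _ => FS r (d + 1))] [MulD c (fun _ => FS r (d + 1))] [Coded c (FS r (d + 1))]
    (hpr : HomI c (msd r (d + 1)).pr) (hc : ∀ g : FS r (d + 2), DC c (fun _ => g)) :
    Coded c (FS r (d + 2)) := by
  obtain ⟨k, n, hR⟩ := red_all r (d + 1) hr
  obtain ⟨e, he, he1⟩ := ker_nontriv r hr d
  exact coded_step (msd r (d + 1)) (fs_tf _ _) hpr hc hR (prj r d).ker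
    (fun _ ha _ hb => (msd r d).ker_comm ha hb) he he1

/-- A nonabelian free solvable group interprets arithmetic and is coded by it. -/
theorem coded_fs (hr : 2 ≤ r) (d : ℕ) : ∀ [Srt c (fun _ => FS r (d + 2))]
    [MulD c (fun _ => FS r (d + 2))], (∀ g : FS r (d + 2), DC c (fun _ => g)) →
    ∃ (_ : Srt c (fun _ => ℕ)) (_ : AddD c (fun _ => ℕ)) (_ : MulD c (fun _ => ℕ)),
      Coded c (FS r (d + 2)) := by
  induction d with
  | zero =>
    intro _ _ hc
    obtain ⟨e, he, he1⟩ := ker_nontriv r hr 1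
    obtain ⟨_, hp, _, -⟩ := exists_quot (msd r 1) hc he he1
    obtain ⟨sN, _, _, _⟩ := coded_base hr hp hc
    exact ⟨sN, inferInstance, inferInstance, coded_succ hr 0 hp hc⟩
  | succ d ih =>
    intro _ _ hc
    obtain ⟨e, he, he1⟩ := ker_nontriv r hr (d + 2)
    obtain ⟨_, hp, _, hq⟩ := exists_quot (msd r (d + 2)) hc he he1
    obtain ⟨sN, _, _, _⟩ := ih hq
    exact ⟨sN, inferInstance, inferInstance, coded_succ hr (d + 1) hp hc⟩

end Pool.Agent.H259Z.Rich
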