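import Pool.Agent.H259Z.Rich.Theta
import Pool.Agent.H146Z.BiDefs

/-! The word problem is arithmetical; bi-interpretability with arithmetic. -/

set_option autoImplicit false
set_option linter.unusedSectionVars false
set_option synthInstance.maxSize 100000

namespace Pool.Agent.H259Z.Rich

open FirstOrder FirstOrder.Language Pool.Agent.H146Z.BiDefs
open Pool.Agent.Helper777.Prof (pn)

variable {L : FirstOrder.Language.{0, 0}}

section WP

variable {c : Ctx L} [Srt c (fun _ => ℕ)] [AddD c (fun _ => ℕ)] [MulD c (fun _ => ℕ)]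

theorem exists_fin_srt (α : Type) [Finite α] (a0 : α) :
    ∃ _ : Srt c (fun _ => α), Coded c α := by
  classical
  obtain ⟨N, ⟨e⟩⟩ := Finite.exists_equiv_fin α
  let f : ℕ → α := fun n => if h : n < N then e.symm ⟨n, h⟩ else a0
  have hf : Function.Surjective f := fun a => ⟨e a, by simp [f]⟩
  have h1 : ∀ a, DP c (X := fun _ => ℕ) (fun _ n => f n = a) := fun a => by
    have := DP.const (c := c) (X := fun _ => ℕ) (a0 = a)
    refine DP.of_iff (fun _ n => n = (e a : ℕ) ∨ (N ≤ n ∧ a0 = a)) (fun _ n => ?_)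
      (by infer_instance)
    by_cases h : n < N
    · simp only [f, dif_pos h, Equiv.symm_apply_eq, Fin.ext_iff]
      omega
    · have := (e a).2
      simp only [f, dif_neg h]
      exact ⟨fun h' => Or.inr ⟨by omega, h'⟩, fun h' => h'.elim (by omega) And.right⟩
  obtain ⟨t, ht⟩ := exists_srt_quot (c := c) (X := fun _ => ℕ) (Y := fun _ => α) (fun _ => f)
    (fun _ => hf) (DP.of_iff (fun _ p => ∃ a, Ap (fun n => f n = a) p.1 ∧ Ap (fun n => f n = a) p.2)
      (fun _ p => by simp [Ap, eq_comm]) (by infer_instance))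
  exact ⟨t, f, hf, ht⟩

theorem exists_free_srt {r : ℕ} (i0 : Fin r) : ∃ _ : Srt c (fun _ => FreeGroup (Fin r)),
    MulD c (fun _ => FreeGroup (Fin r)) ∧ Coded c (FreeGroup (Fin r)) := by
  obtain ⟨_, _⟩ := exists_fin_srt (c := c) (Fin r × Bool) (i0, true)
  have h1 := DP.rtg (c := c) (Z := fun _ => Unit) (X := List (Fin r × Bool))
    (fun _ _ => FreeGroup.Red.Step) (DP.of_iff (fun _ p => ∃ l l' : List (Fin r × Bool),
      ∃ x : Fin r, ∃ b : Bool, p.2.1 = l ++ ([(x, b), (x, !b)] ++ l') ∧ p.2.2 = l ++ l')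
      (fun _ p => by
        obtain ⟨_, u, v⟩ := p
        constructor
        · intro h
          cases h with
          | not => exact ⟨_, _, _, _, rfl, rfl⟩
        · rintro ⟨l, l', x, b, e1, e2⟩
          simp only at e1 e2 ⊢
          rw [e1, e2]
          exact FreeGroup.Red.Step.not) (by infer_instance))
  have : DC c (fun _ => ()) := ⟨DP.of_iff (fun _ _ => True) (by simp) inferInstance⟩
  have hs : Function.Surjective (FreeGroup.mk : List (Fin r × Bool) → FreeGroup (Fin r)) :=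
    fun g => ⟨_, FreeGroup.mk_toWord⟩
  obtain ⟨t, ht⟩ := exists_srt_quot (c := c) (X := fun _ => List (Fin r × Bool))
    (Y := fun _ => FreeGroup (Fin r)) (fun _ => FreeGroup.mk) (fun _ => hs)
    (DP.of_iff (fun _ p => ∃ u,
      Ap3 (fun _ : Unit => Relation.ReflTransGen FreeGroup.Red.Step) () p.1 u ∧
      Ap3 (fun _ : Unit => Relation.ReflTransGen FreeGroup.Red.Step) () p.2 u)
      (fun _ p => FreeGroup.Red.exact) (by infer_instance))
  refine ⟨t, ⟨DF.of_graph _ (fun _ p => ∃ u v : List (Fin r × Bool), Ap FreeGroup.mk u = p.1.1 ∧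
    Ap FreeGroup.mk v = p.1.2 ∧ Ap FreeGroup.mk (u ++ v) = p.2) (fun _ p k => ?_)
    (by infer_instance)⟩, Coded.of_surj _ hs ht⟩
  simp only [Ap, ← FreeGroup.mul_mk]
  constructor
  · rintro rfl
    obtain ⟨u, hu⟩ := hs p.1
    obtain ⟨v, hv⟩ := hs p.2
    exact ⟨u, v, hu, hv, by rw [hu, hv]⟩
  · rintro ⟨u, v, hu, hv, e⟩
    rw [← e, hu, hv]

theorem derived_dp {F : Type} [Group F] [Srt c (fun _ => F)] [MulD c (fun _ => F)] [Coded c F]
    (n : ℕ) : DP c (X := fun _ => F) (fun _ g => g ∈ derivedSeries F n) := by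
  obtain ⟨_, _, _⟩ := grpI c (fun _ => F)
  induction n with
  | zero => exact DP.of_iff (fun _ _ => True) (by simp) inferInstance
  | succ n ih =>
    have h1 := DP.closure (c := c) (Z := fun _ => F) (fun _ _ (g : F) => ∃ a,
      Ap (· ∈ derivedSeries F n) a ∧ ∃ b, Ap (· ∈ derivedSeries F n) b ∧ a * b * a⁻¹ * b⁻¹ = g)
      (by infer_instance)
    exact DP.comp₂ (fun _ (_ g : F) => g ∈ derivedSeries F (n + 1)) h1 (fun _ g => g)
      (fun _ g => g)

theorem exists_fs_srt {r : ℕ} (i0 : Fin r) (d : ℕ) : ∃ _ : Srt c (fun _ => FS r d),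
    MulD c (fun _ => FS r d) ∧ Coded c (FS r d) := by
  obtain ⟨_, _, _⟩ := exists_free_srt (c := c) i0
  obtain ⟨_, _, _⟩ := grpI c (fun _ => FreeGroup (Fin r))
  have := derived_dp (c := c) (F := FreeGroup (Fin r)) d
  obtain ⟨t, ht⟩ := exists_srt_quot (c := c) (X := fun _ => FreeGroup (Fin r))
    (Y := fun _ => FS r d) (fun _ g => pn _ d g) (fun _ => pn_surj r d)
    (DP.of_iff (fun _ p => Ap (· ∈ derivedSeries (FreeGroup (Fin r)) d) (p.1⁻¹ * p.2))
      (fun _ p => by exact QuotientGroup.eq) (by infer_instance))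
  have hp : HomI c (pn (Fin r) d) := homI _ ht
  refine ⟨t, ⟨DF.of_graph _ (fun _ p => ∃ u v : FreeGroup (Fin r), pn _ d u = p.1.1 ∧
    pn _ d v = p.1.2 ∧ pn _ d (u * v) = p.2) (fun _ p k => ?_)
    (by infer_instance)⟩, Coded.of_surj _ (pn_surj r d) ht⟩
  simp only [map_mul]
  constructor
  · rintro rfl
    obtain ⟨u, hu⟩ := pn_surj r d p.1
    obtain ⟨v, hv⟩ := pn_surj r d p.2
    exact ⟨u, v, hu, hv, by rw [hu, hv]⟩
  · rintro ⟨u, v, hu, hv, e⟩
    rw [← e, hu, hv]

open Classical in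
/-- The exponent of a power of `x`. -/
noncomputable def lg {G : Type} [Group G] (x g : G) : ℕ :=
  if h : ∃ k : ℕ, g = x ^ k then h.choose else 0

theorem lg_pow {G : Type} [Group G] (hG : TF G) {x : G} (hx : x ≠ 1) (k : ℕ) :
    lg x (x ^ k) = k := by
  have h : ∃ j : ℕ, x ^ k = x ^ j := ⟨k, rfl⟩
  have := hG.zpow_inj hx (n := k) (m := h.choose)
    (by rw [zpow_natCast, zpow_natCast]; exact h.choose_spec)
  rw [lg, dif_pos h]
  omega

theorem lg_df {G : Type} [Group G] [Srt c (fun _ => G)] [MulD c (fun _ => G)] [Coded c G]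
    (hG : TF G) {x : G} (hx : x ≠ 1) : DF c (X := fun _ => G) (fun _ g => lg x g) ∧
      DP c (X := fun _ => G) (fun _ g => ∃ k : ℕ, g = x ^ k) := by
  have : PowI c G := powI c G
  refine ⟨DF.of_graph _ (fun _ p => p.1 = x ^ p.2 ∨ ((¬ ∃ k : ℕ, p.1 = x ^ k) ∧ p.2 = 0))
    (fun _ g k => ?_) (by infer_instance), by infer_instance⟩
  by_cases h : ∃ k : ℕ, g = x ^ k
  · obtain ⟨j, rfl⟩ := h
    rw [lg_pow hG hx]
    constructor
    · rintro rfl; exact Or.inl rfl
    · rintro (e | ⟨e, -⟩)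
      · have := congrArg (lg x) e
        rwa [lg_pow hG hx, lg_pow hG hx] at this
      · exact (e ⟨j, rfl⟩).elim
  · rw [lg, dif_neg h]
    exact ⟨fun e => Or.inr ⟨h, e.symm⟩, fun e => e.elim (fun e => (h ⟨_, e⟩).elim) (·.2.symm)⟩

end WP

section Glue

variable {M : Type} [L.Structure M] {B : Type} {par : B → M}

theorem definable_of_dp {ι : Type} [Finite ι] {T : Set (ι → M)}
    (h : DP (ctxS L M par) (X := fun _ => ι → M) (fun _ v => v ∈ T)) :
    (Set.univ : Set M).Definable L T := by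
  obtain ⟨φ, hφ⟩ := DP.extract h
  refine Set.definable_iff_exists_formula_sum.2
    ⟨φ.relabel (Sum.map (fun b => ⟨par b, Set.mem_univ _⟩) id), ?_⟩
  ext v
  rw [Set.mem_ofPred_eq, Formula.realize_relabel, ← hφ PUnit.unit v]
  congr! 1
  funext a
  rcases a with a | a <;> rfl

theorem isInterp_of {L' : FirstOrder.Language.{0, 0}} {N : Type} [L'.Structure N]
    [Srt (ctxS L M par) (fun _ => N)] (D : M → Prop) (f : M → N)
    (hD : DP (ctxS L M par) (X := fun _ => M) (fun _ a => D a))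
    (hf : DF (ctxS L M par) (X := fun _ => M) (fun _ a => f a)) (hs : ∀ y, ∃ a, D a ∧ f a = y)
    (hF : ∀ (k : ℕ) (F : L'.Functions k),
      DF (ctxS L M par) (X := fun _ => Fin k → N) (fun _ v => Structure.funMap F v))
    (hR : ∀ k, IsEmpty (L'.Relations k)) :
    IsInterp L L' M N 1 {u | D (u 0)} (fun u => f (u 0)) where
  surj y := by
    obtain ⟨a, ha, e⟩ := hs y
    exact ⟨fun _ => a, ha, e⟩
  dom := definable_of_dp (par := par) (DP.of_iff (fun _ u => Ap D (Ev u 0))
    (fun _ _ => by exact Iff.rfl) (by infer_instance))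
  ker := definable_of_dp (par := par) (DP.of_iff (fun _ w => Ap D (Ev w (0, 0)) ∧
    Ap D (Ev w (1, 0)) ∧ Ap f (Ev w (0, 0)) = Ap f (Ev w (1, 0)))
    (fun _ _ => by exact Iff.rfl) (by infer_instance))
  func k F := by
    have h1 := hF k F
    have h2 : DF (ctxS L M par) (X := fun _ => Option (Fin k) × Fin 1 → M)
        (Y := fun _ => Fin k → N) (fun _ w j => Ap f (Ev w (some j, 0))) :=
      DF.pi _ fun _ => by infer_instance
    exact definable_of_dp (par := par) (DP.of_iff (fun _ w => (∀ j, Ap D (Ev w (j, 0))) ∧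
      Ap (fun v => Structure.funMap F v) (Ap (fun (w : Option (Fin k) × Fin 1 → M) j =>
        Ap f (Ev w (some j, 0))) w) = Ap f (Ev w (none, 0)))
      (fun _ _ => by exact Iff.rfl) (by infer_instance))
  rel k r := (hR k).elim r

theorem compGraph_of {N : Type} [Srt (ctxS L M par) (fun _ => N)] (D : M → Prop) (f : M → N)
    (D' : N → Prop) (g : N → M) (hD : DP (ctxS L M par) (X := fun _ => M) (fun _ a => D a))
    (hf : DF (ctxS L M par) (X := fun _ => M) (fun _ a => f a))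
    (hD' : DP (ctxS L M par) (X := fun _ => N) (fun _ a => D' a))
    (hg : DF (ctxS L M par) (X := fun _ => N) (fun _ a => g a)) :
    (Set.univ : Set M).Definable L (compGraph (n := 1) (m := 1) {u | D (u 0)} (fun u => f (u 0))
      {u | D' (u 0)} (fun u => g (u 0))) :=
  definable_of_dp (par := par) (DP.of_iff (fun _ w => (∀ j, Ap D (Ev w (some (j, 0)))) ∧
    Ap D' (Ap f (Ev w (some (0, 0)))) ∧ Ap g (Ap f (Ev w (some (0, 0)))) = Ev w none)
    (fun _ _ => by exact Iff.rfl) (by infer_instance))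

end Glue

theorem biInterp_fs {r : ℕ} (hr : 2 ≤ r) (d : ℕ) : BiInterp Lgrp Lar (FS r (d + 2)) ℕ := by
  let i0 : Fin r := ⟨0, by omega⟩
  have hx : gx r (d + 2) i0 ≠ 1 := gx_ne_one r (d + 1) i0
  let cG := ctxS Lgrp (FS r (d + 2)) (gx r (d + 2))
  let cN := ctxS Lar ℕ (Empty.elim)
  have : MulD cG (fun _ => FS r (d + 2)) := mulD_of_formula
    ((Term.func GrpFunc.mul ![Term.var 0, Term.var 1]).equal (Term.var 2)) fun _ _ => Iff.rfl
  have hc : ∀ g : FS r (d + 2), DC cG (fun _ => g) := fun g =>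
    DC.of_closure (T := Set.range (gx r (d + 2))) (by rintro _ ⟨j, rfl⟩; exact DC.par (c := cG) j)
      (by rw [gx_gen]; trivial)
  obtain ⟨_, _, _, _⟩ := coded_fs hr d hc
  have : MulD cN (fun _ => ℕ) := mulD_of_formula
    ((Term.func ArFunc.mul ![Term.var 0, Term.var 1]).equal (Term.var 2)) fun _ _ => Iff.rfl
  have : AddD cN (fun _ => ℕ) := addD_of_formula
    ((Term.func ArFunc.add ![Term.var 0, Term.var 1]).equal (Term.var 2)) fun _ _ => Iff.rfl
  obtain ⟨_, _, _⟩ := exists_fs_srt (c := cN) i0 (d + 2)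
  obtain ⟨a1, a2⟩ := lg_df (c := cG) (fs_tf _ _) hx
  obtain ⟨b1, b2⟩ := lg_df (c := cN) (fs_tf _ _) hx
  have a3 := wd_df (c := cG) (gx r (d + 2))
  have b3 := wd_df (c := cN) (gx r (d + 2))
  refine ⟨1, _, _, 1, _, _,
    isInterp_of (par := gx r (d + 2)) (fun g => ∃ k : ℕ, g = gx r (d + 2) i0 ^ k)
      (lg (gx r (d + 2) i0)) a2 a1 (fun k => ⟨_, ⟨k, rfl⟩, lg_pow (fs_tf _ _) hx k⟩) ?_
      (fun _ => inferInstanceAs (IsEmpty Empty)),
    isInterp_of (par := Empty.elim) (fun _ => True) (wd (gx r (d + 2))) DP.tru b3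
      (fun g => by simpa using wd_surj _ (gx_gen _ _) g) ?_
      (fun _ => inferInstanceAs (IsEmpty Empty)),
    compGraph_of _ _ (fun _ => True) _ a2 a1 DP.tru a3,
    compGraph_of (fun _ => True) _ _ _ DP.tru b3 b2 b1⟩
  · intro k F
    cases F
    · exact DF.congr (f := fun _ _ => (0 : ℕ)) (by infer_instance) fun _ _ => rfl
    · exact DF.congr (f := fun _ _ => (1 : ℕ)) (by infer_instance) fun _ _ => rfl
    · exact DF.congr (f := fun _ v => Ev v 0 + Ev v 1) (by infer_instance) fun _ _ => rfl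
    · exact DF.congr (f := fun _ v => Ev v 0 * Ev v 1) (by infer_instance) fun _ _ => rfl
  · obtain ⟨_, _, _⟩ := grpI cN (fun _ => FS r (d + 2))
    intro k F
    cases F
    · exact DF.congr (f := fun _ _ => (1 : FS r (d + 2))) (by infer_instance) fun _ _ => rfl
    · exact DF.congr (f := fun _ v => (Ev v 0)⁻¹) (by infer_instance) fun _ _ => rfl
    · exact DF.congr (f := fun _ v => Ev v 0 * Ev v 1) (by infer_instance) fun _ _ => rfl

end Pool.Agent.H259Z.Rich
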