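import Mathlib

/-! A calculus of uniformly definable predicates on interpreted sorts. -/

set_option autoImplicit false
set_option linter.unusedSectionVars false

namespace Pool.Agent.H259Z.Rich

open FirstOrder FirstOrder.Language

/-- A family of structures with named parameters. -/
structure Ctx (L : FirstOrder.Language.{0, 0}) where
  I : Type 1
  M : I → Type
  str : ∀ i, L.Structure (M i)
  B : Type
  par : ∀ i, B → M i

variable {L : FirstOrder.Language.{0, 0}}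

instance (c : Ctx L) (i : c.I) : L.Structure (c.M i) := c.str i

/-- Uniformly definable predicates on tuples. -/
def UD (c : Ctx L) (α : Type) (P : ∀ i, (α → c.M i) → Prop) : Prop :=
  ∃ φ : L.Formula (c.B ⊕ α), ∀ i v, φ.Realize (Sum.elim (c.par i) v) ↔ P i v

namespace UD

variable {c : Ctx L} {α β : Type}

theorem congr {P Q : ∀ i, (α → c.M i) → Prop} (h : UD c α P) (e : ∀ i v, P i v ↔ Q i v) :
    UD c α Q := by
  obtain ⟨φ, hφ⟩ := h
  exact ⟨φ, fun i v => (hφ i v).trans (e i v)⟩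

theorem tru : UD c α (fun _ _ => True) := ⟨⊤, fun i v => by simp⟩

theorem and {P Q : ∀ i, (α → c.M i) → Prop} (h : UD c α P) (h' : UD c α Q) :
    UD c α (fun i v => P i v ∧ Q i v) := by
  obtain ⟨φ, hφ⟩ := h
  obtain ⟨ψ, hψ⟩ := h'
  exact ⟨φ ⊓ ψ, fun i v => by simp [hφ, hψ]⟩

theorem not {P : ∀ i, (α → c.M i) → Prop} (h : UD c α P) : UD c α (fun i v => ¬ P i v) := by
  obtain ⟨φ, hφ⟩ := h
  exact ⟨φ.not, fun i v => by simp [hφ]⟩

theorem comap {P : ∀ i, (α → c.M i) → Prop} (h : UD c α P) (σ : α → β) :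
    UD c β (fun i v => P i (v ∘ σ)) := by
  obtain ⟨φ, hφ⟩ := h
  refine ⟨φ.relabel (Sum.map id σ), fun i v => ?_⟩
  show _ ↔ P i (v ∘ σ)
  rw [Formula.realize_relabel, ← hφ]
  congr! 1
  ext x
  cases x <;> rfl

theorem ex {γ : Type} [Finite γ] {P : ∀ i, (α ⊕ γ → c.M i) → Prop} (h : UD c (α ⊕ γ) P) :
    UD c α (fun i v => ∃ u : γ → c.M i, P i (Sum.elim v u)) := by
  obtain ⟨φ, hφ⟩ := h
  refine ⟨(φ.relabel (Equiv.sumAssoc _ _ _).symm).iExs γ, fun i v => ?_⟩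
  rw [Formula.realize_iExs]
  refine exists_congr fun u => ?_
  rw [Formula.realize_relabel, ← hφ]
  congr! 1
  ext x
  rcases x with x | x | x <;> rfl

theorem eq (a b : α) : UD c α (fun _ v => v a = v b) :=
  ⟨(Term.var (Sum.inr a)).equal (Term.var (Sum.inr b)), fun i v => by simp⟩

theorem eq_par (a : α) (b : c.B) : UD c α (fun i v => v a = c.par i b) :=
  ⟨(Term.var (Sum.inr a)).equal (Term.var (Sum.inl b)), fun i v => by simp⟩

theorem all_fin {ι : Type} [Finite ι] {P : ι → ∀ i, (α → c.M i) → Prop}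
    (h : ∀ a, UD c α (P a)) : UD c α (fun i v => ∀ a, P a i v) := by
  choose φ hφ using h
  exact ⟨Formula.iInf φ, fun i v => by simp [Formula.realize_iInf, hφ]⟩

theorem formula (φ : L.Formula α) : UD c α (fun _ v => φ.Realize v) :=
  ⟨φ.relabel Sum.inr, fun i v => by rw [Formula.realize_relabel]; rfl⟩

end UD

/-- An interpreted sort. -/
class Srt (c : Ctx L) (X : c.I → Type) where
  idx : Type
  fin : Finite idx
  dom : ∀ i, (idx → c.M i) → Prop
  dec : ∀ i, (idx → c.M i) → X i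
  surj : ∀ i x, ∃ v, dom i v ∧ dec i v = x
  dom_ud : UD c idx dom
  ker_ud : UD c (idx ⊕ idx) (fun i w => dom i (w ∘ Sum.inl) ∧ dom i (w ∘ Sum.inr) ∧
    dec i (w ∘ Sum.inl) = dec i (w ∘ Sum.inr))

instance (c : Ctx L) (X : c.I → Type) [s : Srt c X] : Finite (s.idx) := s.fin

variable {c : Ctx L}

/-- Definable predicates on a sort. -/
class DP (c : Ctx L) {X : c.I → Type} [s : Srt c X] (P : ∀ i, X i → Prop) : Prop where
  out : UD c s.idx (fun i v => s.dom i v ∧ P i (s.dec i v))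

instance prodSrt (X Y : c.I → Type) [s : Srt c X] [t : Srt c Y] :
    Srt c (fun i => X i × Y i) where
  idx := s.idx ⊕ t.idx
  fin := inferInstance
  dom i v := s.dom i (v ∘ Sum.inl) ∧ t.dom i (v ∘ Sum.inr)
  dec i v := (s.dec i (v ∘ Sum.inl), t.dec i (v ∘ Sum.inr))
  surj i x := by
    obtain ⟨u, hu, hu'⟩ := s.surj i x.1
    obtain ⟨v, hv, hv'⟩ := t.surj i x.2
    exact ⟨Sum.elim u v, ⟨hu, hv⟩, Prod.ext hu' hv'⟩
  dom_ud := (s.dom_ud.comap _).and (t.dom_ud.comap _)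
  ker_ud := ((s.ker_ud.comap (Sum.map Sum.inl Sum.inl)).and
    (t.ker_ud.comap (Sum.map Sum.inr Sum.inr))).congr fun i v => by
      constructor
      · rintro ⟨⟨a, b, e⟩, a', b', e'⟩
        exact ⟨⟨a, a'⟩, ⟨b, b'⟩, Prod.ext e e'⟩
      · rintro ⟨⟨a, a'⟩, ⟨b, b'⟩, e⟩
        exact ⟨⟨a, b, congrArg Prod.fst e⟩, a', b', congrArg Prod.snd e⟩

/-- Definable functions between sorts. -/
class DF (c : Ctx L) {X Y : c.I → Type} [Srt c X] [Srt c Y] (f : ∀ i, X i → Y i) : Prop where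
  out : DP c (X := fun i => X i × Y i) (fun i p => f i p.1 = p.2)

/-- Definable constants. -/
class DC (c : Ctx L) {X : c.I → Type} [Srt c X] (x : ∀ i, X i) : Prop where
  out : DP c (X := X) (fun i z => z = x i)

section Basic

variable {X Y Z : c.I → Type} [s : Srt c X] [t : Srt c Y] [u : Srt c Z]

theorem DP.congr {P Q : ∀ i, X i → Prop} (h : DP c P) (e : ∀ i x, P i x ↔ Q i x) : DP c Q :=
  ⟨h.out.congr fun i v => by rw [e]⟩

theorem DP.of_iff (P : ∀ i, X i → Prop) {Q : ∀ i, X i → Prop}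
    (e : ∀ i x, Q i x ↔ P i x) (h : DP c P) : DP c Q :=
  h.congr fun i x => (e i x).symm

instance DP.tru : DP c (X := X) (fun _ _ => True) := ⟨s.dom_ud.congr fun i v => by simp⟩

instance DP.and (P Q : ∀ i, X i → Prop) [h : DP c P] [h' : DP c Q] :
    DP c (fun i x => P i x ∧ Q i x) :=
  ⟨(h.out.and h'.out).congr fun i v => by tauto⟩

instance DP.not (P : ∀ i, X i → Prop) [h : DP c P] : DP c (fun i x => ¬ P i x) :=
  ⟨(s.dom_ud.and h.out.not).congr fun i v => by tauto⟩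

instance DP.fls : DP c (X := X) (fun _ _ => False) :=
  DP.of_iff (fun _ _ => ¬ True) (by simp) inferInstance

theorem DP.const (p : Prop) : DP c (X := X) (fun _ _ => p) := by
  by_cases h : p
  · exact DP.of_iff (fun _ _ => True) (by simp [h]) inferInstance
  · exact DP.of_iff (fun _ _ => False) (by simp [h]) inferInstance

instance DP.or (P Q : ∀ i, X i → Prop) [DP c P] [DP c Q] : DP c (fun i x => P i x ∨ Q i x) :=
  DP.of_iff (fun i x => ¬ (¬ P i x ∧ ¬ Q i x)) (fun i x => by tauto) inferInstance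

instance DP.imp (P Q : ∀ i, X i → Prop) [DP c P] [DP c Q] : DP c (fun i x => P i x → Q i x) :=
  DP.of_iff (fun i x => ¬ (P i x ∧ ¬ Q i x)) (fun i x => by tauto) inferInstance

instance DP.iff (P Q : ∀ i, X i → Prop) [DP c P] [DP c Q] : DP c (fun i x => P i x ↔ Q i x) :=
  DP.of_iff (fun i x => (P i x → Q i x) ∧ (Q i x → P i x)) (fun i x => by tauto) inferInstance

instance DP.ex (P : ∀ i, X i → Y i → Prop)
    [h : DP c (X := fun i => X i × Y i) (fun i p => P i p.1 p.2)] :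
    DP c (fun i x => ∃ y, P i x y) :=
  ⟨h.out.ex.congr fun i v => by
    constructor
    · rintro ⟨w, ⟨h1, h2⟩, h3⟩
      exact ⟨h1, _, h3⟩
    · rintro ⟨h1, y, h3⟩
      obtain ⟨w, hw, rfl⟩ := t.surj i y
      exact ⟨w, ⟨h1, hw⟩, h3⟩⟩

instance DP.all (P : ∀ i, X i → Y i → Prop)
    [DP c (X := fun i => X i × Y i) (fun i p => P i p.1 p.2)] :
    DP c (fun i x => ∀ y, P i x y) :=
  DP.of_iff (fun i x => ¬ ∃ y, ¬ P i x y) (fun i x => by simp) inferInstance

instance (priority := 100) DP.allFin {ι : Type} [Finite ι] (P : ∀ i, X i → ι → Prop)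
    [h : ∀ a, DP c (fun i x => P i x a)] : DP c (fun i x => ∀ a, P i x a) :=
  ⟨(s.dom_ud.and (UD.all_fin fun a => (h a).out)).congr fun i v => by
    constructor
    · rintro ⟨h1, h2⟩
      exact ⟨h1, fun a => (h2 a).2⟩
    · rintro ⟨h1, h2⟩
      exact ⟨h1, fun a => ⟨h1, h2 a⟩⟩⟩

instance (priority := 100) DP.exFin {ι : Type} [Finite ι] (P : ∀ i, X i → ι → Prop)
    [∀ a, DP c (fun i x => P i x a)] : DP c (fun i x => ∃ a, P i x a) :=
  DP.of_iff (fun i x => ¬ ∀ a, ¬ P i x a) (fun i x => by simp) inferInstance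

theorem DP.fst' (P : ∀ i, X i → Prop) [h : DP c P] :
    DP c (X := fun i => X i × Y i) (fun i p => P i p.1) :=
  ⟨((h.out.comap Sum.inl).and (t.dom_ud.comap Sum.inr)).congr fun i v => by
    constructor
    · rintro ⟨⟨a, b⟩, d⟩
      exact ⟨⟨a, d⟩, b⟩
    · rintro ⟨⟨a, d⟩, b⟩
      exact ⟨⟨a, b⟩, d⟩⟩

theorem DP.snd' (P : ∀ i, Y i → Prop) [h : DP c P] :
    DP c (X := fun i => X i × Y i) (fun i p => P i p.2) :=
  ⟨((h.out.comap Sum.inr).and (s.dom_ud.comap Sum.inl)).congr fun i v => by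
    constructor
    · rintro ⟨⟨a, b⟩, d⟩
      exact ⟨⟨d, a⟩, b⟩
    · rintro ⟨⟨d, a⟩, b⟩
      exact ⟨⟨a, b⟩, d⟩⟩

theorem DP.eq0 : DP c (X := fun i => X i × X i) (fun _ p => p.1 = p.2) :=
  ⟨s.ker_ud.congr fun i v => by
    constructor
    · rintro ⟨a, b, e⟩
      exact ⟨⟨a, b⟩, e⟩
    · rintro ⟨⟨a, b⟩, e⟩
      exact ⟨a, b, e⟩⟩

theorem DP.skip (P : ∀ i, X i × Z i → Prop) [h : DP c (X := fun i => X i × Z i) P] :
    DP c (X := fun i => (X i × Y i) × Z i) (fun i p => P i (p.1.1, p.2)) :=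
  ⟨((h.out.comap (Sum.map Sum.inl id)).and (t.dom_ud.comap (Sum.inl ∘ Sum.inr))).congr
    fun i v => by
      constructor
      · rintro ⟨⟨⟨a, b⟩, e⟩, d⟩
        exact ⟨⟨⟨a, d⟩, b⟩, e⟩
      · rintro ⟨⟨⟨a, d⟩, b⟩, e⟩
        exact ⟨⟨⟨a, b⟩, e⟩, d⟩⟩

theorem DP.skip' (P : ∀ i, Y i × Z i → Prop) [h : DP c (X := fun i => Y i × Z i) P] :
    DP c (X := fun i => (X i × Y i) × Z i) (fun i p => P i (p.1.2, p.2)) :=
  ⟨((h.out.comap (Sum.map Sum.inr id)).and (s.dom_ud.comap (Sum.inl ∘ Sum.inl))).congr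
    fun i v => by
      constructor
      · rintro ⟨⟨⟨a, b⟩, e⟩, d⟩
        exact ⟨⟨⟨d, a⟩, b⟩, e⟩
      · rintro ⟨⟨⟨d, a⟩, b⟩, e⟩
        exact ⟨⟨⟨a, b⟩, e⟩, d⟩⟩

theorem DP.assoc (P : ∀ i, (X i × Y i) × Z i → Prop)
    [h : DP c (X := fun i => (X i × Y i) × Z i) P] :
    DP c (X := fun i => X i × (Y i × Z i)) (fun i p => P i ((p.1, p.2.1), p.2.2)) :=
  ⟨(h.out.comap (Equiv.sumAssoc _ _ _)).congr fun i v => by
      constructor
      · rintro ⟨⟨⟨a, b⟩, d⟩, e⟩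
        exact ⟨⟨a, b, d⟩, e⟩
      · rintro ⟨⟨a, b, d⟩, e⟩
        exact ⟨⟨⟨a, b⟩, d⟩, e⟩⟩

theorem DP.comp (P : ∀ i, Y i → Prop) [hP : DP c P] (f : ∀ i, X i → Y i) [hf : DF c f] :
    DP c (fun i x => P i (f i x)) := by
  have h1 := hf.out
  have h2 := DP.snd' (X := X) P
  exact DP.of_iff (fun i x => ∃ y, f i x = y ∧ P i y) (by simp) inferInstance

instance DF.id : DF c (X := X) (fun _ x => x) := ⟨DP.eq0⟩

theorem DF.fst0 : DF c (X := fun i => X i × Y i) (Y := X) (fun _ p => p.1) :=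
  ⟨DP.skip (Y := Y) (fun _ (p : X _ × X _) => p.1 = p.2) (h := DP.eq0)⟩

theorem DF.snd0 : DF c (X := fun i => X i × Y i) (Y := Y) (fun _ p => p.2) :=
  ⟨DP.skip' (X := X) (fun _ (p : Y _ × Y _) => p.1 = p.2) (h := DP.eq0)⟩

instance (priority := 50) DF.pair (f : ∀ i, X i → Y i) (g : ∀ i, X i → Z i) [hf : DF c f]
    [hg : DF c g] : DF c (Y := fun i => Y i × Z i) (fun i x => (f i x, g i x)) := by
  have h1 := DP.fst' (Y := Z) (fun i (p : X i × Y i) => f i p.1 = p.2) (h := hf.out)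
  have h2 := DP.skip (Y := Y) (fun i (p : X i × Z i) => g i p.1 = p.2) (h := hg.out)
  have h3 := DP.assoc (fun i (p : (X i × Y i) × Z i) => f i p.1.1 = p.1.2 ∧ g i p.1.1 = p.2)
  exact ⟨h3.congr fun i p => by simp [Prod.ext_iff]⟩

theorem DF.comp (g : ∀ i, Y i → Z i) [hg : DF c g] (f : ∀ i, X i → Y i) [hf : DF c f] :
    DF c (fun i x => g i (f i x)) := by
  have a1 : DF c (X := fun i => (X i × Z i) × Y i) (Y := X) (fun _ p => p.1.1) := by
    have := DP.skip (Y := Y) (fun i (p : (X i × Z i) × X i) => p.1.1 = p.2) (h := DF.fst0.out)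
    exact ⟨this⟩
  have a2 : DF c (X := fun i => (X i × Z i) × Y i) (Y := Z) (fun _ p => p.1.2) := by
    have := DP.skip (Y := Y) (fun i (p : (X i × Z i) × Z i) => p.1.2 = p.2) (h := DF.snd0.out)
    exact ⟨this⟩
  have a3 : DF c (X := fun i => (X i × Z i) × Y i) (Y := Y) (fun _ p => p.2) := DF.snd0
  have h1 := hf.out
  have h2 := hg.out
  have b1 := DP.comp (fun i (p : X i × Y i) => f i p.1 = p.2)
    (fun i (p : (X i × Z i) × Y i) => (p.1.1, p.2))
  have b2 := DP.comp (fun i (p : Y i × Z i) => g i p.1 = p.2)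
    (fun i (p : (X i × Z i) × Y i) => (p.2, p.1.2))
  exact ⟨DP.of_iff (fun i (p : X i × Z i) => ∃ y, f i p.1 = y ∧ g i y = p.2) (by simp) inferInstance⟩

instance DF.fst (f : ∀ i, X i → Y i × Z i) [DF c (Y := fun i => Y i × Z i) f] :
    DF c (fun i x => (f i x).1) :=
  DF.comp (fun _ (p : Y _ × Z _) => p.1) (hg := DF.fst0) f

instance DF.snd (f : ∀ i, X i → Y i × Z i) [DF c (Y := fun i => Y i × Z i) f] :
    DF c (fun i x => (f i x).2) :=
  DF.comp (fun _ (p : Y _ × Z _) => p.2) (hg := DF.snd0) f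

instance DP.eq (f g : ∀ i, X i → Y i) [DF c f] [DF c g] : DP c (fun i x => f i x = g i x) :=
  DP.comp (fun _ (p : Y _ × Y _) => p.1 = p.2) (hP := DP.eq0) (fun i x => (f i x, g i x))

instance DP.ne (f g : ∀ i, X i → Y i) [DF c f] [DF c g] : DP c (fun i x => f i x ≠ g i x) :=
  DP.not (fun i x => f i x = g i x)

instance (priority := 2000) DF.const (y : ∀ i, Y i) [h : DC c y] :
    DF c (X := X) (fun i _ => y i) := by
  have := h.out
  exact ⟨(DP.snd' (X := X) (fun i z => z = y i)).congr fun i p => eq_comm⟩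

theorem DF.congr {f g : ∀ i, X i → Y i} (h : DF c f) (e : ∀ i x, f i x = g i x) : DF c g := by
  have : f = g := by ext i x; exact e i x
  exact this ▸ h

theorem DF.of_graph (f : ∀ i, X i → Y i) (P : ∀ i, X i × Y i → Prop)
    (e : ∀ i x y, f i x = y ↔ P i (x, y))
    (h : DP c (X := fun i => X i × Y i) P) : DF c f :=
  ⟨DP.of_iff P (fun i p => e i p.1 p.2) h⟩

theorem DC.of_DP (y : ∀ i, Y i) (P : ∀ i, Y i → Prop) (e : ∀ i z, z = y i ↔ P i z)
    (h : DP c P) : DC c y := ⟨DP.of_iff P e h⟩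

theorem DP.comp₂ (R : ∀ i, Y i → Z i → Prop)
    (h : DP c (X := fun i => Y i × Z i) (fun i p => R i p.1 p.2))
    (f : ∀ i, X i → Y i) (g : ∀ i, X i → Z i) [DF c f] [DF c g] :
    DP c (fun i x => R i (f i x) (g i x)) :=
  DP.comp (fun i (p : Y i × Z i) => R i p.1 p.2) (fun i x => (f i x, g i x))

theorem DF.comp₂ {W : c.I → Type} [Srt c W] (F : ∀ i, Y i → Z i → W i)
    (h : DF c (X := fun i => Y i × Z i) (fun i p => F i p.1 p.2))
    (f : ∀ i, X i → Y i) (g : ∀ i, X i → Z i) [DF c f] [DF c g] :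
    DF c (fun i x => F i (f i x) (g i x)) :=
  DF.comp (fun i (p : Y i × Z i) => F i p.1 p.2) (fun i x => (f i x, g i x))

end Basic

end Pool.Agent.H259Z.Rich
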