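import Pool.Agent.H259Z.Rich.Calc

/-! Constructions of sorts, algebraic operations and arithmetic. -/

set_option autoImplicit false
set_option linter.unusedSectionVars false

namespace Pool.Agent.H259Z.Rich

open FirstOrder FirstOrder.Language

variable {L : FirstOrder.Language.{0, 0}} {c : Ctx L}

/-- Application, as a marker for instance search. -/
def Ap {α : Type} {β : Sort _} (f : α → β) (a : α) : β := f a

/-- Binary application, as a marker for instance search. -/
def Ap2 {α β : Type} {γ : Sort _} (f : α → β → γ) (a : α) (b : β) : γ := f a b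

/-- Ternary application, as a marker for instance search. -/
def Ap3 {α β γ : Type} {δ : Sort _} (f : α → β → γ → δ) (a : α) (b : β) (d : γ) : δ := f a b d

section Marker

variable {X Y Z W V : c.I → Type} [Srt c X] [Srt c Y] [Srt c Z] [Srt c W] [Srt c V]

instance DF.ap (F : ∀ i, Y i → W i) [DF c F] (a : ∀ i, X i → Y i) [DF c a] :
    DF c (fun i z => Ap (F i) (a i z)) := DF.comp F a

instance DP.ap (F : ∀ i, Y i → Prop) [DP c F] (a : ∀ i, X i → Y i) [DF c a] :
    DP c (fun i z => Ap (F i) (a i z)) := DP.comp F a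

instance DF.ap2 (F : ∀ i, Y i → Z i → W i)
    [h : DF c (X := fun i => Y i × Z i) (fun i p => F i p.1 p.2)]
    (a : ∀ i, X i → Y i) (b : ∀ i, X i → Z i) [DF c a] [DF c b] :
    DF c (fun i z => Ap2 (F i) (a i z) (b i z)) := DF.comp₂ F h a b

instance DP.ap2 (F : ∀ i, Y i → Z i → Prop)
    [h : DP c (X := fun i => Y i × Z i) (fun i p => F i p.1 p.2)]
    (a : ∀ i, X i → Y i) (b : ∀ i, X i → Z i) [DF c a] [DF c b] :
    DP c (fun i z => Ap2 (F i) (a i z) (b i z)) := DP.comp₂ F h a b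

instance DF.ap3 (F : ∀ i, Y i → Z i → V i → W i)
    [h : DF c (X := fun i => Y i × Z i × V i) (fun i p => F i p.1 p.2.1 p.2.2)]
    (a : ∀ i, X i → Y i) (b : ∀ i, X i → Z i) (d : ∀ i, X i → V i) [DF c a] [DF c b] [DF c d] :
    DF c (fun i z => Ap3 (F i) (a i z) (b i z) (d i z)) :=
  DF.comp (fun i (p : Y i × Z i × V i) => F i p.1 p.2.1 p.2.2) (fun i z => (a i z, b i z, d i z))

instance DP.ap3 (F : ∀ i, Y i → Z i → V i → Prop)
    [h : DP c (X := fun i => Y i × Z i × V i) (fun i p => F i p.1 p.2.1 p.2.2)]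
    (a : ∀ i, X i → Y i) (b : ∀ i, X i → Z i) (d : ∀ i, X i → V i) [DF c a] [DF c b] [DF c d] :
    DP c (fun i z => Ap3 (F i) (a i z) (b i z) (d i z)) :=
  DP.comp (fun i (p : Y i × Z i × V i) => F i p.1 p.2.1 p.2.2) (fun i z => (a i z, b i z, d i z))

instance DF.ite (P : ∀ i, X i → Prop) [∀ i x, Decidable (P i x)] [DP c P] (f g : ∀ i, X i → Y i)
    [DF c f] [DF c g] : DF c (fun i x => if P i x then f i x else g i x) :=
  DF.of_graph _ (fun i p => (Ap (P i) p.1 ∧ Ap (f i) p.1 = p.2) ∨ (¬ Ap (P i) p.1 ∧ Ap (g i) p.1 = p.2))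
    (fun i x y => by by_cases h : P i x <;> simp [Ap, h]) (by infer_instance)

theorem DC.ap (F : ∀ i, Y i → W i) [DF c F] (y : ∀ i, Y i) [DC c y] : DC c (fun i => F i (y i)) :=
  DC.of_DP _ (fun i z => z = Ap (F i) (y i)) (fun _ _ => Iff.rfl) (by infer_instance)

instance DC.pair (y : ∀ i, Y i) (z : ∀ i, Z i) [DC c y] [DC c z] :
    DC c (X := fun i => Y i × Z i) (fun i => (y i, z i)) :=
  DC.of_DP _ (fun i p => p.1 = y i ∧ p.2 = z i) (fun _ _ => Prod.ext_iff) (by infer_instance)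

end Marker

/-- The carrier as a sort. -/
@[reducible] def carrierSrt (c : Ctx L) : Srt c c.M where
  idx := Unit
  fin := inferInstance
  dom _ _ := True
  dec _ v := v ()
  surj _ x := ⟨fun _ => x, trivial, rfl⟩
  dom_ud := UD.tru
  ker_ud := (UD.eq (Sum.inl ()) (Sum.inr ())).congr fun i v => by simp

instance unitSrt : Srt c (fun _ => Unit) where
  idx := Empty
  fin := inferInstance
  dom _ _ := True
  dec _ _ := ()
  surj _ _ := ⟨Empty.elim, trivial, rfl⟩
  dom_ud := UD.tru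
  ker_ud := UD.tru.congr fun i v => by simp

section OfMap

variable {X Y : c.I → Type} [s : Srt c X]

/-- The sort given by a definable quotient of a definable subset. -/
@[reducible] def Srt.ofMap (P : ∀ i, X i → Prop) [hP : DP c P] (f : ∀ i, X i → Y i)
    (hs : ∀ i y, ∃ x, P i x ∧ f i x = y)
    (hk : DP c (X := fun i => X i × X i) (fun i p => P i p.1 ∧ P i p.2 ∧ f i p.1 = f i p.2)) :
    Srt c Y where
  idx := s.idx
  fin := s.fin
  dom i v := s.dom i v ∧ P i (s.dec i v)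
  dec i v := f i (s.dec i v)
  surj i y := by
    obtain ⟨x, hx, rfl⟩ := hs i y
    obtain ⟨v, hv, rfl⟩ := s.surj i x
    exact ⟨v, ⟨hv, hx⟩, rfl⟩
  dom_ud := hP.out
  ker_ud := hk.out.congr fun i v => by
    constructor
    · rintro ⟨⟨a, b⟩, d, e, g⟩
      exact ⟨⟨a, d⟩, ⟨b, e⟩, g⟩
    · rintro ⟨⟨a, d⟩, ⟨b, e⟩, g⟩
      exact ⟨⟨a, b⟩, d, e, g⟩

theorem Srt.ofMap_graph (P : ∀ i, X i → Prop) [hP : DP c P] (f : ∀ i, X i → Y i)
    (hs : ∀ i y, ∃ x, P i x ∧ f i x = y)
    (hk : DP c (X := fun i => X i × X i) (fun i p => P i p.1 ∧ P i p.2 ∧ f i p.1 = f i p.2)) :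
    @DP L c (fun i => X i × Y i) (prodSrt X Y (t := Srt.ofMap P f hs hk))
      (fun i p => P i p.1 ∧ f i p.1 = p.2) :=
  @DP.mk L c _ (prodSrt X Y (t := Srt.ofMap P f hs hk)) _ (hk.out.congr fun i v => by
    constructor
    · rintro ⟨⟨a, b⟩, d, e, g⟩
      exact ⟨⟨a, b, e⟩, d, g⟩
    · rintro ⟨⟨a, b, e⟩, d, g⟩
      exact ⟨⟨a, b⟩, d, e, g⟩)

theorem exists_srt (P : ∀ i, X i → Prop) [hP : DP c P] (f : ∀ i, X i → Y i)
    (hs : ∀ i y, ∃ x, P i x ∧ f i x = y)
    (hk : DP c (X := fun i => X i × X i) (fun i p => P i p.1 ∧ P i p.2 ∧ f i p.1 = f i p.2)) :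
    ∃ _ : Srt c Y, DP c (X := fun i => X i × Y i) (fun i p => P i p.1 ∧ f i p.1 = p.2) :=
  ⟨Srt.ofMap P f hs hk, Srt.ofMap_graph P f hs hk⟩

theorem exists_srt_quot (f : ∀ i, X i → Y i) (hs : ∀ i, Function.Surjective (f i))
    (hk : DP c (X := fun i => X i × X i) (fun i p => f i p.1 = f i p.2)) :
    ∃ _ : Srt c Y, DF c f := by
  obtain ⟨t, ht⟩ := exists_srt (fun _ _ => True) f (fun i y => by simpa using hs i y)
    (hk.congr (by simp))
  exact ⟨t, ⟨ht.congr (by simp)⟩⟩

end OfMap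

section Pi

variable {X Y : c.I → Type} [s : Srt c X] [Srt c Y] {ι : Type} [Finite ι]

instance piSrt : Srt c (fun i => ι → X i) where
  idx := ι × s.idx
  fin := inferInstance
  dom i v := ∀ a, s.dom i (v ∘ Prod.mk a)
  dec i v := fun a => s.dec i (v ∘ Prod.mk a)
  surj i x := by
    choose v hv hv' using fun a => s.surj i (x a)
    exact ⟨fun p => v p.1 p.2, hv, funext hv'⟩
  dom_ud := UD.all_fin fun a => s.dom_ud.comap _
  ker_ud := (UD.all_fin fun a => s.ker_ud.comap (Sum.map (Prod.mk a) (Prod.mk a))).congr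
    fun i v => by
      constructor
      · intro h
        exact ⟨fun a => (h a).1, fun a => (h a).2.1, funext fun a => (h a).2.2⟩
      · rintro ⟨h1, h2, h3⟩ a
        exact ⟨h1 a, h2 a, congrFun h3 a⟩

theorem DF.eval0 (a : ι) : DF c (X := fun i => ι → X i) (Y := X) (fun _ v => v a) :=
  ⟨⟨((s.ker_ud.comap (Sum.map (Prod.mk a) _root_.id)).and
    ((piSrt (X := X) (ι := ι)).dom_ud.comap Sum.inl)).congr fun i v => by
      constructor
      · rintro ⟨⟨-, b, e⟩, d⟩
        exact ⟨⟨d, b⟩, e⟩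
      · rintro ⟨⟨d, b⟩, e⟩
        exact ⟨⟨d a, b, e⟩, d⟩⟩⟩

/-- Evaluation of a tuple, as a marker for instance search. -/
def Ev {ι α : Type} (v : ι → α) (a : ι) : α := v a

instance DF.eval (a : ι) (f : ∀ i, Y i → ι → X i) [DF c (Y := fun i => ι → X i) f] :
    DF c (fun i y => Ev (f i y) a) :=
  DF.comp (fun _ (v : ι → X _) => v a) (hg := DF.eval0 a) f

theorem DF.pi (f : ∀ i, Y i → ι → X i) (h : ∀ a, DF c (fun i y => f i y a)) :
    DF c (Y := fun i => ι → X i) f :=
  DF.of_graph _ (fun i p => ∀ a, Ap (fun y => f i y a) p.1 = Ev p.2 a) (fun _ _ _ => funext_iff)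
    (by infer_instance)

end Pi

/-- Definable multiplication. -/
class MulD (c : Ctx L) (X : c.I → Type) [Srt c X] [∀ i, Mul (X i)] : Prop where
  out : DF c (X := fun i => X i × X i) (fun _ p => p.1 * p.2)

/-- Definable addition. -/
class AddD (c : Ctx L) (X : c.I → Type) [Srt c X] [∀ i, Add (X i)] : Prop where
  out : DF c (X := fun i => X i × X i) (fun _ p => p.1 + p.2)

section Alg

abbrev MulI (c : Ctx L) (Y : c.I → Type) [Srt c Y] [∀ i, Mul (Y i)] : Prop :=
  ∀ {X : c.I → Type} [Srt c X] (f g : ∀ i, X i → Y i) [DF c f] [DF c g],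
    DF c (fun i x => f i x * g i x)

abbrev InvI (c : Ctx L) (Y : c.I → Type) [Srt c Y] [∀ i, Inv (Y i)] : Prop :=
  ∀ {X : c.I → Type} [Srt c X] (f : ∀ i, X i → Y i) [DF c f], DF c (fun i x => (f i x)⁻¹)

abbrev AddI (c : Ctx L) (Y : c.I → Type) [Srt c Y] [∀ i, Add (Y i)] : Prop :=
  ∀ {X : c.I → Type} [Srt c X] (f g : ∀ i, X i → Y i) [DF c f] [DF c g],
    DF c (fun i x => f i x + g i x)

abbrev SubI (c : Ctx L) (Y : c.I → Type) [Srt c Y] [∀ i, Sub (Y i)] : Prop :=
  ∀ {X : c.I → Type} [Srt c X] (f g : ∀ i, X i → Y i) [DF c f] [DF c g],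
    DF c (fun i x => f i x - g i x)

abbrev NegI (c : Ctx L) (Y : c.I → Type) [Srt c Y] [∀ i, Neg (Y i)] : Prop :=
  ∀ {X : c.I → Type} [Srt c X] (f : ∀ i, X i → Y i) [DF c f], DF c (fun i x => -(f i x))

theorem mulI (c : Ctx L) (Y : c.I → Type) [Srt c Y] [∀ i, Mul (Y i)] [h : MulD c Y] : MulI c Y :=
  fun f g _ _ => DF.comp₂ (fun _ a b => a * b) h.out f g

theorem addI (c : Ctx L) (Y : c.I → Type) [Srt c Y] [∀ i, Add (Y i)] [h : AddD c Y] : AddI c Y :=
  fun f g _ _ => DF.comp₂ (fun _ a b => a + b) h.out f g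

theorem grpI (c : Ctx L) (Y : c.I → Type) [Srt c Y] [∀ i, Group (Y i)] [MulD c Y] :
    MulI c Y ∧ InvI c Y ∧ DC c (fun i => (1 : Y i)) := by
  have h1 : MulI c Y := mulI c Y
  have h2 : DC c (fun i => (1 : Y i)) :=
    DC.of_DP _ (fun _ z => z * z = z) (fun i z => by simp) (by infer_instance)
  exact ⟨h1, fun f _ => DF.of_graph _ (fun i p => Ap (f i) p.1 * p.2 = 1)
    (fun _ _ _ => inv_eq_iff_mul_eq_one) (by infer_instance), h2⟩

theorem agI (c : Ctx L) (Y : c.I → Type) [Srt c Y] [∀ i, AddGroup (Y i)] [AddD c Y] :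
    AddI c Y ∧ SubI c Y ∧ NegI c Y ∧ DC c (fun i => (0 : Y i)) := by
  have h1 : AddI c Y := addI c Y
  have h2 : DC c (fun i => (0 : Y i)) :=
    DC.of_DP _ (fun _ z => z + z = z) (fun i z => by simp) (by infer_instance)
  have h3 : NegI c Y := fun f _ => DF.of_graph _ (fun i p => Ap (f i) p.1 + p.2 = 0)
    (fun _ _ _ => neg_eq_iff_add_eq_zero) (by infer_instance)
  exact ⟨h1, fun f g _ _ => DF.congr (f := fun i x => f i x + -(g i x)) (by infer_instance)
    fun _ _ => (sub_eq_add_neg _ _).symm, h3, h2⟩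

variable {X Y : c.I → Type} [Srt c X] [Srt c Y]

theorem DC.mul [∀ i, Mul (Y i)] [MulD c Y] (a b : ∀ i, Y i) [DC c a] [DC c b] :
    DC c (fun i => a i * b i) := by
  have h1 : MulI c Y := mulI c Y
  exact DC.of_DP _ (fun i z => ∃ u v, u = a i ∧ v = b i ∧ z = u * v) (by simp) (by infer_instance)

theorem DC.inv [∀ i, Group (Y i)] [MulD c Y] (a : ∀ i, Y i) [DC c a] :
    DC c (fun i => (a i)⁻¹) := by
  obtain ⟨_, _, _⟩ := grpI c Y
  exact DC.of_DP _ (fun i z => ∃ u, u = a i ∧ z = u⁻¹) (by simp) (by infer_instance)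

theorem DF.npow_const [∀ i, Group (Y i)] [MulD c Y] (f : ∀ i, X i → Y i) [DF c f] (n : ℕ) :
    DF c (fun i x => f i x ^ n) := by
  obtain ⟨_, _, _⟩ := grpI c Y
  induction n with
  | zero => exact DF.congr (f := fun i (_ : X i) => (1 : Y i)) (by infer_instance) (by simp)
  | succ n ih =>
    exact DF.congr (f := fun i x => f i x ^ n * f i x) (by infer_instance) (by simp [pow_succ])

theorem DF.zpow_const [∀ i, Group (Y i)] [MulD c Y] (f : ∀ i, X i → Y i) [DF c f] (n : ℤ) :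
    DF c (fun i x => f i x ^ n) := by
  obtain ⟨_, _, _⟩ := grpI c Y
  rcases Int.eq_nat_or_neg n with ⟨m, rfl | rfl⟩
  · exact (DF.npow_const f m).congr (by simp)
  · have := DF.npow_const f m
    exact DF.congr (f := fun i x => (f i x ^ m)⁻¹) (by infer_instance) (by simp)

theorem DF.listProd [∀ i, Group (Y i)] [MulD c Y] {m : ℕ} (f : Fin m → ∀ i, X i → Y i)
    (h : ∀ j, DF c (f j)) : DF c (fun i x => (List.ofFn fun j => f j i x).prod) := by
  obtain ⟨_, _, _⟩ := grpI c Y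
  induction m with
  | zero => exact DF.congr (f := fun i (_ : X i) => (1 : Y i)) (by infer_instance) (by simp)
  | succ m ih =>
    have h1 := ih (fun j => f j.succ) fun j => h j.succ
    have h2 := h 0
    exact (mulI c Y (f 0) (fun i x => (List.ofFn fun j : Fin m => f j.succ i x).prod)).congr
      (by simp [List.ofFn_succ])

theorem DF.finSum [∀ i, AddCommGroup (Y i)] [AddD c Y] {ι : Type} (s : Finset ι)
    (f : ι → ∀ i, X i → Y i) (h : ∀ j, DF c (f j)) : DF c (fun i x => ∑ j ∈ s, f j i x) := by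
  classical
  obtain ⟨_, _, _, _⟩ := agI c Y
  induction s using Finset.induction_on with
  | empty => exact DF.congr (f := fun i (_ : X i) => (0 : Y i)) (by infer_instance) (by simp)
  | insert a s ha ih =>
    have h2 := h a
    exact (addI c Y (f a) (fun i x => ∑ j ∈ s, f j i x)).congr (by simp [Finset.sum_insert ha])

/-- All elements of a group generated by definable constants are definable. -/
theorem DC.of_closure {G : Type} [Group G] [Srt c (fun _ => G)] [MulD c (fun _ => G)]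
    {T : Set G} (hT : ∀ g ∈ T, DC c (fun _ => g)) {g : G} (hg : g ∈ Subgroup.closure T) :
    DC c (fun _ => g) := by
  induction hg using Subgroup.closure_induction with
  | mem y hy => exact hT y hy
  | one => exact (grpI c (fun _ => G)).2.2
  | mul a b _ _ ha hb => exact DC.mul (fun _ => a) (fun _ => b)
  | inv a _ ha => exact DC.inv (fun _ => a)

end Alg

section Arith

variable [Srt c (fun _ => ℕ)] [AddD c (fun _ => ℕ)] [MulD c (fun _ => ℕ)]
variable {X : c.I → Type} [Srt c X]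

instance DF.nadd (f g : ∀ i, X i → ℕ) [DF c f] [DF c g] : DF c (fun i x => f i x + g i x) :=
  addI c (fun _ => ℕ) f g

instance DF.nmul (f g : ∀ i, X i → ℕ) [DF c f] [DF c g] : DF c (fun i x => f i x * g i x) :=
  mulI c (fun _ => ℕ) f g

instance DC.nat (n : ℕ) : DC c (fun _ => n) := by
  induction n with
  | zero => exact DC.of_DP _ (fun _ z => z + z = z) (fun i z => by omega) (by infer_instance)
  | succ n ih =>
    refine DC.of_DP _ (fun _ z => ∃ u v : ℕ, u = n ∧ (v * v = v ∧ ¬ v + v = v) ∧ z = u + v)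
      (fun i z => ⟨fun h => ⟨n, 1, rfl, by simp, h⟩, ?_⟩) (by infer_instance)
    rintro ⟨u, v, rfl, ⟨h1, h2⟩, rfl⟩
    have h3 : v ≠ 0 := by omega
    have : v = 1 := by simpa [h3] using h1
    rw [this]

instance DP.le (f g : ∀ i, X i → ℕ) [DF c f] [DF c g] : DP c (fun i x => f i x ≤ g i x) :=
  DP.of_iff (fun i x => ∃ k : ℕ, Ap (f i) x + k = Ap (g i) x) (fun _ _ =>
    ⟨fun h => Nat.le.dest h, fun ⟨_, h⟩ => Nat.le.intro h⟩) (by infer_instance)

instance DP.lt (f g : ∀ i, X i → ℕ) [DF c f] [DF c g] : DP c (fun i x => f i x < g i x) :=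
  DP.of_iff (fun i x => f i x + 1 ≤ g i x) (fun _ _ => Iff.rfl) (by infer_instance)

instance DF.mod (f g : ∀ i, X i → ℕ) [DF c f] [DF c g] : DF c (fun i x => f i x % g i x) :=
  DF.of_graph _ (fun i p => (Ap (g i) p.1 = 0 ∧ p.2 = Ap (f i) p.1) ∨
    (p.2 < Ap (g i) p.1 ∧ ∃ q : ℕ, Ap (f i) p.1 = Ap (g i) p.1 * q + p.2)) (fun i x y => by
      simp only [Ap]
      constructor
      · rintro rfl
        rcases Nat.eq_zero_or_pos (g i x) with h | h
        · left; simp [h]
        · right; exact ⟨Nat.mod_lt _ h, _, (Nat.div_add_mod _ _).symm⟩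
      · rintro (⟨h, rfl⟩ | ⟨h, q, e⟩)
        · simp [h]
        · rw [e, Nat.mul_add_mod, Nat.mod_eq_of_lt h]) (by infer_instance)

instance DF.div (f g : ∀ i, X i → ℕ) [DF c f] [DF c g] : DF c (fun i x => f i x / g i x) :=
  DF.of_graph _ (fun i p => (Ap (g i) p.1 = 0 ∧ p.2 = 0) ∨
    (0 < Ap (g i) p.1 ∧ Ap (g i) p.1 * p.2 + Ap (f i) p.1 % Ap (g i) p.1 = Ap (f i) p.1))
    (fun i x y => by
      simp only [Ap]
      constructor
      · rintro rfl
        rcases Nat.eq_zero_or_pos (g i x) with h | h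
        · left; simp [h]
        · right; exact ⟨h, Nat.div_add_mod _ _⟩
      · rintro (⟨h, rfl⟩ | ⟨h, e⟩)
        · simp [h]
        · have := Nat.div_add_mod (f i x) (g i x)
          exact Nat.eq_of_mul_eq_mul_left h (by omega)) (by infer_instance)

instance DF.nsub (f g : ∀ i, X i → ℕ) [DF c f] [DF c g] : DF c (fun i x => f i x - g i x) :=
  DF.of_graph _ (fun i p => (Ap (f i) p.1 ≤ Ap (g i) p.1 ∧ p.2 = 0) ∨
    (Ap (g i) p.1 + p.2 = Ap (f i) p.1)) (fun i x y => by
      simp only [Ap]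
      omega) (by infer_instance)

instance DF.npair (f g : ∀ i, X i → ℕ) [DF c f] [DF c g] :
    DF c (fun i x => Nat.pair (f i x) (g i x)) :=
  DF.congr (f := fun i x => if f i x < g i x then g i x * g i x + f i x
    else f i x * f i x + f i x + g i x) (by infer_instance) fun _ _ => rfl

instance DF.unpair (f : ∀ i, X i → ℕ) [DF c f] :
    DF c (Y := fun _ => ℕ × ℕ) (fun i x => Nat.unpair (f i x)) :=
  DF.of_graph _ (fun i p => Nat.pair p.2.1 p.2.2 = Ap (f i) p.1) (fun i x y => by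
    simp only [Ap]
    constructor
    · rintro rfl; exact Nat.pair_unpair _
    · intro h; rw [← h, Nat.unpair_pair]) (by infer_instance)

end Arith

end Pool.Agent.H259Z.Rich
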