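import Pool.Agent.H259Z.Rich.Calc2

/-! Coded sorts, lists, recursion and generated subgroups. -/

set_option autoImplicit false
set_option linter.unusedSectionVars false
set_option synthInstance.maxSize 100000

namespace Pool.Agent.H259Z.Rich

open FirstOrder FirstOrder.Language

variable {L : FirstOrder.Language.{0, 0}} {c : Ctx L}

/-- A sort that is a definable image of the natural numbers. -/
class Coded (c : Ctx L) [Srt c (fun _ => ℕ)] (X : Type) [Srt c (fun _ => X)] : Prop where
  out : ∃ f : ℕ → X, Function.Surjective f ∧ DF c (X := fun _ => ℕ) (fun _ n => f n)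

variable [Srt c (fun _ => ℕ)] [AddD c (fun _ => ℕ)] [MulD c (fun _ => ℕ)]

section Coded

variable {X Y : Type} [Srt c (fun _ => X)] [Srt c (fun _ => Y)]

/-- The chosen decoding. -/
noncomputable def dcd (c : Ctx L) [Srt c (fun _ => ℕ)] (X : Type) [Srt c (fun _ => X)]
    [h : Coded c X] : ℕ → X := h.out.choose

theorem dcd_surj [h : Coded c X] : Function.Surjective (dcd c X) := h.out.choose_spec.1

instance DF.dcdI [h : Coded c X] {Z : c.I → Type} [Srt c Z] (f : ∀ i, Z i → ℕ) [DF c f] :
    DF c (fun i z => dcd c X (f i z)) :=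
  DF.comp (fun _ n => Rich.dcd c X n) (hg := h.out.choose_spec.2) f

instance (priority := 100) DC.coded [Coded c X] (x : X) : DC c (fun _ => x) := by
  obtain ⟨n, rfl⟩ := dcd_surj (c := c) x
  exact DC.of_DP _ (fun _ z => ∃ m : ℕ, m = n ∧ z = dcd c X m) (by simp) (by infer_instance)

instance Coded.nat : Coded c ℕ := ⟨id, Function.surjective_id, DF.id⟩

theorem Coded.of_surj [Coded c Y] (f : Y → X) (hf : Function.Surjective f)
    (h : DF c (X := fun _ => Y) (fun _ y => f y)) : Coded c X :=
  ⟨fun n => Ap f (dcd c Y n), hf.comp dcd_surj, by infer_instance⟩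

instance Coded.prod [Coded c X] [Coded c Y] : Coded c (X × Y) :=
  ⟨fun n => (dcd c X (Nat.unpair n).1, dcd c Y (Nat.unpair n).2), fun ⟨x, y⟩ => by
    obtain ⟨a, rfl⟩ := dcd_surj (c := c) x
    obtain ⟨b, rfl⟩ := dcd_surj (c := c) y
    exact ⟨Nat.pair a b, by simp⟩, by infer_instance⟩

theorem Coded.of_rel [Coded c Y] (R : Y → X → Prop)
    (h : DP c (X := fun _ => Y × X) (fun _ p => R p.1 p.2))
    (hf : ∀ y x x', R y x → R y x' → x = x') (hs : ∀ x, ∃ y, R y x) (x0 : X) : Coded c X := by
  classical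
  obtain ⟨y0, hy0⟩ := hs x0
  have h0 : DC c (fun _ => x0) := DC.of_DP _ (fun _ z => Ap2 R y0 z)
    (fun _ z => ⟨fun e => e ▸ hy0, fun e => hf _ _ _ e hy0⟩) (by infer_instance)
  refine Coded.of_surj (Y := Y) (fun y => if h : ∃ x, R y x then h.choose else x0) (fun x => ?_) ?_
  · obtain ⟨y, hy⟩ := hs x
    refine ⟨y, ?_⟩
    have : ∃ x, R y x := ⟨x, hy⟩
    simp only [dif_pos this]
    exact hf _ _ _ this.choose_spec hy
  · refine DF.of_graph _ (fun _ p => Ap2 R p.1 p.2 ∨ ((¬ ∃ x, Ap2 R p.1 x) ∧ p.2 = x0))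
      (fun _ y x => ?_) (by infer_instance)
    simp only [Ap2]
    split_ifs with h
    · constructor
      · rintro rfl; exact Or.inl h.choose_spec
      · rintro (e | ⟨e, -⟩)
        · exact hf _ _ _ h.choose_spec e
        · exact (e h).elim
    · constructor
      · rintro rfl; exact Or.inr ⟨h, rfl⟩
      · rintro (e | ⟨-, e⟩)
        · exact (h ⟨_, e⟩).elim
        · exact e.symm

theorem Coded.of_inj [Coded c Y] (f : X → Y) (hf : Function.Injective f)
    (h : DF c (X := fun _ => X) (fun _ x => f x)) (x0 : X) : Coded c X :=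
  Coded.of_rel (Y := Y) (fun y x => Ap f x = y) (by infer_instance)
    (fun _ _ _ a b => hf (a.trans b.symm)) (fun _ => ⟨_, rfl⟩) x0

end Coded

section Lists

variable {X : Type} [Srt c (fun _ => X)] [Coded c X]

/-- The list coded by a triple. -/
noncomputable def decL (c : Ctx L) [Srt c (fun _ => ℕ)] (X : Type) [Srt c (fun _ => X)] [Coded c X]
    (p : ℕ × ℕ × ℕ) : List X :=
  (List.range p.1).map fun j => dcd c X (p.2.1 % ((j + 1) * p.2.2 + 1))

theorem decL_surj (l : List X) : ∃ p, decL c X p = l := by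
  obtain ⟨l', rfl⟩ := (List.map_surjective_iff.2 (dcd_surj (c := c) (X := X))) l
  refine ⟨(l'.length, (Nat.unbeta l').unpair.1, (Nat.unbeta l').unpair.2), ?_⟩
  apply List.ext_getElem
  · simp [decL]
  · intro j h1 h2
    simp only [decL, List.getElem_map, List.getElem_range]
    have h3 : j < l'.length := by simpa using h2
    exact congrArg _ (Nat.beta_unbeta_coe l' ⟨j, h3⟩)

theorem decL_eq (p q : ℕ × ℕ × ℕ) : decL c X p = decL c X q ↔ p.1 = q.1 ∧ ∀ j, j < p.1 →
    dcd c X (p.2.1 % ((j + 1) * p.2.2 + 1)) = dcd c X (q.2.1 % ((j + 1) * q.2.2 + 1)) := by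
  constructor
  · intro h
    have h1 : p.1 = q.1 := by simpa [decL] using congrArg List.length h
    refine ⟨h1, fun j hj => ?_⟩
    unfold decL at h
    rw [← h1] at h
    exact List.map_inj_left.1 h j (List.mem_range.2 hj)
  · rintro ⟨h1, h2⟩
    unfold decL
    rw [← h1]
    exact List.map_inj_left.2 fun j hj => h2 j (List.mem_range.1 hj)

theorem decL_ker : DP c (X := fun _ => (ℕ × ℕ × ℕ) × (ℕ × ℕ × ℕ))
    (fun _ p => True ∧ True ∧ decL c X p.1 = decL c X p.2) :=
  DP.of_iff _ (fun _ p => by rw [decL_eq, true_and, true_and]) (by infer_instance)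

noncomputable instance listSrt : Srt c (fun _ => List X) :=
  Srt.ofMap (X := fun _ => ℕ × ℕ × ℕ) (fun _ _ => True) (fun _ => decL c X)
    (fun _ l => by simpa using decL_surj l) decL_ker

instance DF.decLI {Z : c.I → Type} [Srt c Z] (f : ∀ i, Z i → ℕ × ℕ × ℕ)
    [DF c (Y := fun _ => ℕ × ℕ × ℕ) f] : DF c (fun i z => decL c X (f i z)) :=
  DF.comp (fun _ p => Rich.decL c X p) (hg := ⟨(Srt.ofMap_graph (X := fun _ => ℕ × ℕ × ℕ)
    (fun _ _ => True) (fun _ => Rich.decL c X) (fun _ l => by simpa using decL_surj l)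
    decL_ker).congr (by simp)⟩) f

instance Coded.list : Coded c (List X) :=
  Coded.of_surj (Y := ℕ × ℕ × ℕ) (decL c X) decL_surj (by infer_instance)

variable {Z : c.I → Type} [Srt c Z]

instance DF.length (f : ∀ i, Z i → List X) [DF c f] : DF c (fun i z => (f i z).length) :=
  DF.of_graph _ (fun i q => ∃ p : ℕ × ℕ × ℕ, decL c X p = Ap (f i) q.1 ∧ p.1 = q.2)
    (fun i z n => by
      dsimp only [Ap]
      constructor
      · rintro rfl
        obtain ⟨p, hp⟩ := decL_surj (c := c) (f i z)
        exact ⟨p, hp, by rw [← hp]; simp [decL]⟩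
      · rintro ⟨p, hp, rfl⟩
        rw [← hp]; simp [decL]) (by infer_instance)

instance DF.getD (f : ∀ i, Z i → List X) (g : ∀ i, Z i → ℕ) (d : ∀ i, Z i → X) [DF c f] [DF c g]
    [DF c d] : DF c (fun i z => (f i z).getD (g i z) (d i z)) :=
  DF.of_graph _ (fun i q => ∃ p : ℕ × ℕ × ℕ, decL c X p = Ap (f i) q.1 ∧
      (if Ap (g i) q.1 < p.1 then dcd c X (p.2.1 % ((Ap (g i) q.1 + 1) * p.2.2 + 1))
        else Ap (d i) q.1) = q.2)
    (fun i z n => by
      have key : ∀ p : ℕ × ℕ × ℕ, (decL c X p).getD (g i z) (d i z) =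
          if g i z < p.1 then dcd c X (p.2.1 % ((g i z + 1) * p.2.2 + 1)) else d i z := by
        intro p
        split_ifs with h
        · simp [decL, List.getD_eq_getElem?_getD, h]
        · exact List.getD_eq_default _ _ (by simpa [decL] using h)
      dsimp only [Ap]
      constructor
      · rintro rfl
        obtain ⟨p, hp⟩ := decL_surj (c := c) (f i z)
        refine ⟨p, hp, ?_⟩
        have := (key p).symm
        rw [hp] at this
        exact this
      · rintro ⟨p, hp, e⟩
        rw [← hp, key]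
        exact e) (by infer_instance)

theorem list_eq_iff (l l' : List X) : l = l' ↔
    l.length = l'.length ∧ ∀ j d, j < l.length → l.getD j d = l'.getD j d := by
  constructor
  · rintro rfl; simp
  · rintro ⟨h1, h2⟩
    apply List.ext_getElem h1
    intro j a b
    have := h2 j l[j] a
    simpa [List.getD_eq_getElem?_getD, a, b] using this

instance DF.append (f g : ∀ i, Z i → List X) [DF c f] [DF c g] :
    DF c (fun i z => f i z ++ g i z) :=
  DF.of_graph _ (fun i q => (Ap (f i) q.1).length + (Ap (g i) q.1).length = q.2.length ∧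
      ∀ (j : ℕ) (d : X), j < q.2.length → (if j < (Ap (f i) q.1).length then (Ap (f i) q.1).getD j d
        else (Ap (g i) q.1).getD (j - (Ap (f i) q.1).length) d) = q.2.getD j d)
    (fun i z l => by
      dsimp only [Ap]
      rw [list_eq_iff, List.length_append]
      refine and_congr_right fun h => forall_congr' fun j => forall_congr' fun d => ?_
      rw [h]
      refine imp_congr_right fun _ => ?_
      by_cases h' : j < (f i z).length
      · rw [List.getD_append _ _ _ _ h']
        exact Eq.congr_left (if_pos h').symm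
      · rw [List.getD_append_right _ _ _ _ (by omega)]
        exact Eq.congr_left (if_neg h').symm) (by infer_instance)

theorem exists_list (s : ℕ → X) (n : ℕ) : ∃ l : List X, ∀ j d, j ≤ n → l.getD j d = s j :=
  ⟨(List.range (n + 1)).map s, fun j d h => by
    simp [List.getD_eq_getElem?_getD, Nat.lt_succ_of_le h]⟩

/-- Course of values recursion through a definable shift. -/
theorem DF.recur (F : ∀ i, Z i → ℕ → X → X) (b : ∀ i, Z i → X) (σ : ℕ → ℕ) (hσ : ∀ n, σ n ≤ n)
    (g : ∀ i, Z i → ℕ → X) (h0 : ∀ i z, g i z 0 = b i z)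
    (h1 : ∀ i z n, g i z (n + 1) = F i z n (g i z (σ n)))
    (hF : DF c (X := fun i => Z i × ℕ × X) (fun i p => F i p.1 p.2.1 p.2.2)) (hb : DF c b)
    (hs : DF c (X := fun _ => ℕ) (fun _ n => σ n)) :
    DF c (X := fun i => Z i × ℕ) (fun i p => g i p.1 p.2) :=
  DF.of_graph _ (fun i q => ∃ l : List X, l.getD 0 q.2 = Ap (b i) q.1.1 ∧ l.getD q.1.2 q.2 = q.2 ∧
      ∀ j : ℕ, j < q.1.2 → l.getD (j + 1) q.2 = Ap3 (F i) q.1.1 j (l.getD (Ap σ j) q.2))
    (fun i ⟨z, n⟩ y => by
      simp only [Ap, Ap3]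
      constructor
      · rintro rfl
        obtain ⟨l, hl⟩ := exists_list (g i z) n
        refine ⟨l, by rw [hl _ _ (Nat.zero_le _), h0], hl _ _ le_rfl, fun j hj => ?_⟩
        rw [hl _ _ hj, hl _ _ ((hσ j).trans hj.le), h1]
      · rintro ⟨l, a0, a1, a2⟩
        have : ∀ j, j ≤ n → l.getD j y = g i z j := by
          intro j
          induction j using Nat.strong_induction_on with
          | _ j ih =>
            intro hj
            rcases j with _ | j
            · rw [a0, h0]
            · rw [a2 j hj, h1, ih (σ j) (Nat.lt_succ_of_le (hσ j)) ((hσ j).trans (by omega))]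
        rw [← this n le_rfl, a1]) (by infer_instance)

theorem rtg_iff (r : X → X → Prop) (a b : X) : Relation.ReflTransGen r a b ↔
    ∃ (n : ℕ) (l : List X), l.getD 0 a = a ∧ l.getD n a = b ∧
      ∀ j, j < n → r (l.getD j a) (l.getD (j + 1) a) := by
  constructor
  · intro h
    have : ∃ (n : ℕ) (s : ℕ → X), s 0 = a ∧ s n = b ∧ ∀ j, j < n → r (s j) (s (j + 1)) := by
      induction h with
      | refl => exact ⟨0, fun _ => a, rfl, rfl, by simp⟩
      | @tail b d _ hbd ih =>
        obtain ⟨n, s, h0, hn, hs⟩ := ih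
        refine ⟨n + 1, fun j => if j ≤ n then s j else d, by simpa using h0, by simp, fun j hj => ?_⟩
        rcases Nat.lt_succ_iff_lt_or_eq.1 hj with h | rfl
        · simp only [h.le, Nat.succ_le_of_lt h, if_true]
          exact hs j h
        · simpa [hn] using hbd
    obtain ⟨n, s, h0, hn, hs⟩ := this
    obtain ⟨l, hl⟩ := exists_list s n
    refine ⟨n, l, by rw [hl _ _ (Nat.zero_le _), h0], by rw [hl _ _ le_rfl, hn], fun j hj => ?_⟩
    rw [hl _ _ hj.le, hl _ _ hj]
    exact hs j hj
  · rintro ⟨n, l, h0, rfl, hs⟩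
    induction n with
    | zero => rw [h0]
    | succ n ih => exact (ih fun j hj => hs j (by omega)).tail (hs n (by omega))

/-- Reflexive transitive closures of definable relations are definable. -/
theorem DP.rtg (r : ∀ i, Z i → X → X → Prop)
    (h : DP c (X := fun i => Z i × X × X) (fun i p => r i p.1 p.2.1 p.2.2)) :
    DP c (X := fun i => Z i × X × X)
      (fun i p => Relation.ReflTransGen (r i p.1) p.2.1 p.2.2) :=
  DP.of_iff (fun i p => ∃ (n : ℕ) (l : List X), l.getD 0 p.2.1 = p.2.1 ∧ l.getD n p.2.1 = p.2.2 ∧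
      ∀ j, j < n → Ap3 (r i) p.1 (l.getD j p.2.1) (l.getD (j + 1) p.2.1))
    (fun _ _ => rtg_iff _ _ _) (by infer_instance)

end Lists

section Grp

variable {G : Type} [Group G] [Srt c (fun _ => G)] [Coded c G] [MulD c (fun _ => G)]
variable {Z : c.I → Type} [Srt c Z]

theorem mem_closure_iff_rtg (T : Set G) (g : G) : g ∈ Subgroup.closure T ↔
    Relation.ReflTransGen (fun a b => ∃ t, t ∈ T ∧ (b = a * t ∨ b = a * t⁻¹)) 1 g := by
  constructor
  · intro hg
    induction hg using Subgroup.closure_induction_right with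
    | one => exact Relation.ReflTransGen.refl
    | mul_right x _ y hy ih => exact ih.tail ⟨y, hy, Or.inl rfl⟩
    | mul_inv_cancel x _ y hy ih => exact ih.tail ⟨y, hy, Or.inr rfl⟩
  · intro h
    induction h with
    | refl => exact one_mem _
    | tail _ h ih =>
      obtain ⟨t, ht, rfl | rfl⟩ := h
      · exact mul_mem ih (Subgroup.subset_closure ht)
      · exact mul_mem ih (inv_mem (Subgroup.subset_closure ht))

/-- Subgroups generated by definable sets are definable. -/
theorem DP.closure (T : ∀ i, Z i → G → Prop)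
    (h : DP c (X := fun i => Z i × G) (fun i p => T i p.1 p.2)) :
    DP c (X := fun i => Z i × G) (fun i p => p.2 ∈ Subgroup.closure {t | T i p.1 t}) := by
  obtain ⟨_, _, _⟩ := grpI c (fun _ => G)
  have := DP.rtg (c := c) (fun i (z : Z i) (a b : G) => ∃ t, Ap2 (T i) z t ∧ (b = a * t ∨ b = a * t⁻¹))
    (by infer_instance)
  exact DP.of_iff (fun i p => Ap3 (fun z => Relation.ReflTransGen
    (fun (a b : G) => ∃ t, Ap2 (T i) z t ∧ (b = a * t ∨ b = a * t⁻¹))) p.1 1 p.2)
    (fun i p => mem_closure_iff_rtg _ _) (by infer_instance)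

theorem DF.pow0 : DF c (X := fun _ => G × ℕ) (fun _ p => p.1 ^ p.2) := by
  obtain ⟨_, _, _⟩ := grpI c (fun _ => G)
  exact DF.recur (Z := fun _ => G) (fun _ g _ y => y * g) (fun _ _ => 1) (fun n => n) (fun _ => le_rfl)
    (fun _ g n => g ^ n) (fun _ _ => pow_zero _) (fun _ _ _ => pow_succ _ _)
    (by infer_instance) (by infer_instance) DF.id

end Grp

abbrev PowI (c : Ctx L) [Srt c (fun _ => ℕ)] (G : Type) [Srt c (fun _ => G)] [Monoid G] : Prop :=
  ∀ {X : c.I → Type} [Srt c X] (f : ∀ i, X i → G) (g : ∀ i, X i → ℕ) [DF c f] [DF c g],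
    DF c (fun i x => f i x ^ g i x)

theorem powI (c : Ctx L) [Srt c (fun _ => ℕ)] [AddD c (fun _ => ℕ)] [MulD c (fun _ => ℕ)]
    (G : Type) [Group G] [Srt c (fun _ => G)] [Coded c G] [MulD c (fun _ => G)] : PowI c G :=
  fun f g _ _ => DF.comp₂ (fun _ (a : G) (b : ℕ) => a ^ b) DF.pow0 f g

instance DF.npow {X : c.I → Type} [Srt c X] (f g : ∀ i, X i → ℕ) [DF c f] [DF c g] :
    DF c (fun i x => f i x ^ g i x) :=
  DF.comp₂ (fun _ (a b : ℕ) => a ^ b)
    (DF.recur (Z := fun _ => ℕ) (fun _ g _ y => y * g) (fun _ _ => 1) (fun n => n) (fun _ => le_rfl)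
      (fun _ g n => g ^ n) (fun _ _ => pow_zero _) (fun _ _ _ => pow_succ _ _)
      (by infer_instance) (by infer_instance) DF.id) f g

end Pool.Agent.H259Z.Rich
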