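import Mathlib
import Pool.Agent.Helper777.Prof.P_dq_embed
import Pool.Agent.Helper777.Prof.P_mag_m

/-! Magnus structures: a group `G` over a quotient `Q` with a faithful Fox derivative. -/

set_option autoImplicit false
set_option linter.unusedSectionVars false

namespace Pool.Agent.H259Z.Rich

abbrev ZG (Q : Type) : Type := MonoidAlgebra ℤ Q

noncomputable def oo {Q : Type} [Group Q] : Q →* ZG Q := MonoidAlgebra.of ℤ Q

theorem oo_apply {Q : Type} [Group Q] (q : Q) : oo q = MonoidAlgebra.single q 1 := rfl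

/-- Additive extension of a function on `Q` to the group ring. -/
noncomputable def E {Q B : Type} [AddCommGroup B] (χ : Q → B) : ZG Q →+ B :=
  (Finsupp.liftAddHom (fun m => (zmultiplesHom B) (χ m))).comp
    (MonoidAlgebra.coeffAddEquiv : MonoidAlgebra ℤ Q ≃+ (Q →₀ ℤ)).toAddMonoidHom

section Func

variable {Q B : Type} [Group Q] [AddCommGroup B]

theorem E_single (χ : Q → B) (m : Q) (n : ℤ) : E χ (MonoidAlgebra.single m n) = n • χ m := by
  show Finsupp.liftAddHom (fun m => (zmultiplesHom B) (χ m)) (Finsupp.single m n) = n • χ m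
  rw [Finsupp.liftAddHom_apply_single, zmultiplesHom_apply]

theorem E_oo (χ : Q → B) (m : Q) : E χ (oo m) = χ m := by
  rw [oo_apply, E_single, one_smul]

theorem E_one (χ : Q → B) : E χ (1 : ZG Q) = χ 1 := by
  rw [← map_one (oo (Q := Q)), E_oo]

theorem E_apply (χ : Q → B) (f : ZG Q) : E χ f = ∑ q ∈ f.coeff.support, f.coeff q • χ q := by
  show Finsupp.liftAddHom (fun m => (zmultiplesHom B) (χ m)) f.coeff = _
  rw [Finsupp.liftAddHom_apply]
  rfl

theorem E_oo_mul (χ : Q → B) (m : Q) (f : ZG Q) : E χ (oo m * f) = E (fun x => χ (m * x)) f := by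
  induction f using MonoidAlgebra.induction_linear with
  | zero => simp
  | add f g hf hg => rw [mul_add, map_add, map_add, hf, hg]
  | single x n =>
    rw [oo_apply, MonoidAlgebra.single_mul_single, E_single, E_single, one_mul]

theorem E_mul_oo (χ : Q → B) (m : Q) (f : ZG Q) : E χ (f * oo m) = E (fun x => χ (x * m)) f := by
  induction f using MonoidAlgebra.induction_linear with
  | zero => simp
  | add f g hf hg => rw [add_mul, map_add, map_add, hf, hg]
  | single x n =>
    rw [oo_apply, MonoidAlgebra.single_mul_single, E_single, E_single, mul_one]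

theorem E_congr {χ ψ : Q → B} {f : ZG Q} (h : ∀ q ∈ f.coeff.support, χ q = ψ q) :
    E χ f = E ψ f := by
  rw [E_apply, E_apply]
  exact Finset.sum_congr rfl fun q hq => by rw [h q hq]

theorem E_zero_of {χ : Q → B} {f : ZG Q} (h : ∀ q ∈ f.coeff.support, χ q = 0) : E χ f = 0 := by
  rw [E_apply]
  exact Finset.sum_eq_zero fun q hq => by rw [h q hq, smul_zero]

theorem E_sub_fun (χ ψ : Q → B) (f : ZG Q) : E (fun q => χ q - ψ q) f = E χ f - E ψ f := by
  simp only [E_apply, smul_sub, Finset.sum_sub_distrib]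

theorem E_add_fun (χ ψ : Q → B) (f : ZG Q) : E (fun q => χ q + ψ q) f = E χ f + E ψ f := by
  simp only [E_apply, smul_add, Finset.sum_add_distrib]

/-- If `χ` is one at `s` and zero on the rest of the support, it reads off the coefficient. -/
theorem E_coeff {χ : Q → B} {f : ZG Q} (s : Q) (h : ∀ q ∈ f.coeff.support, q ≠ s → χ q = 0) :
    E χ f = f.coeff s • χ s := by
  rw [E_apply]
  refine Finset.sum_eq_single s (fun q hq hs => by rw [h q hq hs, smul_zero]) fun hs => ?_
  rw [Finsupp.notMem_support_iff.1 hs, zero_smul]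

/-- Left invariant functionals kill `(h - 1) * f`. -/
theorem E_left {χ : Q → B} {h : Q} (hχ : ∀ q, χ (h * q) = χ q) (f : ZG Q) :
    E χ ((oo h - 1) * f) = 0 := by
  rw [sub_mul, map_sub, E_oo_mul, one_mul]
  simp only [hχ, sub_self]

/-- Right invariant functionals kill `f * (h - 1)`. -/
theorem E_right {χ : Q → B} {h : Q} (hχ : ∀ q, χ (q * h) = χ q) (f : ZG Q) :
    E χ (f * (oo h - 1)) = 0 := by
  rw [mul_sub, map_sub, E_mul_oo, mul_one]
  simp only [hχ, sub_self]

theorem oo_inj {a b : Q} (h : oo a = oo b) : a = b := MonoidAlgebra.of_injective h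

theorem oo_sub_one_ne {a : Q} (h : a ≠ 1) : oo a - 1 ≠ 0 := by
  intro e
  exact h (oo_inj (by rw [sub_eq_zero.1 e, map_one]))

theorem oo_inv_mul (a : Q) : oo a⁻¹ * oo a = 1 := by rw [← map_mul, inv_mul_cancel, map_one]

theorem oo_mul_inv (a : Q) : oo a * oo a⁻¹ = 1 := by rw [← map_mul, mul_inv_cancel, map_one]

/-- The augmentation is multiplicative. -/
theorem aug_mul (f g : ZG Q) :
    E (fun _ => (1 : ℤ)) (f * g) = E (fun _ => (1 : ℤ)) f * E (fun _ => (1 : ℤ)) g := by
  induction f using MonoidAlgebra.induction_linear with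
  | zero => simp
  | add f f' hf hf' => rw [add_mul, map_add, map_add, hf, hf', add_mul]
  | single x n =>
    have : (MonoidAlgebra.single x n : ZG Q) = n • oo x := by simp [oo_apply]
    rw [this, smul_mul_assoc, map_zsmul, map_zsmul, E_oo_mul, E_oo]
    simp

/-- The `ℓ¹` norm. -/
noncomputable def nrm (f : ZG Q) : ℤ := ∑ q ∈ f.coeff.support, |f.coeff q|

theorem abs_E_le (χ : Q → ℤ) (hχ : ∀ q, |χ q| ≤ 1) (f : ZG Q) : |E χ f| ≤ nrm f := by
  rw [E_apply]
  refine (Finset.abs_sum_le_sum_abs _ _).trans (Finset.sum_le_sum fun q _ => ?_)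
  rw [smul_eq_mul, abs_mul]
  exact mul_le_of_le_one_right (abs_nonneg _) (hχ q)

theorem E_sign (f : ZG Q) : E (fun q => Int.sign (f.coeff q)) f = nrm f := by
  rw [E_apply]
  exact Finset.sum_congr rfl fun q _ => by rw [smul_eq_mul, Int.mul_sign_self]; simp

theorem nrm_pos {f : ZG Q} (hf : f ≠ 0) : 1 ≤ nrm f := by
  obtain ⟨q, hq⟩ := Finsupp.support_nonempty_iff.2 (mt MonoidAlgebra.coeff_eq_zero.1 hf)
  have h1 : 1 ≤ |f.coeff q| := Int.one_le_abs (Finsupp.mem_support_iff.1 hq)
  exact h1.trans (Finset.single_le_sum (f := fun q => |f.coeff q|) (fun _ _ => abs_nonneg _) hq)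

theorem abs_sign_le (n : ℤ) : |Int.sign n| ≤ 1 := by
  rcases lt_trichotomy n 0 with h | h | h
  · rw [Int.sign_eq_neg_one_of_neg h]; simp
  · simp [h]
  · rw [Int.sign_eq_one_of_pos h]; simp

theorem left_mul_bound (g : Q) (m : ℕ) (u : ZG Q) (hu : (oo g - m) * u ≠ 0) :
    (m : ℤ) ≤ nrm ((oo g - (m : ZG Q)) * u) + 1 := by
  have hu0 : u ≠ 0 := by rintro rfl; simp at hu
  have h1 := nrm_pos hu0
  have h2 := abs_E_le _ (fun q => abs_sign_le (u.coeff q)) ((oo g - m) * u)
  have h3 := abs_E_le (fun q => Int.sign (u.coeff (g * q))) (fun q => abs_sign_le _) u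
  have e : E (fun q => Int.sign (u.coeff q)) ((oo g - m) * u) =
      E (fun q => Int.sign (u.coeff (g * q))) u - m * nrm u := by
    rw [sub_mul, map_sub, E_oo_mul, ← nsmul_eq_mul, map_nsmul, E_sign, nsmul_eq_mul]
  rw [e] at h2
  have h4 := (abs_le.1 h2).1
  have h5 := (abs_le.1 h3).2
  by_contra hc
  push Not at hc
  have h6 := nrm_pos hu
  nlinarith

theorem right_mul_bound (g : Q) (m : ℕ) (u : ZG Q) (hu : u * (oo g - m) ≠ 0) :
    (m : ℤ) ≤ nrm (u * (oo g - (m : ZG Q))) + 1 := by
  have hu0 : u ≠ 0 := by rintro rfl; simp at hu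
  have h1 := nrm_pos hu0
  have h2 := abs_E_le _ (fun q => abs_sign_le (u.coeff q)) (u * (oo g - m))
  have h3 := abs_E_le (fun q => Int.sign (u.coeff (q * g))) (fun q => abs_sign_le _) u
  have e : E (fun q => Int.sign (u.coeff q)) (u * (oo g - m)) =
      E (fun q => Int.sign (u.coeff (q * g))) u - m * nrm u := by
    rw [mul_sub, map_sub, E_mul_oo, ← (Nat.cast_commute m u).eq, ← nsmul_eq_mul, map_nsmul,
      E_sign, nsmul_eq_mul]
  rw [e] at h2
  have h4 := (abs_le.1 h2).1
  have h5 := (abs_le.1 h3).2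
  by_contra hc
  push Not at hc
  have h6 := nrm_pos hu
  nlinarith

end Func

/-- A Magnus structure. -/
structure MS (r : ℕ) (G Q : Type) [Group G] [Group Q] where
  pr : G →* Q
  surj : Function.Surjective pr
  x : Fin r → G
  gen : Subgroup.closure (Set.range x) = ⊤
  der : G → Fin r → ZG Q
  der_mul : ∀ a b, der (a * b) = der a + oo (pr a) • der b
  der_x : ∀ i, der (x i) = Pi.single i 1
  inj0 : ∀ g, der g = 0 → pr g = 1 → g = 1

/-- No nontrivial elements of finite order. -/
def TF (Q : Type) [Group Q] : Prop := ∀ (q : Q) (n : ℕ), n ≠ 0 → q ^ n = 1 → q = 1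

theorem TF.zpow {Q : Type} [Group Q] (h : TF Q) {q : Q} (hq : q ≠ 1) {n : ℤ} (e : q ^ n = 1) :
    n = 0 := by
  by_contra hn
  apply hq
  apply h q n.natAbs (Int.natAbs_ne_zero.2 hn)
  rcases Int.natAbs_eq n with h' | h'
  · rw [← zpow_natCast, ← h', e]
  · rw [← zpow_natCast, ← inv_eq_one, ← zpow_neg, ← h', e]

theorem TF.zpow_inj {Q : Type} [Group Q] (h : TF Q) {q : Q} (hq : q ≠ 1) {n m : ℤ}
    (e : q ^ n = q ^ m) : n = m := by
  have : q ^ (n - m) = 1 := by rw [zpow_sub, e, mul_inv_cancel]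
  have := h.zpow hq this
  omega

namespace MS

variable {r : ℕ} {G Q : Type} [Group G] [Group Q] (S : MS r G Q)

theorem der_one : S.der 1 = 0 := by
  have := S.der_mul 1 1
  rw [mul_one, map_one, map_one, one_smul] at this
  exact left_eq_add.1 this

theorem der_inv (a : G) : S.der a⁻¹ = -(oo (S.pr a)⁻¹ • S.der a) := by
  have := S.der_mul a⁻¹ a
  rw [inv_mul_cancel, der_one, map_inv] at this
  exact eq_neg_of_add_eq_zero_left this.symm

/-- The boundary map. -/
noncomputable def eps : (Fin r → ZG Q) →ₗ[ZG Q] ZG Q :=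
  Fintype.linearCombination (ZG Q) (fun i => oo (S.pr (S.x i)) - 1)

theorem eps_apply (v : Fin r → ZG Q) : S.eps v = ∑ i, v i * (oo (S.pr (S.x i)) - 1) := by
  simp [eps, Fintype.linearCombination_apply]

theorem induction {P : G → Prop} (h1 : P 1) (hx : ∀ i, P (S.x i))
    (hm : ∀ a b, P a → P b → P (a * b)) (hi : ∀ a, P a → P a⁻¹) (g : G) : P g := by
  have hg : g ∈ Subgroup.closure (Set.range S.x) := by rw [S.gen]; trivial
  induction hg using Subgroup.closure_induction with
  | mem y hy => obtain ⟨i, rfl⟩ := hy; exact hx i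
  | one => exact h1
  | mul a b _ _ ha hb => exact hm a b ha hb
  | inv a _ ha => exact hi a ha

theorem eps_der (g : G) : S.eps (S.der g) = oo (S.pr g) - 1 := by
  induction g using S.induction with
  | h1 => simp [S.der_one]
  | hx i => rw [S.der_x, eps, Fintype.linearCombination_apply_single, one_smul]
  | hm a b ha hb =>
    rw [S.der_mul, map_add, map_smul, ha, hb, map_mul, map_mul, smul_eq_mul]
    noncomm_ring
  | hi a ha =>
    rw [S.der_inv, map_neg, map_smul, ha, map_inv S.pr, smul_eq_mul, mul_sub, oo_inv_mul]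
    noncomm_ring

theorem inj (g : G) (h : S.der g = 0) : g = 1 := by
  have := S.eps_der g
  rw [h, map_zero] at this
  exact S.inj0 g h (oo_inj (by rw [map_one]; exact sub_eq_zero.1 this.symm))

theorem der_inj {a b : G} (h : S.der a = S.der b) : a = b := by
  have h1 : S.pr a = S.pr b := by
    have := S.eps_der a
    rw [h, S.eps_der] at this
    exact (oo_inj (sub_left_injective this)).symm
  have : S.der (a⁻¹ * b) = 0 := by
    rw [S.der_mul, S.der_inv, h, map_inv S.pr, neg_add_cancel]
  exact inv_mul_eq_one.1 (S.inj _ this)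

theorem der_mul_ker {a : G} (ha : S.pr a = 1) (b : G) : S.der (a * b) = S.der a + S.der b := by
  rw [S.der_mul, ha, map_one, one_smul]

theorem der_inv_ker {a : G} (ha : S.pr a = 1) : S.der a⁻¹ = -S.der a := by
  rw [S.der_inv, ha, inv_one, map_one, one_smul]

theorem der_conj (g : G) {a : G} (ha : S.pr a = 1) :
    S.der (g * a * g⁻¹) = oo (S.pr g) • S.der a := by
  rw [S.der_mul, S.der_mul, S.der_inv, map_mul, ha, mul_one, smul_neg, smul_smul, oo_mul_inv,
    one_smul]
  abel

theorem ker_comm {a b : G} (ha : S.pr a = 1) (hb : S.pr b = 1) : a * b = b * a :=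
  S.der_inj (by rw [S.der_mul_ker ha, S.der_mul_ker hb, add_comm])

theorem der_pow_ker {a : G} (ha : S.pr a = 1) (n : ℕ) : S.der (a ^ n) = n • S.der a := by
  induction n with
  | zero => simp [S.der_one]
  | succ n ih => rw [pow_succ', S.der_mul_ker ha, ih, succ_nsmul']

theorem der_zpow_ker {a : G} (ha : S.pr a = 1) (n : ℤ) : S.der (a ^ n) = n • S.der a := by
  rcases Int.eq_nat_or_neg n with ⟨m, rfl | rfl⟩
  · rw [zpow_natCast, S.der_pow_ker ha, natCast_zsmul]
  · rw [zpow_neg, zpow_natCast, S.der_inv_ker (by rw [map_pow, ha, one_pow]), S.der_pow_ker ha,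
      neg_smul, natCast_zsmul]

include S in
theorem tf (h : TF Q) : TF G := by
  intro g n hn e
  have h1 : S.pr g = 1 := h _ n hn (by rw [← map_pow, e, map_one])
  have h2 := S.der_pow_ker h1 n
  rw [e, S.der_one] at h2
  apply S.inj
  funext i
  have h3 : n • S.der g i = 0 := (congrFun h2 i).symm
  apply MonoidAlgebra.coeff_eq_zero.1
  ext q
  have h4 : n • (S.der g i).coeff q = 0 := by
    have := congrArg (fun f : ZG Q => f.coeff q) h3
    exact this
  simpa [hn] using h4

include S in
theorem up [UniqueProds Q] : UniqueProds G := by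
  classical
  have U : UniqueSums (Fin r → ZG Q) := by
    have : UniqueSums (ZG Q) :=
      UniqueSums.of_injective_addHom
        (MonoidAlgebra.coeffAddEquiv : ZG Q ≃+ (Q →₀ ℤ)).toAddHom
        (MonoidAlgebra.coeffAddEquiv : ZG Q ≃+ (Q →₀ ℤ)).injective inferInstance
    infer_instance
  refine ⟨fun {A B} hA hB => ?_⟩
  obtain ⟨a0, ha0, b0, hb0, hu⟩ := UniqueProds.uniqueMul_of_nonempty (hA.image S.pr) (hB.image S.pr)
  have hA' : ((A.filter (fun a => S.pr a = a0)).image S.der).Nonempty := by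
    obtain ⟨a, ha, e⟩ := Finset.mem_image.1 ha0
    exact ⟨_, Finset.mem_image_of_mem _ (Finset.mem_filter.2 ⟨ha, e⟩)⟩
  have hB' : ((B.filter (fun b => S.pr b = b0)).image (fun b => oo a0 • S.der b)).Nonempty := by
    obtain ⟨b, hb, e⟩ := Finset.mem_image.1 hb0
    exact ⟨_, Finset.mem_image_of_mem _ (Finset.mem_filter.2 ⟨hb, e⟩)⟩
  obtain ⟨u, hu1, v, hv1, huv⟩ := UniqueSums.uniqueAdd_of_nonempty hA' hB'
  obtain ⟨a, ha, rfl⟩ := Finset.mem_image.1 hu1
  obtain ⟨b, hb, rfl⟩ := Finset.mem_image.1 hv1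
  obtain ⟨ha, ea⟩ := Finset.mem_filter.1 ha
  obtain ⟨hb, eb⟩ := Finset.mem_filter.1 hb
  refine ⟨a, ha, b, hb, fun a' b' ha' hb' e => ?_⟩
  obtain ⟨e1, e2⟩ := hu (Finset.mem_image_of_mem _ ha') (Finset.mem_image_of_mem _ hb')
    (by rw [← map_mul, e, map_mul, ea, eb])
  obtain ⟨e3, -⟩ := huv (Finset.mem_image_of_mem _ (Finset.mem_filter.2 ⟨ha', e1⟩))
    (Finset.mem_image_of_mem (fun b => oo a0 • S.der b) (Finset.mem_filter.2 ⟨hb', e2⟩))
    (by rw [← e1, ← S.der_mul, e, S.der_mul, ea, e1])
  have e4 := S.der_inj e3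
  subst e4
  exact ⟨rfl, mul_left_cancel e⟩

theorem smul_eq_zero' [UniqueProds Q] {ρ : ZG Q} {v : Fin r → ZG Q} (h : ρ • v = 0) :
    ρ = 0 ∨ v = 0 := by
  by_cases hρ : ρ = 0
  · exact Or.inl hρ
  · right
    funext i
    exact (mul_eq_zero.1 (congrFun h i)).resolve_left hρ

/-- An element of the kernel commuting with an element outside it is trivial. -/
theorem ker_fix [UniqueProds Q] {g a : G} (hg : S.pr g ≠ 1) (ha : S.pr a = 1)
    (h : g * a = a * g) : a = 1 := by
  have h1 := S.der_conj g ha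
  rw [h, mul_inv_cancel_right] at h1
  have h2 : (oo (S.pr g) - 1) • S.der a = 0 := by rw [sub_smul, ← h1, one_smul, sub_self]
  exact S.inj _ ((smul_eq_zero' h2).resolve_left (oo_sub_one_ne hg))

/-- The exponent sum in the `i`-th generator. -/
noncomputable def dg (i : Fin r) (g : G) : ℤ := E (fun _ => (1 : ℤ)) (S.der g i)

theorem dg_mul (i : Fin r) (a b : G) : S.dg i (a * b) = S.dg i a + S.dg i b := by
  unfold dg
  rw [S.der_mul, Pi.add_apply, Pi.smul_apply, smul_eq_mul, map_add, E_oo_mul]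

/-- The exponent sum as a homomorphism. -/
noncomputable def dgh (i : Fin r) : G →* Multiplicative ℤ :=
  MonoidHom.mk' (fun g => Multiplicative.ofAdd (S.dg i g)) fun a b => by
    rw [S.dg_mul, ofAdd_add]

theorem dg_x (i j : Fin r) : S.dg i (S.x j) = if i = j then 1 else 0 := by
  unfold dg
  rw [S.der_x, Pi.single_apply]
  split_ifs
  · rw [E_one]
  · rw [map_zero]

theorem dg_one (i : Fin r) : S.dg i 1 = 0 := by unfold dg; simp [S.der_one]

theorem dg_zpow (i : Fin r) (a : G) (n : ℤ) : S.dg i (a ^ n) = n * S.dg i a := by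
  have := map_zpow (S.dgh i) a n
  have h2 := congrArg Multiplicative.toAdd this
  simpa [dgh] using h2

theorem dg_pow (i : Fin r) (a : G) (n : ℕ) : S.dg i (a ^ n) = n * S.dg i a := by
  rw [← zpow_natCast, S.dg_zpow]

theorem dg_inv (i : Fin r) (a : G) : S.dg i a⁻¹ = -S.dg i a := by
  rw [← zpow_neg_one, S.dg_zpow, neg_one_mul]

/-- Centralizers of elements outside the kernel have rank one. -/
theorem cent [UniqueProds Q] (hQ : TF Q) {g h : G} (hg : S.pr g ≠ 1) (e : g * h = h * g) :
    ∃ (k : ℕ) (j : ℤ), k ≠ 0 ∧ h ^ k = g ^ j := by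
  classical
  have key : ∃ (k : ℕ) (j : ℤ), k ≠ 0 ∧ S.pr h ^ k = S.pr g ^ j := by
    by_contra hc
    push Not at hc
    set a := S.pr g with ha
    set b := S.pr h with hb
    have hab : Commute a b := by
      show a * b = b * a
      rw [ha, hb, ← map_mul, e, map_mul]
    have hd : ∀ i, (oo b - 1) * S.der g i = (oo a - 1) * S.der h i := by
      intro i
      have := congrFun (congrArg S.der e) i
      simp only [S.der_mul, Pi.add_apply, Pi.smul_apply, smul_eq_mul] at this
      rw [← ha, ← hb] at this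
      rw [sub_mul, sub_mul, one_mul, one_mul, sub_eq_sub_iff_add_eq_add, add_comm, ← this, add_comm]
    have hz : ∀ i (χ : Q → ℤ), (∀ q, χ (a * q) = χ q) → E χ (S.der g i) = 0 := by
      intro i χ hχ
      set f := S.der g i
      let χ' : Q → ℤ := fun q => if ∃ s ∈ f.coeff.support, ∃ n : ℤ, q = a ^ n * s then χ q else 0
      have hχ' : ∀ q, χ' (a * q) = χ' q := by
        intro q
        simp only [χ', hχ]
        congr 1
        apply propext
        constructor
        · rintro ⟨s, hs, n, hn⟩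
          exact ⟨s, hs, n - 1, by rw [sub_eq_neg_add, zpow_add, zpow_neg_one, mul_assoc, ← hn,
            inv_mul_cancel_left]⟩
        · rintro ⟨s, hs, n, hn⟩
          exact ⟨s, hs, 1 + n, by rw [zpow_add, zpow_one, mul_assoc, ← hn]⟩
      have h1 : E χ f = E χ' f := E_congr fun q hq => by
        simp only [χ']
        rw [if_pos ⟨q, hq, 0, by simp⟩]
      have h2 : ∀ M : ℕ, E χ' f = E (fun q => χ' (b ^ M * q)) f := by
        intro M
        induction M with
        | zero => simp
        | succ M ih =>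
          have h3 := E_left (χ := fun q => χ' (b ^ M * q)) (h := a) (fun q => by
            show χ' (b ^ M * (a * q)) = χ' (b ^ M * q)
            rw [← mul_assoc, ← (hab.pow_right M).eq, mul_assoc, hχ']) (S.der h i)
          rw [← hd, sub_mul, one_mul, map_sub, E_oo_mul, sub_eq_zero] at h3
          rw [ih, ← h3]
          simp only [pow_succ, mul_assoc]
          rfl
      have h4 : ∃ M : ℕ, ∀ q ∈ f.coeff.support, χ' (b ^ M * q) = 0 := by
        have hfin : (⋃ q ∈ f.coeff.support, ⋃ s ∈ f.coeff.support,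
            {M : ℕ | ∃ n : ℤ, b ^ M * q = a ^ n * s}).Finite := by
          refine Set.Finite.biUnion (Finset.finite_toSet _) fun q _ =>
            Set.Finite.biUnion (Finset.finite_toSet _) fun s _ => Set.Subsingleton.finite ?_
          have aux : ∀ M M' : ℕ, M < M' → (∃ n : ℤ, b ^ M * q = a ^ n * s) →
              (∃ n : ℤ, b ^ M' * q = a ^ n * s) → False := by
            rintro M M' hlt ⟨n, hn⟩ ⟨n', hn'⟩
            obtain ⟨k, rfl⟩ := Nat.exists_eq_add_of_lt hlt
            apply hc (k + 1) (n' - n) (by omega)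
            have : b ^ (k + 1) * (b ^ M * q) = a ^ (n' - n) * (a ^ n * s) := by
              rw [← mul_assoc, ← pow_add, ← mul_assoc, ← zpow_add, sub_add_cancel, ← hn']
              congr 2
              ring
            rw [hn] at this
            exact mul_right_cancel this
          intro M hM M' hM'
          rcases lt_trichotomy M M' with h | h | h
          · exact (aux _ _ h hM hM').elim
          · exact h
          · exact (aux _ _ h hM' hM).elim
        obtain ⟨M, hM⟩ := hfin.exists_notMem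
        refine ⟨M, fun q hq => ?_⟩
        simp only [χ']
        rw [if_neg]
        rintro ⟨s, hs, n, hn⟩
        exact hM (Set.mem_biUnion hq (Set.mem_biUnion hs ⟨n, hn⟩))
      obtain ⟨M, hM⟩ := h4
      rw [h1, h2 M]
      exact E_zero_of hM
    let rep : Q → Q := fun q => (Quotient.mk (QuotientGroup.rightRel (Subgroup.zpowers a)) q).out
    have hrep : ∀ q, ∃ n : ℤ, a ^ n = q * (rep q)⁻¹ := fun q =>
      Subgroup.mem_zpowers_iff.1 (QuotientGroup.rightRel_apply.1
        (Quotient.mk_out (s := QuotientGroup.rightRel (Subgroup.zpowers a)) q))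
    choose ht hht using hrep
    have hrep2 : ∀ q, rep (a * q) = rep q := fun q => by
      simp only [rep]
      congr 1
      apply Quotient.sound
      apply QuotientGroup.rightRel_apply.2
      simp
    have hht2 : ∀ q, ht (a * q) = ht q + 1 := fun q => by
      apply hQ.zpow_inj hg
      rw [hht, hrep2, add_comm, zpow_add, zpow_one, hht, mul_assoc]
    have h5 := congrArg (E ht) (S.eps_der g)
    rw [S.eps_apply, map_sum, map_sub, E_oo, E_one, ← ha] at h5
    have h6 : ht a - ht 1 = 1 := by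
      have := hht2 1
      rw [mul_one] at this
      omega
    rw [h6, Finset.sum_eq_zero] at h5
    · exact zero_ne_one h5
    · intro i _
      rw [mul_sub, mul_one, map_sub, E_mul_oo, ← E_sub_fun]
      apply hz
      intro q
      simp only [mul_assoc, hht2]
      ring
  obtain ⟨k, j, hk, hkj⟩ := key
  refine ⟨k, j, hk, ?_⟩
  have h1 : S.pr (h ^ k * (g ^ j)⁻¹) = 1 := by
    rw [map_mul, map_inv, map_pow, map_zpow, hkj, mul_inv_cancel]
  have hc : Commute g h := e
  have h2 := S.ker_fix hg h1 ((hc.pow_right k).mul_right ((Commute.refl g).zpow_right j).inv_right).eq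
  exact mul_inv_eq_one.1 h2

/-- The centralizer of a generator is generated by it. -/
theorem cent_x [UniqueProds Q] (hQ : TF Q) {i : Fin r} (hi : S.pr (S.x i) ≠ 1) {h : G}
    (e : S.x i * h = h * S.x i) : h = S.x i ^ S.dg i h := by
  obtain ⟨k, j, hk, hkj⟩ := S.cent hQ hi e
  have h1 := congrArg (S.dg i) hkj
  rw [S.dg_pow, S.dg_zpow, S.dg_x, if_pos rfl, mul_one] at h1
  have hc : Commute h (S.x i ^ S.dg i h)⁻¹ := (Commute.zpow_right (show Commute h (S.x i) from e.symm) _).inv_right
  have h2 : (h * (S.x i ^ S.dg i h)⁻¹) ^ k = 1 := by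
    rw [hc.mul_pow, hkj, inv_pow, ← zpow_natCast, ← zpow_mul, ← h1, mul_comm (k : ℤ), mul_inv_cancel]
  exact mul_inv_eq_one.1 (S.tf hQ _ k hk h2)

end MS

end Pool.Agent.H259Z.Rich
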