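import Pool.Agent.H259Z.Rich.Tower

/-! The relation module of a Magnus structure. -/

set_option autoImplicit false
set_option linter.unusedSectionVars false

namespace Pool.Agent.H259Z.Rich

variable {r : ℕ} {G Q : Type} [Group G] [Group Q]

theorem single_eq (q : Q) (n : ℤ) : (MonoidAlgebra.single q n : ZG Q) = n • oo q := by
  simp [oo_apply]

/-- The image of the kernel under the derivative. -/
def MS.V (S : MS r G Q) : Submodule (ZG Q) (Fin r → ZG Q) where
  carrier := {v | ∃ a, S.pr a = 1 ∧ S.der a = v}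
  add_mem' := by
    rintro _ _ ⟨a, ha, rfl⟩ ⟨b, hb, rfl⟩
    exact ⟨a * b, by rw [map_mul, ha, hb, mul_one], S.der_mul_ker ha b⟩
  zero_mem' := ⟨1, map_one _, S.der_one⟩
  smul_mem' := by
    rintro ρ _ ⟨a, ha, rfl⟩
    induction ρ using MonoidAlgebra.induction_linear with
    | zero => exact ⟨1, map_one _, by rw [S.der_one, zero_smul]⟩
    | add f g hf hg =>
      obtain ⟨b, hb, e⟩ := hf
      obtain ⟨b', hb', e'⟩ := hg
      exact ⟨b * b', by rw [map_mul, hb, hb', mul_one], by rw [S.der_mul_ker hb, e, e', add_smul]⟩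
    | single q n =>
      obtain ⟨g, rfl⟩ := S.surj q
      have h1 : S.pr (g * a * g⁻¹) = 1 := by simp [ha]
      exact ⟨(g * a * g⁻¹) ^ n, by rw [map_zpow, h1, one_zpow], by
        rw [S.der_zpow_ker h1, S.der_conj g ha, single_eq, smul_assoc]⟩

theorem geomZ (z : Q) (n : ℤ) : ∃ μ ν : ZG Q, oo (z ^ n) - 1 = (oo z - 1) * μ ∧
    μ - (n : ZG Q) = (oo z - 1) * ν := by
  induction n using Int.induction_on with
  | zero => exact ⟨0, 0, by simp, by simp⟩
  | succ n ih =>
    obtain ⟨μ, ν, h1, h2⟩ := ih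
    refine ⟨oo (z ^ (n : ℤ)) + μ, μ + ν, ?_, ?_⟩
    · rw [mul_add, ← h1, add_comm (n : ℤ), zpow_add, zpow_one, map_mul]
      noncomm_ring
    · rw [mul_add, ← h1, ← h2]
      push_cast
      abel
  | pred n ih =>
    obtain ⟨μ, ν, h1, h2⟩ := ih
    have e : oo (z ^ (-(n : ℤ))) = oo z * oo (z ^ (-(n : ℤ) - 1)) := by
      rw [← map_mul, ← zpow_one_add]
      congr 2
      ring
    have h3 : oo (z ^ (-(n : ℤ) - 1)) - 1 = (oo z - 1) * (μ - oo (z ^ (-(n : ℤ) - 1))) := by
      rw [mul_sub, ← h1, e]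
      noncomm_ring
    refine ⟨μ - oo (z ^ (-(n : ℤ) - 1)), ν - (μ - oo (z ^ (-(n : ℤ) - 1))), h3, ?_⟩
    rw [mul_sub, ← h3, ← h2]
    push_cast
    abel

theorem TF.avoid (h : TF Q) (z : Q) (T : Finset Q) (hT : (1 : Q) ∉ T) :
    ∃ k : ℕ, 0 < k ∧ ∀ s ∈ T, s ∉ Subgroup.zpowers (z ^ k) := by
  by_cases hz : z = 1
  · refine ⟨1, one_pos, fun s hs h1 => hT ?_⟩
    rw [hz, one_pow, Subgroup.zpowers_one_eq_bot, Subgroup.mem_bot] at h1
    exact h1 ▸ hs
  have hfin : {j : ℤ | z ^ j ∈ T}.Finite :=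
    Set.Finite.preimage (f := fun j : ℤ => z ^ j) (fun a _ b _ e => h.zpow_inj hz e) T.finite_toSet
  obtain ⟨B, hB⟩ := (hfin.image Int.natAbs).bddAbove
  refine ⟨B + 1, Nat.succ_pos _, fun s hs h1 => ?_⟩
  obtain ⟨j, rfl⟩ := Subgroup.mem_zpowers_iff.1 h1
  rw [← zpow_natCast, ← zpow_mul] at hs
  have h2 := hB ⟨_, hs, rfl⟩
  have h3 : j ≠ 0 := by
    rintro rfl
    simp [hT] at hs
  rw [Int.natAbs_mul, Int.natAbs_natCast] at h2
  have := Int.natAbs_pos.2 h3
  nlinarith

/-- The sum of the group elements in a list. -/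
noncomputable def sm (l : List Q) : ZG Q := ∑ j ∈ Finset.range l.length, oo (l.getD j 1)

theorem sm_cons (q : Q) (l : List Q) : sm (q :: l) = oo q + sm l := by
  simp [sm, Finset.sum_range_succ', add_comm]

theorem sm_append (l l' : List Q) : sm (l ++ l') = sm l + sm l' := by
  induction l with
  | nil => simp [sm]
  | cons q l ih => rw [List.cons_append, sm_cons, sm_cons, ih, add_assoc]

theorem exists_sm (ρ : ZG Q) : ∃ l l' : List Q, ρ = sm l - sm l' := by
  induction ρ using MonoidAlgebra.induction_linear with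
  | zero => exact ⟨[], [], by simp⟩
  | add f g hf hg =>
    obtain ⟨a, b, rfl⟩ := hf
    obtain ⟨a', b', rfl⟩ := hg
    exact ⟨a ++ a', b ++ b', by rw [sm_append, sm_append]; abel⟩
  | single q n =>
    have : ∀ m : ℕ, sm (List.replicate m q) = m • oo q := by
      intro m
      induction m with
      | zero => simp [sm]
      | succ m ih => rw [List.replicate_succ, sm_cons, ih, succ_nsmul']
    rw [single_eq]
    rcases Int.eq_nat_or_neg n with ⟨m, rfl | rfl⟩
    · exact ⟨List.replicate m q, [], by rw [this]; simp [sm]⟩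
    · exact ⟨[], List.replicate m q, by rw [this]; simp [sm]⟩

namespace MS

variable (S : MS r G Q)

theorem V_sub_smul (ρ σ : ZG Q) (a : S.V) : (ρ - σ) • a = ρ • a - σ • a := sub_smul ρ σ a

theorem V_int_smul (n : ℤ) (a : S.V) : (n : ZG Q) • a = n • a := Int.cast_smul_eq_zsmul _ n a

theorem V_smul_eq_zero [UniqueProds Q] {ρ : ZG Q} {v : S.V} (h : ρ • v = 0) : ρ = 0 ∨ v = 0 :=
  (smul_eq_zero' (congrArg Subtype.val h)).imp_right Subtype.ext

theorem V_cancel [UniqueProds Q] {z : Q} (hz : z ≠ 1) {v w : S.V}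
    (h : oo z • v - v = oo z • w - w) : v = w := by
  have : (oo z - 1) • (v - w) = 0 := by
    rw [smul_sub, sub_smul, sub_smul, one_smul, one_smul, h, sub_self]
  exact sub_eq_zero.1 ((S.V_smul_eq_zero this).resolve_left (oo_sub_one_ne hz))

theorem V_sepH {v : S.V} (hv : v ≠ 0) : ∃ T : Finset Q, (1 : Q) ∉ T ∧
    ∀ H : Subgroup Q, (∀ s ∈ T, s ∉ H) → ∀ (k : ℕ) (h : Fin k → Q), (∀ j, h j ∈ H) →
      ∀ w : Fin k → S.V, v ≠ ∑ j, (oo (h j) • w j - w j) := by
  classical
  obtain ⟨i, hi⟩ : ∃ i, v.1 i ≠ 0 := by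
    by_contra hc
    push Not at hc
    exact hv (Subtype.ext (funext hc))
  obtain ⟨s0, hs0⟩ := Finsupp.support_nonempty_iff.2 (mt MonoidAlgebra.coeff_eq_zero.1 hi)
  refine ⟨((v.1 i).coeff.support.erase s0).image (· * s0⁻¹), ?_, fun H hH k h hh w e => ?_⟩
  · intro h
    obtain ⟨s, hs, e⟩ := Finset.mem_image.1 h
    exact (Finset.mem_erase.1 hs).1 (mul_inv_eq_one.1 e)
  · let χ : Q → ℤ := fun q => if q * s0⁻¹ ∈ H then 1 else 0
    have h1 : E χ (v.1 i) = (v.1 i).coeff s0 • χ s0 := E_coeff s0 fun q hq hne => by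
      simp only [χ]
      rw [if_neg (hH _ (Finset.mem_image_of_mem _ (Finset.mem_erase.2 ⟨hne, hq⟩)))]
    have h2 : E χ (v.1 i) = 0 := by
      rw [e]
      simp only [AddSubmonoidClass.coe_finsetSum, Finset.sum_apply, map_sum]
      refine Finset.sum_eq_zero fun j _ => ?_
      have := E_left (χ := χ) (h := h j) (fun q => by
        simp only [χ, mul_assoc, H.mul_mem_cancel_left (hh j)]) ((w j).1 i)
      rw [sub_mul, one_mul] at this
      exact this
    rw [h2] at h1
    simp only [χ, mul_inv_cancel, one_mem, if_true, smul_eq_mul, mul_one] at h1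
    exact Finsupp.mem_support_iff.1 hs0 h1.symm

theorem V_sepm {v : S.V} (hv : v ≠ 0) : ∃ m : ℕ, ∀ (g : Q) (w : S.V), v ≠ oo g • w - m • w := by
  obtain ⟨i, hi⟩ : ∃ i, v.1 i ≠ 0 := by
    by_contra hc
    push Not at hc
    exact hv (Subtype.ext (funext hc))
  refine ⟨(nrm (v.1 i)).toNat + 2, fun g w e => ?_⟩
  have h1 : v.1 i = (oo g - (((nrm (v.1 i)).toNat + 2 : ℕ) : ZG Q)) * w.1 i := by
    rw [sub_mul, ← nsmul_eq_mul]
    exact congrFun (congrArg Subtype.val e) i
  have h2 := left_mul_bound g ((nrm (v.1 i)).toNat + 2) (w.1 i) (h1 ▸ hi)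
  rw [← h1] at h2
  push_cast at h2
  omega

theorem V_geom (z : Q) (n : ℤ) (a : S.V) :
    ∃ w u : S.V, oo (z ^ n) • a - a = oo z • w - w ∧ w - n • a = oo z • u - u := by
  obtain ⟨μ, ν, h1, h2⟩ := geomZ z n
  refine ⟨μ • a, ν • a, ?_, ?_⟩
  · have : (oo (z ^ n) - 1) • a = ((oo z - 1) * μ) • a := by rw [h1]
    rwa [V_sub_smul, one_smul, mul_smul, V_sub_smul, one_smul] at this
  · have : (μ - (n : ZG Q)) • a = ((oo z - 1) * ν) • a := by rw [h2]
    rwa [V_sub_smul, V_int_smul, mul_smul, V_sub_smul, one_smul] at this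

theorem nsmul_iff [UniqueProds Q] (hQ : TF Q) {z : Q} (hz : z ≠ 1) (n : ℕ) (a b : S.V) :
    n • a = b ↔ ∀ k : ℕ, 0 < k → ∃ w u : S.V, oo (z ^ (k * n)) • a - a = oo (z ^ k) • w - w ∧
      w - b = oo (z ^ k) • u - u := by
  constructor
  · rintro rfl k _
    obtain ⟨w, u, h1, h2⟩ := S.V_geom (z ^ k) n a
    rw [zpow_natCast, ← pow_mul] at h1
    rw [natCast_zsmul] at h2
    exact ⟨w, u, h1, h2⟩
  · intro h
    by_contra hne
    obtain ⟨T, hT, hT'⟩ := S.V_sepH (sub_ne_zero.2 hne)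
    obtain ⟨k, hk, hk'⟩ := hQ.avoid z T hT
    obtain ⟨w, u, h1, h2⟩ := h k hk
    obtain ⟨w', u', h1', h2'⟩ := S.V_geom (z ^ k) n a
    rw [zpow_natCast, ← pow_mul, h1] at h1'
    rw [natCast_zsmul] at h2'
    have h3 := S.V_cancel (fun e => hz (hQ z k hk.ne' e)) h1'
    subst h3
    apply hT' _ hk' 1 (fun _ => z ^ k) (fun _ => Subgroup.mem_zpowers _) (fun _ => u - u')
    simp only [Finset.univ_unique, Finset.sum_singleton, smul_sub]
    rw [show n • a - b = (w - b) - (w - n • a) by abel, h2, h2']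
    abel

theorem inH {k : ℕ} (h : Fin k → Q) {t : Q} (ht : t ∈ Subgroup.closure (Set.range h)) (u : S.V) :
    ∃ w : Fin k → S.V, oo t • u - u = ∑ j, (oo (h j) • w j - w j) := by
  induction ht using Subgroup.closure_induction generalizing u with
  | mem y hy =>
    obtain ⟨j, rfl⟩ := hy
    refine ⟨Pi.single j u, ?_⟩
    rw [Finset.sum_eq_single j]
    · simp
    · intro b _ hb; simp [hb]
    · simp
  | one => exact ⟨0, by simp⟩
  | mul a b _ _ ha hb =>
    obtain ⟨w, hw⟩ := ha (oo b • u)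
    obtain ⟨w', hw'⟩ := hb u
    refine ⟨w + w', ?_⟩
    rw [map_mul, mul_smul, show oo a • oo b • u - u = (oo a • oo b • u - oo b • u) + (oo b • u - u)
      by abel, hw, hw', ← Finset.sum_add_distrib]
    exact Finset.sum_congr rfl fun j _ => by simp only [Pi.add_apply, smul_add]; abel
  | inv a _ ha =>
    obtain ⟨w, hw⟩ := ha (oo a⁻¹ • u)
    refine ⟨-w, ?_⟩
    rw [smul_smul, oo_mul_inv, one_smul] at hw
    rw [← neg_sub, hw, ← Finset.sum_neg_distrib]
    exact Finset.sum_congr rfl fun j _ => by simp only [Pi.neg_apply, smul_neg]; abel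

/-- Approximations to the graph of the action of `sm l`. -/
def Rsum (k : ℕ) : ℕ → List Q → S.V → S.V → Prop
  | 0, l, a, b => ∀ (g : Q) (N : List ℕ), (∀ j, j < l.length → l.getD j 1 = g ^ N.getD j 0) →
      ∀ m : ℕ, ∃ w : S.V, b - (∑ j ∈ Finset.range l.length, m ^ N.getD j 0) • a = oo g • w - m • w
  | n + 1, l, a, b => ∀ (h : Fin k → Q) (l' : List Q), l'.length = l.length →
      (∀ j, j < l.length → l.getD j 1 * (l'.getD j 1)⁻¹ ∈ Subgroup.closure (Set.range h)) →
      ∃ b', Rsum k n l' a b' ∧ ∃ w : Fin k → S.V, b - b' = ∑ j, (oo (h j) • w j - w j)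

theorem Rsum_sound (k n : ℕ) (l : List Q) (a : S.V) : S.Rsum k n l a (sm l • a) := by
  induction n generalizing l with
  | zero =>
    intro g N hN m
    have key : ∀ j : ℕ, ∃ w : S.V, oo (g ^ j) • a - (m ^ j) • a = oo g • w - m • w := by
      intro j
      induction j with
      | zero => exact ⟨0, by simp⟩
      | succ j ih =>
        obtain ⟨w, hw⟩ := ih
        refine ⟨oo (g ^ j) • a + m • w, ?_⟩
        rw [pow_succ' g, map_mul, mul_smul, pow_succ' m, mul_smul, smul_add, smul_add,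
          smul_comm (oo g) m w, show (m ^ j) • a = oo (g ^ j) • a - (oo g • w - m • w) by
            rw [← hw]; abel, smul_sub, smul_sub]
        abel
    choose w hw using key
    refine ⟨∑ j ∈ Finset.range l.length, w (N.getD j 0), ?_⟩
    rw [sm, Finset.sum_smul, Finset.sum_smul, Finset.smul_sum, Finset.smul_sum,
      ← Finset.sum_sub_distrib, ← Finset.sum_sub_distrib]
    exact Finset.sum_congr rfl fun j hj => by rw [hN j (Finset.mem_range.1 hj), hw]
  | succ n ih =>
    intro h l' hl hh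
    refine ⟨_, ih l', ?_⟩
    have key : ∀ j, ∃ w : Fin k → S.V, j < l.length →
        oo (l.getD j 1) • a - oo (l'.getD j 1) • a = ∑ t, (oo (h t) • w t - w t) := by
      intro j
      by_cases hj : j < l.length
      · obtain ⟨w, hw⟩ := S.inH h (hh j hj) (oo (l'.getD j 1) • a)
        rw [smul_smul, ← map_mul, inv_mul_cancel_right] at hw
        exact ⟨w, fun _ => hw⟩
      · exact ⟨0, fun h => (hj h).elim⟩
    choose w hw using key
    refine ⟨∑ j ∈ Finset.range l.length, w j, ?_⟩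
    rw [sm, sm, hl, Finset.sum_smul, Finset.sum_smul, ← Finset.sum_sub_distrib,
      Finset.sum_congr rfl fun j hj => hw j (Finset.mem_range.1 hj), Finset.sum_comm]
    exact Finset.sum_congr rfl fun t _ => by
      rw [Finset.sum_apply, Finset.smul_sum, Finset.sum_sub_distrib]

theorem Rsum_complete (k n : ℕ) (Y : Set Q) (hY : Red k n Y) (l : List Q)
    (hl : ∀ j, j < l.length → l.getD j 1 ∈ Y) (a b : S.V) (h : S.Rsum k n l a b) :
    sm l • a = b := by
  classical
  induction n generalizing Y l b with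
  | zero =>
    obtain ⟨g, hg⟩ := hY
    have key : ∀ j, ∃ e : ℕ, j < l.length → l.getD j 1 = g ^ e := by
      intro j
      by_cases hj : j < l.length
      · obtain ⟨e, he⟩ := hg _ (hl j hj)
        exact ⟨e, fun _ => he⟩
      · exact ⟨0, fun h => (hj h).elim⟩
    choose e he using key
    have hN : ∀ j, j < l.length → l.getD j 1 = g ^ ((List.range l.length).map e).getD j 0 := by
      intro j hj
      rw [he j hj]
      simp [List.getD_eq_getElem?_getD, hj]
    by_contra hne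
    obtain ⟨m, hm⟩ := S.V_sepm (sub_ne_zero.2 hne)
    obtain ⟨w, hw⟩ := h g _ hN m
    obtain ⟨w', hw'⟩ := S.Rsum_sound k 0 l a g _ hN m
    apply hm g (w' - w)
    rw [smul_sub, smul_sub, show oo g • w' - oo g • w - (m • w' - m • w) =
      (oo g • w' - m • w') - (oo g • w - m • w) by abel, ← hw, ← hw']
    abel
  | succ n ih =>
    by_contra hne
    obtain ⟨T, hT, hT'⟩ := S.V_sepH (sub_ne_zero.2 hne)
    obtain ⟨H, ⟨hh, rfl⟩, hH, Y', hY', hΛ⟩ := hY T hT
      ((Finset.range l.length).image fun j => l.getD j 1) (by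
        intro q hq
        obtain ⟨j, hj, rfl⟩ := Finset.mem_image.1 hq
        exact hl j (Finset.mem_range.1 hj))
    have key : ∀ j, ∃ y : Q, j < l.length →
        y ∈ Y' ∧ l.getD j 1 * y⁻¹ ∈ Subgroup.closure (Set.range hh) := by
      intro j
      by_cases hj : j < l.length
      · obtain ⟨y, hy⟩ := hΛ _ (Finset.mem_image_of_mem _ (Finset.mem_range.2 hj))
        exact ⟨y, fun _ => hy⟩
      · exact ⟨1, fun h => (hj h).elim⟩
    choose y hy using key
    have hg : ∀ j, j < l.length → ((List.range l.length).map y).getD j 1 = y j := by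
      intro j hj
      simp [List.getD_eq_getElem?_getD, hj]
    have hlen : ((List.range l.length).map y).length = l.length := by simp
    have hc : ∀ j, j < l.length → l.getD j 1 * (((List.range l.length).map y).getD j 1)⁻¹ ∈
        Subgroup.closure (Set.range hh) := fun j hj => by rw [hg j hj]; exact (hy j hj).2
    obtain ⟨b', hb', w, hw⟩ := h hh _ hlen hc
    obtain ⟨b'', hb'', w', hw'⟩ := S.Rsum_sound k (n + 1) l a hh _ hlen hc
    have hmem : ∀ j, j < ((List.range l.length).map y).length →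
        ((List.range l.length).map y).getD j 1 ∈ Y' := fun j hj => by
      rw [hlen] at hj
      rw [hg j hj]
      exact (hy j hj).1
    have e1 := ih Y' hY' _ hmem _ hb'
    have e2 := ih Y' hY' _ hmem _ hb''
    apply hT' _ hH k hh (fun j => Subgroup.subset_closure ⟨j, rfl⟩) (w' - w)
    rw [show sm l • a - b = (sm l • a - b'') - (b - b') by rw [← e1, ← e2]; abel, hw, hw',
      ← Finset.sum_sub_distrib]
    exact Finset.sum_congr rfl fun j _ => by simp only [Pi.sub_apply, smul_sub]; abel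

theorem der_comm (a b : G) : S.der (a * b * a⁻¹ * b⁻¹) =
    (1 - oo (S.pr a * S.pr b * (S.pr a)⁻¹)) • S.der a +
      (oo (S.pr a) - oo (S.pr a * S.pr b * (S.pr a)⁻¹ * (S.pr b)⁻¹)) • S.der b := by
  simp only [S.der_mul, S.der_inv, map_mul S.pr, map_inv S.pr, smul_neg, smul_smul,
    ← map_mul (oo (Q := Q)), sub_smul, one_smul]
  abel

/-- The double commutator with `c`. -/
def cc (c g : G) : G := (g * c * g⁻¹ * c⁻¹) * c * (g * c * g⁻¹ * c⁻¹)⁻¹ * c⁻¹

theorem der_cc (C : Subgroup Q) [C.Normal] (hC : ∀ a ∈ C, ∀ b ∈ C, a * b = b * a) {c : G}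
    (hc : S.pr c ∈ C) : ∃ τ : Q → ZG Q, ∀ g, S.pr (cc c g) = 1 ∧ S.der (cc c g) =
      ((1 - oo (S.pr c)) * (1 - oo (S.pr g * S.pr c * (S.pr g)⁻¹))) • S.der g +
        τ (S.pr g) • S.der c := by
  refine ⟨fun q => (1 - oo (S.pr c)) * (oo q - oo (q * S.pr c * q⁻¹ * (S.pr c)⁻¹)) +
    (oo (q * S.pr c * q⁻¹ * (S.pr c)⁻¹) - 1), fun g => ?_⟩
  have h1 : S.pr (g * c * g⁻¹ * c⁻¹) ∈ C := by
    simp only [map_mul, map_inv]
    exact mul_mem (Subgroup.Normal.conj_mem inferInstance _ hc _) (inv_mem hc)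
  have h2 : S.pr (g * c * g⁻¹ * c⁻¹) * S.pr c * (S.pr (g * c * g⁻¹ * c⁻¹))⁻¹ = S.pr c := by
    rw [hC _ h1 _ hc, mul_inv_cancel_right]
  constructor
  · rw [cc, map_mul, map_mul, map_mul, map_inv, map_inv, h2, mul_inv_cancel]
  · rw [cc, S.der_comm, h2, mul_inv_cancel, map_one, S.der_comm]
    simp only [map_mul S.pr, map_inv S.pr, smul_add, smul_smul, add_smul]
    abel

theorem cc_inj [UniqueProds Q] (C : Subgroup Q) [C.Normal] (hC : ∀ a ∈ C, ∀ b ∈ C, a * b = b * a)
    {c : G} (hc : S.pr c ∈ C) (hc1 : S.pr c ≠ 1) {g g' : G} (h1 : S.pr g = S.pr g')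
    (h2 : S.der (cc c g) = S.der (cc c g')) : g = g' := by
  obtain ⟨τ, hτ⟩ := S.der_cc C hC hc
  rw [(hτ g).2, (hτ g').2, h1, add_left_inj, ← sub_eq_zero, ← smul_sub] at h2
  refine S.der_inj (sub_eq_zero.1 ((smul_eq_zero' h2).resolve_left (mul_ne_zero ?_ ?_)))
  · exact fun e => oo_sub_one_ne hc1 (by rw [← neg_sub, e, neg_zero])
  · refine fun e => oo_sub_one_ne (a := S.pr g' * S.pr c * (S.pr g')⁻¹) ?_
      (by rw [← neg_sub, e, neg_zero])
    simpa using hc1

/-- Every element of the module has a nonzero multiple in a fixed finitely generated submodule. -/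
theorem ore [UniqueProds Q] (C : Subgroup Q) [hn : C.Normal]
    (hC : ∀ a ∈ C, ∀ b ∈ C, a * b = b * a) {c : G} (hc : S.pr c ∈ C) (hc1 : S.pr c ≠ 1) :
    ∃ b : Fin r → S.V, ∀ v : S.V, ∃ (s : ZG Q) (ρ : Fin r → ZG Q), s ≠ 0 ∧
      s • v = ∑ i, ρ i • b i := by
  classical
  obtain ⟨τ, hτ⟩ := S.der_cc C hC hc
  refine ⟨fun i => ⟨_, cc c (S.x i), (hτ _).1, rfl⟩, fun v => ?_⟩
  let D : Submonoid (ZG Q) := Submonoid.closure {d | ∃ e ∈ C, e ≠ 1 ∧ d = 1 - oo e}
  have D0 : ∀ d ∈ D, d ≠ 0 := by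
    intro d hd
    induction hd using Submonoid.closure_induction with
    | mem d hd =>
      obtain ⟨e, -, he, rfl⟩ := hd
      exact fun h => oo_sub_one_ne he (by rw [← neg_sub, h, neg_zero])
    | one => exact one_ne_zero
    | mul a b _ _ ha hb => exact mul_ne_zero ha hb
  have Dc : ∀ d ∈ D, ∀ d' ∈ D, Commute d d' := by
    intro d hd d' hd'
    induction hd, hd' using Submonoid.closure_induction₂ with
    | mem a b ha hb =>
      obtain ⟨e, he, -, rfl⟩ := ha
      obtain ⟨e', he', -, rfl⟩ := hb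
      have : Commute (oo e) (oo e') := (show Commute e e' from hC _ he _ he').map oo
      exact (Commute.one_left _).sub_left ((Commute.one_right _).sub_right this)
    | one_left => exact Commute.one_left _
    | one_right => exact Commute.one_right _
    | mul_left a b d _ _ _ h h' => exact h.mul_left h'
    | mul_right a b d _ _ _ h h' => exact h.mul_right h'
  have Dj : ∀ (q : Q), ∀ d ∈ D, ∃ d' ∈ D, d' * oo q = oo q * d := by
    intro q d hd
    induction hd using Submonoid.closure_induction with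
    | mem d hd =>
      obtain ⟨e, he, he1, rfl⟩ := hd
      refine ⟨1 - oo (q * e * q⁻¹), Submonoid.subset_closure ⟨_, hn.conj_mem _ he _, ?_, rfl⟩, ?_⟩
      · simpa using he1
      · rw [sub_mul, mul_sub, ← map_mul, ← map_mul]
        simp
    | one => exact ⟨1, one_mem _, by simp⟩
    | mul a b _ _ ha hb =>
      obtain ⟨a', ha', e⟩ := ha
      obtain ⟨b', hb', e'⟩ := hb
      exact ⟨a' * b', mul_mem ha' hb', by rw [mul_assoc, e', ← mul_assoc, e, mul_assoc]⟩
  have Do : ∀ (f : ZG Q), ∀ d ∈ D, ∃ s ∈ D, ∃ f', s * f = f' * d := by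
    intro f d hd
    induction f using MonoidAlgebra.induction_linear with
    | zero => exact ⟨1, one_mem _, 0, by simp⟩
    | add f g hf hg =>
      obtain ⟨s, hs, f', e⟩ := hf
      obtain ⟨t, ht, g', e'⟩ := hg
      refine ⟨s * t, mul_mem hs ht, t * f' + s * g', ?_⟩
      rw [mul_add, add_mul, mul_assoc s t g, e', (Dc s hs t ht).eq, mul_assoc t s f, e, mul_assoc,
        mul_assoc]
    | single q n =>
      obtain ⟨d', hd', e⟩ := Dj q d hd
      exact ⟨d', hd', n • oo q, by rw [single_eq, mul_smul_comm, e, smul_mul_assoc]⟩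
  let σ : Fin r → ZG Q := fun i =>
    (1 - oo (S.pr c)) * (1 - oo (S.pr (S.x i) * S.pr c * (S.pr (S.x i))⁻¹))
  have hσ : ∀ i, σ i ∈ D := fun i => mul_mem (Submonoid.subset_closure ⟨_, hc, hc1, rfl⟩)
    (Submonoid.subset_closure ⟨_, hn.conj_mem _ hc _, by simpa using hc1, rfl⟩)
  have Dall : ∀ I : Finset (Fin r), ∃ s ∈ D, ∀ i ∈ I, ∃ f', s * v.1 i = f' * σ i := by
    intro I
    induction I using Finset.induction_on with
    | empty => exact ⟨1, one_mem _, by simp⟩
    | insert i I _ ih =>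
      obtain ⟨s, hs, h⟩ := ih
      obtain ⟨t, ht, f', e⟩ := Do (v.1 i) _ (hσ i)
      refine ⟨s * t, mul_mem hs ht, fun j hj => ?_⟩
      rcases Finset.mem_insert.1 hj with rfl | hj
      · exact ⟨s * f', by rw [mul_assoc, e, mul_assoc]⟩
      · obtain ⟨g', e'⟩ := h j hj
        exact ⟨t * g', by rw [(Dc s hs t ht).eq, mul_assoc, e', mul_assoc]⟩
  obtain ⟨s, hs, h⟩ := Dall Finset.univ
  choose ρ hρ using fun i => h i (Finset.mem_univ i)
  refine ⟨s, ρ, D0 s hs, Subtype.ext ?_⟩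
  simp only [Submodule.coe_smul, AddSubmonoidClass.coe_finsetSum]
  have e1 : ∑ i, ρ i • S.der (cc c (S.x i)) =
      s • v.1 + (∑ i, ρ i * τ (S.pr (S.x i))) • S.der c := by
    simp only [(hτ _).2, smul_add, smul_smul, Finset.sum_add_distrib, Finset.sum_smul, S.der_x]
    congr 1
    funext j
    simp only [Finset.sum_apply, Pi.smul_apply, smul_eq_mul, Pi.single_apply, mul_ite, mul_one,
      mul_zero, Finset.sum_ite_eq, Finset.mem_univ, if_true]
    exact (hρ j).symm
  have e2 := congrArg S.eps e1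
  obtain ⟨a, ha, hv⟩ := v.2
  rw [map_add, map_smul, map_smul, map_sum, ← hv, S.eps_der, S.eps_der, ha, map_one, sub_self,
    smul_zero, zero_add, Finset.sum_eq_zero fun i _ => by
      rw [map_smul, S.eps_der, (hτ _).1, map_one, sub_self, smul_zero]] at e2
  rw [e1, (mul_eq_zero.1 e2.symm).resolve_right (oo_sub_one_ne hc1), zero_smul, add_zero]

end MS

end Pool.Agent.H259Z.Rich
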