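import Pool.Agent.H259Z.Rich.Theta
import Pool.Agent.H372Z.Rich.Abel

/-! Primeness and homogeneity. -/

set_option autoImplicit false
set_option linter.unusedSectionVars false
set_option synthInstance.maxSize 100000

namespace Pool.Agent.H259Z.Rich

open FirstOrder FirstOrder.Language

variable {L : FirstOrder.Language.{0, 0}}

theorem transfer {M N : Type} [L.Structure M] [L.Structure N] (hN : N ⊨ L.completeTheory M)
    {ι : Type} [Finite ι] (φ : L.Formula ι) (h : ∀ v : ι → M, φ.Realize v) (v : ι → N) :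
    φ.Realize v := by
  let ψ : L.Sentence := (φ.relabel (Sum.inr : ι → Empty ⊕ ι)).iAlls ι
  have key : ∀ (A : Type) [L.Structure A], A ⊨ ψ ↔ ∀ v : ι → A, φ.Realize v := by
    intro A _
    rw [Sentence.Realize, Formula.realize_iAlls]
    refine forall_congr' fun v => ?_
    rw [Formula.realize_relabel]
    rfl
  exact (key N).1 (hN.realize_of_mem ψ ((key M).2 h)) v

theorem prime_of_theta {M : Type} [L.Structure M] {r : ℕ} (x : Fin r → M) (θ : L.Formula (Fin r))
    (hθ : θ.Realize x) (haut : ∀ y, θ.Realize y → ∃ σ : M ≃[L] M, ∀ i, σ (x i) = y i)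
    (hdef : ∀ g : M, ∃ ψ : L.Formula (Fin r ⊕ Unit),
      ∀ v, ψ.Realize (Sum.elim x v) ↔ v = fun _ => g)
    (N : Type) [L.Structure N] (hN : N ⊨ L.completeTheory M) : Nonempty (M ↪ₑ[L] N) := by
  choose ψ hψ using hdef
  have hψ' : ∀ (σ : M ≃[L] M) (y : Fin r → M), (∀ i, σ (x i) = y i) → ∀ g z,
      (ψ g).Realize (Sum.elim y fun _ => z) ↔ z = σ g := by
    intro σ y hy g z
    obtain ⟨z, rfl⟩ := σ.surjective z
    have : (Sum.elim y fun _ : Unit => σ z) = σ ∘ Sum.elim x fun _ => z := by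
      funext a
      rcases a with a | a
      · exact (hy a).symm
      · rfl
    rw [this, StrongHomClass.realize_formula, hψ, σ.injective.eq_iff]
    exact ⟨fun h => congrFun h (), fun h => by rw [h]⟩
  obtain ⟨y, hy⟩ : ∃ y : Fin r → N, θ.Realize y := by
    by_contra hc
    have := transfer hN (ι := Empty) ((θ.relabel (Sum.inr : Fin r → Empty ⊕ Fin r)).iExs (Fin r))
      (fun v => by
        rw [Formula.realize_iExs]
        exact ⟨x, by rw [Formula.realize_relabel]; exact hθ⟩) Empty.elim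
    rw [Formula.realize_iExs] at this
    obtain ⟨y, hy⟩ := this
    rw [Formula.realize_relabel] at hy
    exact hc ⟨y, hy⟩
  have hex : ∀ g, ∃ z : N, (ψ g).Realize (Sum.elim y fun _ => z) := by
    intro g
    have := transfer hN (θ.imp ((ψ g).iExs Unit)) (fun v => by
      rw [Formula.realize_imp, Formula.realize_iExs]
      intro hv
      obtain ⟨σ, hσ⟩ := haut v hv
      exact ⟨fun _ => σ g, (hψ' σ v hσ g _).2 rfl⟩) y
    rw [Formula.realize_imp, Formula.realize_iExs] at this
    obtain ⟨z, hz⟩ := this hy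
    exact ⟨z (), hz⟩
  choose e he using hex
  have key : ∀ (n : ℕ) (φ : L.Formula (Fin n)) (u : Fin n → M), φ.Realize u → φ.Realize (e ∘ u) := by
    intro n φ u hu
    have := transfer hN (ι := Fin r ⊕ Fin n) ((θ.relabel Sum.inl ⊓
      Formula.iInf fun j => (ψ (u j)).relabel (Sum.map id fun _ => j)).imp (φ.relabel Sum.inr))
      (fun v => by
        simp only [Formula.realize_imp, Formula.realize_inf, Formula.realize_iInf,
          Formula.realize_relabel]
        rintro ⟨h1, h2⟩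
        obtain ⟨σ, hσ⟩ := haut _ h1
        have : v ∘ Sum.inr = σ ∘ u := by
          funext j
          refine (hψ' σ _ hσ (u j) _).1 ?_
          convert h2 j using 1
          funext a
          rcases a with a | a <;> rfl
        rw [this, StrongHomClass.realize_formula]
        exact hu) (Sum.elim y (e ∘ u))
    simp only [Formula.realize_imp, Formula.realize_inf, Formula.realize_iInf,
      Formula.realize_relabel] at this
    refine this ⟨hy, fun j => ?_⟩
    convert he (u j) using 1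
    funext a
    rcases a with a | a <;> rfl
  refine ⟨⟨e, fun n φ u => ⟨fun h => ?_, key n φ u⟩⟩⟩
  by_contra hc
  exact (Formula.realize_not.1 (key n φ.not u (Formula.realize_not.2 hc))) h

theorem prime_fs {r : ℕ} (hr : 2 ≤ r) (d : ℕ) [L.Structure (FS r (d + 2))]
    (μ : L.Formula (Fin 3)) (hμ : ∀ v : Fin 3 → FS r (d + 2), μ.Realize v ↔ v 0 * v 1 = v 2)
    (hL : ∀ σ : FS r (d + 2) ≃* FS r (d + 2), ∃ τ : FS r (d + 2) ≃[L] FS r (d + 2), ∀ g, τ g = σ g)
    (N : Type) [L.Structure N] (hN : N ⊨ L.completeTheory (FS r (d + 2))) :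
    Nonempty (FS r (d + 2) ↪ₑ[L] N) := by
  obtain ⟨θ, h1, h2⟩ := exists_theta hr d μ hμ
  refine prime_of_theta _ θ h1 (fun y hy => ?_) (fun g => exists_psi μ hμ _) N hN
  obtain ⟨σ, hσ⟩ := exists_aut r _ y (h2 y hy)
  obtain ⟨τ, hτ⟩ := hL σ
  exact ⟨τ, fun i => by rw [hτ, hσ]⟩

theorem homog_fs (r d : ℕ) [L.Structure (FS r d)]
    (μ : L.Formula (Fin 3)) (hμ : ∀ v : Fin 3 → FS r d, μ.Realize v ↔ v 0 * v 1 = v 2)
    (hL : ∀ σ : FS r d ≃* FS r d, ∃ τ : FS r d ≃[L] FS r d, ∀ g, τ g = σ g)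
    {m : ℕ} (u v : Fin m → FS r d) (h : ∀ φ : L.Formula (Fin m), φ.Realize u ↔ φ.Realize v) :
    ∃ σ : FS r d ≃* FS r d, ∀ i, σ (u i) = v i := by
  let c := ctxS L (FS r d) Empty.elim
  have hP : ∀ P : (Fin m → FS r d) → Prop,
      DP c (X := fun _ => Fin m → FS r d) (fun _ w => P w) → (P u ↔ P v) := fun P hP => by
    obtain ⟨φ, hφ⟩ := extract0 hP
    rw [← hφ, ← hφ, h]
  have : MulD c (fun _ => FS r d) := mulD_of_formula μ fun _ => hμ
  by_cases hrd : r ≤ 1 ∨ d ≤ 1
  · refine abel_homog r d m hrd u v fun a n => hP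
      (fun u => ∃ w, (List.ofFn fun j => u j ^ a j).prod = w ^ n) ?_
    have h1 : DF c (X := fun _ => Fin m → FS r d)
        (fun _ u => (List.ofFn fun j => u j ^ a j).prod) :=
      DF.listProd (X := fun _ => Fin m → FS r d) (fun j _ u => Ev u j ^ a j)
        fun j => DF.zpow_const _ _
    have h2 : DF c (X := fun _ => FS r d) (fun _ w => w ^ n) := DF.npow_const _ _
    exact DP.of_iff (fun _ u => ∃ w, Ap (fun u : Fin m → FS r d =>
      (List.ofFn fun j => u j ^ a j).prod) u = Ap (fun w : FS r d => w ^ n) w)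
      (fun _ _ => by exact Iff.rfl) (by infer_instance)
  · obtain ⟨d, rfl⟩ : ∃ e, d = e + 2 := ⟨d - 2, by omega⟩
    obtain ⟨θ, h1, h2⟩ := exists_theta (r := r) (by omega) d μ hμ
    obtain ⟨ψ, hψ⟩ := exists_psi μ hμ u
    have a1 := DP.formula (c := c) θ
    have a2 : DP c (X := fun _ => (Fin r → FS r (d + 2)) × (Fin m → FS r (d + 2)))
        (fun _ p => ψ.Realize (Sum.elim p.1 p.2)) :=
      DP.comp (fun _ (v : Fin r ⊕ Fin m → FS r (d + 2)) => ψ.Realize v)
        (hP := DP.formula (c := c) ψ) _ (hf := DF.elim _ _)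
    obtain ⟨y, hy, hy'⟩ := (hP (fun w => ∃ y : Fin r → FS r (d + 2), θ.Realize y ∧
      ψ.Realize (Sum.elim y w)) (DP.of_iff (fun _ w => ∃ y : Fin r → FS r (d + 2),
        Ap (fun y => θ.Realize y) y ∧ Ap2 (fun (y : Fin r → FS r (d + 2))
          (w : Fin m → FS r (d + 2)) => ψ.Realize (Sum.elim y w)) y w)
        (fun _ _ => by exact Iff.rfl) (by infer_instance))).1 ⟨_, h1, (hψ u).2 rfl⟩
    obtain ⟨σ, hσ⟩ := exists_aut r _ y (h2 y hy)
    obtain ⟨τ, hτ⟩ := hL σ
    have : Sum.elim y v = τ ∘ Sum.elim (gx r (d + 2)) (σ.symm ∘ v) := by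
      funext a
      rcases a with a | a
      · simp [hτ, hσ]
      · simp [hτ]
    rw [this, StrongHomClass.realize_formula, hψ] at hy'
    exact ⟨σ, fun i => by rw [← hy']; simp⟩

end Pool.Agent.H259Z.Rich
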