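import Pool.Agent.H259Z.Rich.Tower

/-! Statements of the reduction lemmas for free solvable groups of any derived length. -/

set_option autoImplicit false

namespace Pool.Agent.H259Z.Rich

/-- Right handed reduction inside the kernel of a degree map `δ`. -/
def RedR {Q : Type} [Group Q] (δ : Q →* Multiplicative ℤ) (k : ℕ) : ℕ → Set Q → Prop
  | 0, Y => ∃ g, δ g = 1 ∧ ∀ q ∈ Y, ∃ j : ℕ, q = g ^ j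
  | n + 1, Y => ∀ T : Finset Q, (1 : Q) ∉ T → ∀ Λ : Finset Q, (∀ q ∈ Λ, q ∈ Y) →
      ∃ H U : Subgroup Q, GenLe k H ∧ GenLe k U ∧ H ≤ δ.ker ∧ U ≤ δ.ker ∧ (∀ s ∈ T, s ∉ H) ∧
        ∃ Y' : Set Q, (∀ y ∈ Y', y ∈ U) ∧ RedR δ k n Y' ∧ ∀ q ∈ Λ, ∃ y ∈ Y', y⁻¹ * q ∈ H

/-- The elements `ρ • t` of the kernel with `ρ` supported in `Y`. -/
def spanT {r : ℕ} {G Q : Type} [Group G] [Group Q] (S : MS r G Q) (Y : Set Q) (t : G) : Set G :=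
  {a | S.pr a = 1 ∧ ∃ ρ : ZG Q, (∀ q ∈ ρ.coeff.support, q ∈ Y) ∧ S.der a = ρ • S.der t}

/-- The top level separation property. -/
def Top {Q : Type} [Group Q] (δ : Q →* Multiplicative ℤ) (C : Subgroup Q) (k n : ℕ) : Prop :=
  ∀ T : Finset Q, ∃ (H : Subgroup Q) (c : Q) (l : ℕ) (Y : Set Q),
    GenLe k H ∧ H.FiniteIndex ∧ c ∈ C ∧ δ c = 1 ∧ 0 < l ∧ RedR δ k n Y ∧
    (∀ q, ∃ y ∈ Y, y⁻¹ * q ∈ H) ∧
    ∀ s ∈ T, ∃ χ : Q → ℤ, (∀ q, ∀ h ∈ H, χ (q * h) = χ q) ∧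
      (∀ q, ∑ j ∈ Finset.range l, χ (q * c ^ j) = 0) ∧ χ s = 1 ∧ ∀ s' ∈ T, s' ≠ s → χ s' = 0

def LiftStmt : Prop :=
  ∀ (r : ℕ) (G Q : Type) [Group G] [Group Q] [UniqueProds Q] (S : MS r G Q), TF Q →
    ∀ (δ : Q →* Multiplicative ℤ) (z : Q), δ z = Multiplicative.ofAdd 1 →
    ∀ c0 : G, S.pr c0 = 1 → c0 ≠ 1 → ∀ t : G, S.pr t = 1 →
    ∀ (k n : ℕ) (Y : Set Q), RedR δ k n Y →
      RedR (δ.comp S.pr) (3 * k + 3) (n + 2) (spanT S Y t)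

def OntoStmt : Prop :=
  ∀ (r : ℕ) (G Q : Type) [Group G] [Group Q] (S : MS r G Q) (C : Subgroup Q), C.Normal →
    (∀ a ∈ C, ∀ b ∈ C, a * b = b * a) → ∀ c ∈ C, ∀ (l p o : ℕ) (lam : ℤ), p.Prime →
    ¬ p ∣ l → ¬ (p : ℤ) ∣ lam - 1 →
    ∀ (i1 i2 : Fin r) (α : Fin r → ℤ), α i2 = 0 → ¬ (p : ℤ) ∣ α i1 →
    ∀ J : Submodule (ZG Q) (ZG Q), (p : ZG Q) ∈ J → (∑ j ∈ Finset.range l, oo (c ^ j)) ∈ J →
    (∀ q : Q, oo (S.pr (S.x i2) ^ o * q) - lam • oo q ∈ J) →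
      ∃ t : G, S.pr t = 1 ∧ (∑ i, α i • S.der t i) - 1 ∈ J

def TopStepStmt : Prop :=
  ∀ (r : ℕ) (G Q : Type) [Group G] [Group Q] [UniqueProds Q] (S : MS r G Q), TF Q →
    ∀ (δ : Q →* Multiplicative ℤ) (i1 i2 : Fin r), i1 ≠ i2 →
    δ (S.pr (S.x i2)) = Multiplicative.ofAdd 1 →
    ∀ c0 : G, S.pr c0 = 1 → c0 ≠ 1 →
    ∀ (C : Subgroup Q), C.Normal → (∀ a ∈ C, ∀ b ∈ C, a * b = b * a) →
    ∀ k n : ℕ, Top δ C k n → Top (δ.comp S.pr) S.pr.ker (3 * k + 3 + r) (n + 2)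

def BaseStmt : Prop :=
  ∀ (r : ℕ) (i1 i2 : Fin r), i1 ≠ i2 → Top ((msd r 0).dgh i2) ⊤ (r + 1) 0

def RedAll : Prop := ∀ r d : ℕ, 2 ≤ r → ∃ k n : ℕ, Red k n (Set.univ : Set (FS r d))

end Pool.Agent.H259Z.Rich
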