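import Pool.Agent.H259Z.Rich.Calc3
import Pool.Agent.H259Z.Rich.Mod

/-! Definability of the module structure and coding of a Magnus extension. -/

set_option autoImplicit false
set_option linter.unusedSectionVars false
set_option synthInstance.maxSize 100000

namespace Pool.Agent.H259Z.Rich

open FirstOrder FirstOrder.Language

variable {L : FirstOrder.Language.{0, 0}} {c : Ctx L}
variable {r : ℕ} {G Q : Type} [Group G] [Group Q]

/-- `v` is the derivative of the kernel element `g`. -/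
def MS.Gr (S : MS r G Q) (g : G) (v : S.V) : Prop := S.pr g = 1 ∧ S.der g = v.1

abbrev HomI (c : Ctx L) {G Q : Type} [Group G] [Group Q] [Srt c (fun _ => G)] [Srt c (fun _ => Q)]
    (π : G →* Q) : Prop :=
  ∀ {X : c.I → Type} [Srt c X] (f : ∀ i, X i → G) [DF c f], DF c (fun i x => π (f i x))

theorem homI [Srt c (fun _ => G)] [Srt c (fun _ => Q)] (π : G →* Q)
    (h : DF c (X := fun _ => G) (fun _ g => π g)) : HomI c π :=
  fun f _ => DF.comp (fun _ g => π g) f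

abbrev GrI (c : Ctx L) (S : MS r G Q) [Srt c (fun _ => G)] [Srt c (fun _ => S.V)] : Prop :=
  ∀ {X : c.I → Type} [Srt c X] (f : ∀ i, X i → G) (g : ∀ i, X i → S.V) [DF c f] [DF c g],
    DP c (fun i x => S.Gr (f i x) (g i x))

abbrev ActI (c : Ctx L) (S : MS r G Q) [Srt c (fun _ => Q)] [Srt c (fun _ => S.V)] : Prop :=
  ∀ {X : c.I → Type} [Srt c X] (f : ∀ i, X i → Q) (g : ∀ i, X i → S.V) [DF c f] [DF c g],
    DF c (fun i x => oo (f i x) • g i x)

abbrev NsmI (c : Ctx L) (S : MS r G Q) [Srt c (fun _ => ℕ)] [Srt c (fun _ => S.V)] : Prop :=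
  ∀ {X : c.I → Type} [Srt c X] (f : ∀ i, X i → ℕ) (g : ∀ i, X i → S.V) [DF c f] [DF c g],
    DF c (fun i x => f i x • g i x)

abbrev PzI (c : Ctx L) [Srt c (fun _ => ℕ)] [Srt c (fun _ => Q)] (z : Q) : Prop :=
  ∀ {X : c.I → Type} [Srt c X] (f : ∀ i, X i → ℕ) [DF c f], DF c (fun i x => z ^ f i x)

variable (S : MS r G Q)

theorem exists_V [Srt c (fun _ => G)] [Srt c (fun _ => Q)] [MulD c (fun _ => G)]
    [MulD c (fun _ => Q)] (hpr : HomI c S.pr) :
    ∃ _ : Srt c (fun _ => S.V), GrI c S ∧ AddD c (fun _ => S.V) ∧ ActI c S := by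
  classical
  obtain ⟨_, _, _⟩ := grpI c (fun _ => G)
  obtain ⟨_, _, _⟩ := grpI c (fun _ => Q)
  obtain ⟨t, ht⟩ := exists_srt (c := c) (X := fun _ => G) (Y := fun _ => S.V)
    (fun _ g => S.pr g = 1) (fun _ g => if h : S.pr g = 1 then ⟨S.der g, g, h, rfl⟩ else 0)
    (fun _ v => by
      obtain ⟨v, a, ha, rfl⟩ := v
      exact ⟨a, ha, dif_pos ha⟩)
    (DP.of_iff (fun _ p => S.pr p.1 = 1 ∧ p.1 = p.2) (fun _ p => by
      constructor
      · rintro ⟨h1, h2, h3⟩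
        rw [dif_pos h1, dif_pos h2] at h3
        exact ⟨h1, S.der_inj (congrArg Subtype.val h3)⟩
      · rintro ⟨h1, h2⟩
        exact ⟨h1, h2 ▸ h1, by rw [h2]⟩) (by infer_instance))
  have hG : GrI c S := fun f g _ _ => DP.comp₂ (fun _ => S.Gr) (ht.congr fun _ p => by
    refine and_congr_right fun h => ?_
    rw [dif_pos h, Subtype.ext_iff]) f g
  refine ⟨t, hG, ⟨?_⟩, fun f g _ _ => DF.comp₂ (fun _ (q : Q) (v : S.V) => oo q • v) ?_ f g⟩
  · refine DF.of_graph _ (fun _ p => ∃ a b : G, S.Gr a p.1.1 ∧ S.Gr b p.1.2 ∧ S.Gr (a * b) p.2)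
      (fun _ p w => ?_) (by infer_instance)
    constructor
    · rintro rfl
      obtain ⟨a, ha, ea⟩ := p.1.2
      obtain ⟨b, hb, eb⟩ := p.2.2
      exact ⟨a, b, ⟨ha, ea⟩, ⟨hb, eb⟩, by rw [map_mul, ha, hb, mul_one],
        by rw [S.der_mul_ker ha, ea, eb]; rfl⟩
    · rintro ⟨a, b, ⟨ha, ea⟩, ⟨hb, eb⟩, -, e⟩
      apply Subtype.ext
      rw [S.der_mul_ker ha, ea, eb] at e
      exact e
  · refine DF.of_graph _ (fun _ p => ∃ g a : G, S.pr g = p.1.1 ∧ S.Gr a p.1.2 ∧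
      S.Gr (g * a * g⁻¹) p.2) (fun _ p w => ?_) (by infer_instance)
    constructor
    · rintro rfl
      obtain ⟨g, hg⟩ := S.surj p.1
      obtain ⟨a, ha, ea⟩ := p.2.2
      exact ⟨g, a, hg, ⟨ha, ea⟩, by simp [ha], by rw [S.der_conj g ha, ea, hg]; rfl⟩
    · rintro ⟨g, a, hg, ⟨ha, ea⟩, -, e⟩
      apply Subtype.ext
      rw [S.der_conj g ha, ea, hg] at e
      exact e

theorem V_dc [Srt c (fun _ => G)] [Srt c (fun _ => S.V)] (hG : GrI c S)
    (hc : ∀ g : G, DC c (fun _ => g)) (v : S.V) : DC c (fun _ => v) := by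
  obtain ⟨a, ha, ea⟩ := v.2
  exact DC.of_DP _ (fun _ z => S.Gr a z) (fun _ z =>
    ⟨fun e => e ▸ ⟨ha, ea⟩, fun e => Subtype.ext (e.2.symm.trans ea)⟩) (by infer_instance)

variable [Srt c (fun _ => ℕ)] [AddD c (fun _ => ℕ)] [MulD c (fun _ => ℕ)]

theorem nsmI [UniqueProds Q] (hQ : TF Q) [Srt c (fun _ => Q)] [Srt c (fun _ => S.V)]
    [AddD c (fun _ => S.V)] (hA : ActI c S) {z : Q} (hz : z ≠ 1) (hP : PzI c z) : NsmI c S := by
  obtain ⟨_, _, _, _⟩ := agI c (fun _ => S.V)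
  refine fun f g _ _ => DF.comp₂ (fun _ (n : ℕ) (v : S.V) => n • v) ?_ f g
  exact DF.of_graph _ (fun _ p => ∀ k : ℕ, 0 < k → ∃ w u : S.V,
      oo (z ^ (k * p.1.1)) • p.1.2 - p.1.2 = oo (z ^ k) • w - w ∧ w - p.2 = oo (z ^ k) • u - u)
    (fun _ p b => S.nsmul_iff hQ hz _ _ _) (by infer_instance)

theorem Coded.of_rel_uniq {X Y : Type} [Srt c (fun _ => X)] [Srt c (fun _ => Y)] [Coded c Y]
    (R : Y → X → Prop) (h : DP c (X := fun _ => Y × X) (fun _ p => R p.1 p.2))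
    (hs : ∀ x, ∃ y, R y x ∧ ∀ x', R y x' → x' = x) (x0 : X) : Coded c X :=
  Coded.of_rel (fun y v => Ap2 R y v ∧ ∀ v', Ap2 R y v' → v' = v) (by infer_instance)
    (fun _ _ _ h h' => h'.2 _ h.1) hs x0

instance Coded.pi {X : Type} [Srt c (fun _ => X)] [Coded c X] (k : ℕ) : Coded c (Fin k → X) :=
  Coded.of_surj (Y := List X) (fun l j => l.getD j (dcd c X 0)) (fun v => ⟨List.ofFn v, by
    funext j
    simp [List.getD_eq_getElem?_getD]⟩) (DF.pi _ fun _ => by infer_instance)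

theorem Rsum_dp [Srt c (fun _ => Q)] [MulD c (fun _ => Q)] [Coded c Q] [Srt c (fun _ => S.V)]
    [AddD c (fun _ => S.V)] (hA : ActI c S) (hN : NsmI c S) (k n : ℕ) :
    DP c (X := fun _ => List Q × S.V × S.V) (fun _ p => S.Rsum k n p.1 p.2.1 p.2.2) := by
  obtain ⟨_, _, _, _⟩ := agI c (fun _ => S.V)
  obtain ⟨_, _, _⟩ := grpI c (fun _ => Q)
  have : PowI c Q := powI c Q
  induction n with
  | zero =>
    have h1 := DF.recur (c := c) (Z := fun _ => List ℕ × ℕ) (X := ℕ)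
      (fun _ p j y => y + p.2 ^ p.1.getD j 0) (fun _ _ => 0) (fun n => n) (fun _ => le_rfl)
      (fun _ p t => ∑ j ∈ Finset.range t, p.2 ^ p.1.getD j 0) (by simp)
      (fun _ _ _ => Finset.sum_range_succ _ _) (by infer_instance) (by infer_instance) DF.id
    exact DP.of_iff (fun _ p => ∀ (g : Q) (N : List ℕ),
      (∀ j, j < p.1.length → p.1.getD j 1 = g ^ N.getD j 0) → ∀ m : ℕ, ∃ w : S.V,
        p.2.2 - (Ap2 (fun (p : List ℕ × ℕ) t => ∑ j ∈ Finset.range t, p.2 ^ p.1.getD j 0) (N, m)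
          p.1.length) • p.2.1 = oo g • w - m • w) (fun _ _ => by exact Iff.rfl) (by infer_instance)
  | succ n ih =>
    have h1 := DP.closure (c := c) (Z := fun _ => Fin k → Q) (fun _ h t => ∃ j, Ev h j = t)
      (by infer_instance)
    have h2 : DF c (X := fun _ => (Fin k → Q) × (Fin k → S.V))
        (fun _ p => ∑ j, (oo (p.1 j) • p.2 j - p.2 j)) :=
      DF.finSum (X := fun _ => (Fin k → Q) × (Fin k → S.V)) Finset.univ
        (fun j _ p => oo (Ev p.1 j) • Ev p.2 j - Ev p.2 j) fun _ => by infer_instance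
    exact DP.of_iff (fun _ p => ∀ (h : Fin k → Q) (l' : List Q), l'.length = p.1.length →
      (∀ j, j < p.1.length → Ap2 (fun (h : Fin k → Q) (q : Q) =>
        q ∈ Subgroup.closure {t | ∃ j, Ev h j = t}) h (p.1.getD j 1 * (l'.getD j 1)⁻¹)) →
      ∃ b', Ap3 (S.Rsum k n) l' p.2.1 b' ∧ ∃ w : Fin k → S.V, p.2.2 - b' =
        Ap2 (fun (h : Fin k → Q) (w : Fin k → S.V) => ∑ j, (oo (h j) • w j - w j)) h w)
      (fun _ _ => by exact Iff.rfl) (by infer_instance)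

theorem sm_df [Srt c (fun _ => Q)] [MulD c (fun _ => Q)] [Coded c Q] [Srt c (fun _ => S.V)]
    [AddD c (fun _ => S.V)] (hA : ActI c S) (hN : NsmI c S) {k n : ℕ}
    (hR : Red k n (Set.univ : Set Q)) :
    DF c (X := fun _ => List Q × S.V) (fun _ p => sm p.1 • p.2) := by
  have := Rsum_dp S hA hN k n
  exact DF.of_graph _ (fun _ p => Ap3 (S.Rsum k n) p.1.1 p.1.2 p.2) (fun _ p b =>
    ⟨fun e => e ▸ S.Rsum_sound k n _ _,
      S.Rsum_complete k n _ hR _ (fun _ _ => Set.mem_univ _) _ _⟩) (by infer_instance)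

theorem coded_V [UniqueProds Q] [Srt c (fun _ => Q)] [Coded c Q] [Srt c (fun _ => S.V)]
    [AddD c (fun _ => S.V)] (hs : DF c (X := fun _ => List Q × S.V) (fun _ p => sm p.1 • p.2))
    (hV : ∀ v : S.V, DC c (fun _ => v)) (b : Fin r → S.V)
    (hb : ∀ v : S.V, ∃ (s : ZG Q) (ρ : Fin r → ZG Q), s ≠ 0 ∧ s • v = ∑ i, ρ i • b i) :
    Coded c S.V := by
  obtain ⟨_, _, _, _⟩ := agI c (fun _ => S.V)
  have h1 : DF c (X := fun _ => (Fin r → List Q) × (Fin r → List Q))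
      (fun _ p => ∑ j, (sm (p.1 j) • b j - sm (p.2 j) • b j)) :=
    DF.finSum (X := fun _ => (Fin r → List Q) × (Fin r → List Q)) Finset.univ
      (fun j _ p => Ap2 (fun (l : List Q) (v : S.V) => sm l • v) (Ev p.1 j) (b j) -
        Ap2 (fun (l : List Q) (v : S.V) => sm l • v) (Ev p.2 j) (b j)) fun _ => by infer_instance
  let R : (List Q × List Q) × (Fin r → List Q) × (Fin r → List Q) → S.V → Prop := fun y v =>
    sm y.1.1 • v - sm y.1.2 • v = ∑ j, (sm (y.2.1 j) • b j - sm (y.2.2 j) • b j)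
  have h2 : DP c (X := fun _ => ((List Q × List Q) × (Fin r → List Q) × (Fin r → List Q)) × S.V)
      (fun _ p => R p.1 p.2) :=
    DP.of_iff (fun _ p => Ap2 (fun (l : List Q) (v : S.V) => sm l • v) p.1.1.1 p.2 -
      Ap2 (fun (l : List Q) (v : S.V) => sm l • v) p.1.1.2 p.2 =
      Ap2 (fun (u v : Fin r → List Q) => ∑ j, (sm (u j) • b j - sm (v j) • b j)) p.1.2.1 p.1.2.2)
      (fun _ _ => by exact Iff.rfl) (by infer_instance)
  refine Coded.of_rel_uniq R h2 (fun v => ?_) 0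
  obtain ⟨s, ρ, hs0, e⟩ := hb v
  obtain ⟨l, l', rfl⟩ := exists_sm s
  choose u u' hu using fun i => exists_sm (ρ i)
  have key : ∀ w, R ((l, l'), u, u') w ↔ (sm l - sm l') • w = ∑ i, ρ i • b i := fun w => by
    simp only [R, hu, S.V_sub_smul]
  refine ⟨((l, l'), u, u'), (key v).2 e, fun v' hv' => ?_⟩
  have h3 := (key v').1 hv'
  rw [← e, ← sub_eq_zero] at h3
  exact sub_eq_zero.1 ((S.V_smul_eq_zero ((smul_sub _ _ _).trans h3)).resolve_left hs0)

/-- The coding step. -/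
theorem coded_step [UniqueProds Q] (hQ : TF Q) [Srt c (fun _ => G)] [Srt c (fun _ => Q)]
    [MulD c (fun _ => G)] [MulD c (fun _ => Q)] [Coded c Q] (hpr : HomI c S.pr)
    (hc : ∀ g : G, DC c (fun _ => g)) {k n : ℕ} (hR : Red k n (Set.univ : Set Q))
    (C : Subgroup Q) [C.Normal] (hC : ∀ a ∈ C, ∀ b ∈ C, a * b = b * a) {e : Q} (he : e ∈ C)
    (he1 : e ≠ 1) : Coded c G := by
  obtain ⟨_, hG, _, hA⟩ := exists_V (c := c) S hpr
  obtain ⟨_, _, _⟩ := grpI c (fun _ => G)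
  have hp : PowI c Q := powI c Q
  have hN : NsmI c S := nsmI S hQ hA he1 (fun f _ => by infer_instance)
  obtain ⟨e, rfl⟩ := S.surj e
  obtain ⟨b, hb⟩ := S.ore C hC he he1
  have := coded_V S (sm_df S hA hN hR) (V_dc S hG hc) b hb
  refine Coded.of_rel (Y := Q × S.V) (fun y g => S.pr g = y.1 ∧
    S.Gr ((g * e * g⁻¹ * e⁻¹) * e * (g * e * g⁻¹ * e⁻¹)⁻¹ * e⁻¹) y.2) ?_
    (fun y g g' h h' => S.cc_inj C hC he he1 (h.1.trans h'.1.symm) (h.2.2.trans h'.2.2.symm))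
    (fun g => ?_) 1
  · have : DC c (fun _ => e⁻¹) := hc _
    infer_instance
  · obtain ⟨τ, hτ⟩ := S.der_cc C hC he
    exact ⟨(S.pr g, ⟨_, MS.cc e g, (hτ g).1, rfl⟩), rfl, (hτ g).1, rfl⟩

end Pool.Agent.H259Z.Rich
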