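import Pool.Agent.H259Z.Rich.Arith

/-! Words, and a formula isolating generating tuples. -/

set_option autoImplicit false
set_option linter.unusedSectionVars false
set_option synthInstance.maxSize 100000

namespace Pool.Agent.H259Z.Rich

open FirstOrder FirstOrder.Language

section Words

variable {G : Type} [Group G] {r : ℕ}

/-- The letter with number `t`. -/
def letter (x : Fin r → G) (t : ℕ) : G :=
  if h : t < r then x ⟨t, h⟩ else if h' : t - r < r then (x ⟨t - r, h'⟩)⁻¹ else 1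

/-- The value of the word with number `n`. -/
def wd (x : Fin r → G) : ℕ → G
  | 0 => 1
  | k + 1 => letter x (k % (2 * r)) * wd x (k / (2 * r))
decreasing_by exact Nat.lt_succ_of_le (Nat.div_le_self _ _)

theorem wd_zero (x : Fin r → G) : wd x 0 = 1 := by rw [wd]

theorem wd_succ (x : Fin r → G) (k : ℕ) :
    wd x (k + 1) = letter x (k % (2 * r)) * wd x (k / (2 * r)) := by rw [wd]

theorem letter_lt (x : Fin r → G) (i : Fin r) : letter x i = x i := by simp [letter]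

theorem letter_ge (x : Fin r → G) (i : Fin r) : letter x (i + r) = (x i)⁻¹ := by simp [letter]

theorem letter_iff (x : Fin r → G) (t : ℕ) (g : G) : letter x t = g ↔
    (∃ i : Fin r, t = i ∧ g = x i) ∨ (∃ i : Fin r, t = i + r ∧ g = (x i)⁻¹) ∨
      (2 * r ≤ t ∧ g = 1) := by
  constructor
  · rintro rfl
    by_cases h : t < r
    · exact Or.inl ⟨⟨t, h⟩, rfl, by simp [letter, h]⟩
    · by_cases h' : t - r < r
      · exact Or.inr (Or.inl ⟨⟨t - r, h'⟩, by simp; omega, by simp [letter, h, h']⟩)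
      · exact Or.inr (Or.inr ⟨by omega, by simp [letter, h, h']⟩)
  · rintro (⟨i, rfl, rfl⟩ | ⟨i, rfl, rfl⟩ | ⟨h, rfl⟩)
    · exact letter_lt x i
    · exact letter_ge x i
    · rw [letter, dif_neg (by omega), dif_neg (by omega)]

theorem wd_cons (x : Fin r → G) (n t : ℕ) (ht : t < 2 * r) :
    wd x (n * (2 * r) + t + 1) = letter x t * wd x n := by
  rw [wd_succ, Nat.mul_add_mod_of_lt ht, add_comm, Nat.add_mul_div_right _ _ (by omega),
    Nat.div_eq_of_lt ht, zero_add]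

theorem wd_surj (x : Fin r → G) (hx : Subgroup.closure (Set.range x) = ⊤) :
    Function.Surjective (wd x) := by
  intro g
  have hg : g ∈ Subgroup.closure (Set.range x) := by rw [hx]; trivial
  induction hg using Subgroup.closure_induction_left with
  | one => exact ⟨0, wd_zero x⟩
  | mul_left y hy _ _ ih =>
    obtain ⟨i, rfl⟩ := hy
    obtain ⟨n, rfl⟩ := ih
    exact ⟨_, by rw [wd_cons x n i (by omega), letter_lt]⟩
  | inv_mul_cancel y hy _ _ ih =>
    obtain ⟨i, rfl⟩ := hy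
    obtain ⟨n, rfl⟩ := ih
    exact ⟨_, by rw [wd_cons x n (i + r) (by omega), letter_ge]⟩

theorem map_wd {H : Type} [Group H] (f : G →* H) (x : Fin r → G) (n : ℕ) :
    f (wd x n) = wd (fun i => f (x i)) n := by
  induction n using Nat.strong_induction_on with
  | _ n ih =>
    rcases n with _ | n
    · rw [wd_zero, wd_zero, map_one]
    · rw [wd_succ, wd_succ, map_mul, ih _ (Nat.lt_succ_of_le (Nat.div_le_self _ _))]
      congr 1
      unfold letter
      split_ifs <;> simp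

/-- The axioms of a rank relation. -/
def Ax (B : G → G → Prop) (y : Fin r → G) (y0 : G) : Prop :=
  (∃ g, y0 * (g * y0 * g⁻¹) ≠ (g * y0 * g⁻¹) * y0) ∧ (∀ g, ∃ h, y0 * h = h * y0 ∧ B g h) ∧
  (∀ g h, B g h → g = 1 ∨ ∃ j, B ((y j)⁻¹ * g) (h * y0⁻¹) ∨ B (y j * g) (h * y0⁻¹)) ∧
  (∀ g h, B g h → B 1 h) ∧ (∀ h h', B 1 h → B 1 h' → B 1 (h * h')) ∧ B 1 y0 ∧ ¬ B 1 y0⁻¹

theorem Ax.gen {Q : Type} [Group Q] [UniqueProds Q] (hQ : TF Q) {r' : ℕ} (S : MS r' G Q)
    {B : G → G → Prop} {y : Fin r → G} {y0 : G} (h : Ax B y y0) :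
    Subgroup.closure (Set.range y) = ⊤ := by
  obtain ⟨⟨g0, a0⟩, a1, a2, a3, a4, a5, a6⟩ := h
  have hy : S.pr y0 ≠ 1 := fun e => a0 (S.ker_comm e (by simp [e]))
  rw [eq_top_iff]
  intro g _
  by_contra hg
  obtain ⟨h, hc, hB⟩ := a1 g
  have b1 : ∀ n : ℕ, ∃ g', g' ∉ Subgroup.closure (Set.range y) ∧ B g' (h * (y0 ^ n)⁻¹) := by
    intro n
    induction n with
    | zero => exact ⟨g, hg, by simpa using hB⟩
    | succ n ih =>
      obtain ⟨g', h1, h2⟩ := ih
      have e : h * (y0 ^ (n + 1))⁻¹ = h * (y0 ^ n)⁻¹ * y0⁻¹ := by rw [pow_succ']; group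
      rcases a2 _ _ h2 with rfl | ⟨j, h3 | h3⟩
      · exact (h1 (one_mem _)).elim
      · refine ⟨_, fun h4 => h1 ?_, e ▸ h3⟩
        simpa using mul_mem (Subgroup.subset_closure (Set.mem_range_self j)) h4
      · refine ⟨_, fun h4 => h1 ?_, e ▸ h3⟩
        simpa using mul_mem (inv_mem (Subgroup.subset_closure (Set.mem_range_self j))) h4
  have b2 : ∀ u, B 1 u → ∀ k : ℕ, B 1 (u ^ (k + 1)) := by
    intro u hu k
    induction k with
    | zero => simpa using hu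
    | succ k ih => rw [pow_succ]; exact a4 _ _ ih hu
  have b3 : ∀ t : ℕ, ¬ B 1 (y0 ^ (t + 1))⁻¹ := by
    intro t
    induction t with
    | zero => simpa using a6
    | succ t ih =>
      intro h1
      apply ih
      have := a4 _ _ h1 a5
      rwa [pow_succ' y0 (t + 1), mul_inv_rev, mul_assoc, inv_mul_cancel, mul_one] at this
  obtain ⟨k, j, hk, e⟩ := S.cent hQ hy hc
  obtain ⟨k, rfl⟩ := Nat.exists_eq_succ_of_ne_zero hk
  obtain ⟨g', -, h2⟩ := b1 (j.natAbs + 1)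
  have h3 := b2 _ (a3 _ _ h2) k
  have hcm : Commute h (y0 ^ (j.natAbs + 1))⁻¹ :=
    ((show Commute h y0 from hc.symm).pow_right _).inv_right
  obtain ⟨t, ht⟩ : ∃ t : ℕ, ((j.natAbs + 1) * (k + 1) : ℕ) - j = ((t + 1 : ℕ) : ℤ) :=
    ⟨(((j.natAbs + 1) * (k + 1) : ℕ) - j - 1 : ℤ).toNat, by
      have : 0 ≤ (j.natAbs + 1 : ℤ) * k := by positivity
      push_cast
      rw [Int.toNat_of_nonneg]
      · ring
      · have := le_abs_self j
        nlinarith [abs_nonneg j]⟩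
  apply b3 t
  rwa [hcm.mul_pow, e, inv_pow, ← pow_mul, ← zpow_natCast y0, ← zpow_sub, ← neg_sub, zpow_neg, ht,
    zpow_natCast] at h3

/-- The rank relation of the generators. -/
def Ball (x : Fin r → G) (x0 : G) (g h : G) : Prop := ∃ n : ℕ, h = x0 ^ n ∧ ∃ k, k ≤ n ∧ wd x k = g

theorem ax_ball {Q : Type} [Group Q] [UniqueProds Q] (hQ : TF Q) (S : MS r G Q) {i0 : Fin r}
    (hi : S.pr (S.x i0) ≠ 1) {a : G} (ha : S.pr a = 1) (ha1 : a ≠ 1) :
    Ax (Ball S.x (S.x i0)) S.x (S.x i0) := by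
  have hx : S.x i0 ≠ 1 := fun e => hi (by rw [e, map_one])
  refine ⟨⟨a, fun e => ha1 (S.ker_fix hi ha ?_)⟩, fun g => ?_, ?_, ?_, ?_, ?_, ?_⟩
  · have h1 := S.ker_fix hi (a := a * S.x i0 * a⁻¹ * (S.x i0)⁻¹) (by simp [ha])
      (by rw [← mul_assoc, e]; group)
    rw [mul_inv_eq_one, mul_inv_eq_iff_eq_mul] at h1
    exact h1.symm
  · obtain ⟨n, rfl⟩ := wd_surj _ S.gen g
    exact ⟨_, ((Commute.refl _).pow_right n).eq, n, rfl, n, le_rfl, rfl⟩
  · rintro _ _ ⟨n, rfl, k, hk, rfl⟩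
    rcases k with _ | k
    · exact Or.inl (wd_zero _)
    · obtain ⟨n, rfl⟩ : ∃ m, n = m + 1 := ⟨n - 1, by omega⟩
      have h1 : k / (2 * r) ≤ n := (Nat.div_le_self _ _).trans (by omega)
      have h2 := Nat.mod_lt k (show 0 < 2 * r by have := i0.2; omega)
      rw [wd_succ]
      rcases (letter_iff S.x (k % (2 * r)) _).1 rfl with ⟨i, -, e⟩ | ⟨i, -, e⟩ | ⟨h, -⟩
      · exact Or.inr ⟨i, Or.inl ⟨n, by rw [pow_succ]; group, _, h1, by rw [e]; group⟩⟩
      · exact Or.inr ⟨i, Or.inr ⟨n, by rw [pow_succ]; group, _, h1, by rw [e]; group⟩⟩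
      · omega
  · rintro _ _ ⟨n, rfl, -⟩
    exact ⟨n, rfl, 0, Nat.zero_le _, wd_zero _⟩
  · rintro _ _ ⟨n, rfl, -⟩ ⟨m, rfl, -⟩
    exact ⟨n + m, (pow_add _ _ _).symm, 0, Nat.zero_le _, wd_zero _⟩
  · exact ⟨1, (pow_one _).symm, 0, Nat.zero_le _, wd_zero _⟩
  · rintro ⟨n, e, -⟩
    have := (S.tf hQ).zpow_inj hx (n := -1) (m := n) (by rw [zpow_neg_one, zpow_natCast, e])
    omega

end Words

variable {L : FirstOrder.Language.{0, 0}}

section Carrier

variable {c : Ctx L}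

theorem DP.formula {ι : Type} [Finite ι] (φ : L.Formula ι) :
    @DP L c (fun i => ι → c.M i) (piSrt (s := carrierSrt c)) (fun _ v => φ.Realize v) :=
  @DP.mk L c _ (piSrt (s := carrierSrt c)) _
    (((UD.formula φ).comap (fun a => (a, ()))).congr fun _ _ =>
      ⟨fun h => ⟨fun _ => trivial, h⟩, fun h => h.2⟩)

theorem DC.par (b : c.B) : @DC L c c.M (carrierSrt c) (fun i => c.par i b) :=
  @DC.mk L c _ (carrierSrt c) _ (@DP.mk L c _ (carrierSrt c) _
    ((UD.eq_par () b).congr fun _ _ => ⟨fun h => ⟨trivial, h⟩, fun h => h.2⟩))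

theorem DP.extract {ι : Type} [Finite ι] {P : ∀ i, (ι → c.M i) → Prop}
    (h : @DP L c (fun i => ι → c.M i) (piSrt (s := carrierSrt c)) P) :
    ∃ φ : L.Formula (c.B ⊕ ι), ∀ i v, φ.Realize (Sum.elim (c.par i) v) ↔ P i v :=
  ((@DP.out L c _ (piSrt (s := carrierSrt c)) _ h).comap Prod.fst).congr fun _ _ =>
    ⟨fun h => h.2, fun h => ⟨fun _ => trivial, h⟩⟩

theorem DF.vec3 {X Y : c.I → Type} [Srt c X] [Srt c Y] (f g h : ∀ i, X i → Y i) [hf : DF c f]
    [hg : DF c g] [hh : DF c h] :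
    DF c (Y := fun i => Fin 3 → Y i) (fun i x => ![f i x, g i x, h i x]) :=
  DF.pi _ fun a => by
    fin_cases a
    · exact hf
    · exact hg
    · exact hh

theorem mulD_of_formula [∀ i, Mul (c.M i)] (μ : L.Formula (Fin 3))
    (hμ : ∀ i (v : Fin 3 → c.M i), μ.Realize v ↔ v 0 * v 1 = v 2) :
    @MulD L c c.M (carrierSrt c) _ := by
  let _ := carrierSrt c
  have h1 := DP.formula (c := c) μ
  have h2 := DF.vec3 (c := c) (X := fun i => (c.M i × c.M i) × c.M i) (fun _ p => p.1.1)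
    (fun _ p => p.1.2) (fun _ p => p.2)
  exact ⟨⟨(DP.comp (fun i (v : Fin 3 → c.M i) => μ.Realize v)
    (fun _ (p : (c.M _ × c.M _) × c.M _) => ![p.1.1, p.1.2, p.2])).congr fun i p => hμ i _⟩⟩

theorem addD_of_formula [∀ i, Add (c.M i)] (μ : L.Formula (Fin 3))
    (hμ : ∀ i (v : Fin 3 → c.M i), μ.Realize v ↔ v 0 + v 1 = v 2) :
    @AddD L c c.M (carrierSrt c) _ := by
  let _ := carrierSrt c
  have h1 := DP.formula (c := c) μ
  have h2 := DF.vec3 (c := c) (X := fun i => (c.M i × c.M i) × c.M i) (fun _ p => p.1.1)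
    (fun _ p => p.1.2) (fun _ p => p.2)
  exact ⟨⟨(DP.comp (fun i (v : Fin 3 → c.M i) => μ.Realize v)
    (fun _ (p : (c.M _ × c.M _) × c.M _) => ![p.1.1, p.1.2, p.2])).congr fun i p => hμ i _⟩⟩

theorem DF.elim {X Y : c.I → Type} [Srt c X] [Srt c Y] {ι κ : Type} [Finite ι] [Finite κ]
    (f : ∀ i, X i → ι → Y i) (g : ∀ i, X i → κ → Y i) [DF c (Y := fun i => ι → Y i) f]
    [DF c (Y := fun i => κ → Y i) g] :
    DF c (Y := fun i => ι ⊕ κ → Y i) (fun i x => Sum.elim (f i x) (g i x)) :=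
  DF.pi _ fun a => by
    rcases a with a | a
    · exact DF.eval a f
    · exact DF.eval a g

theorem DF.vec2 {X Y : c.I → Type} [Srt c X] [Srt c Y] (f g : ∀ i, X i → Y i) [hf : DF c f]
    [hg : DF c g] : DF c (Y := fun i => Fin 2 → Y i) (fun i x => ![f i x, g i x]) :=
  DF.pi _ fun a => by
    fin_cases a
    · exact hf
    · exact hg

theorem letter_df [Srt c (fun _ => ℕ)] [AddD c (fun _ => ℕ)] [MulD c (fun _ => ℕ)]
    {Y : c.I → Type} [Srt c Y] [∀ i, Group (Y i)] [MulD c Y] {r : ℕ} (x : ∀ i, Fin r → Y i)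
    (hx : ∀ j, DC c (fun i => x i j)) : DF c (X := fun _ => ℕ) (fun i t => letter (x i) t) := by
  obtain ⟨_, _, _⟩ := grpI c Y
  have : ∀ j, DC c (fun i => (x i j)⁻¹) := fun j => DC.inv _
  exact DF.of_graph _ (fun i p => (∃ j : Fin r, p.1 = j ∧ p.2 = x i j) ∨
    (∃ j : Fin r, p.1 = j + r ∧ p.2 = (x i j)⁻¹) ∨ (2 * r ≤ p.1 ∧ p.2 = 1))
    (fun i t g => letter_iff _ _ _) (by infer_instance)

theorem wd_df [Srt c (fun _ => ℕ)] [AddD c (fun _ => ℕ)] [MulD c (fun _ => ℕ)]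
    {G : Type} [Srt c (fun _ => G)] [Group G] [MulD c (fun _ => G)] [Coded c G] {r : ℕ}
    (x : Fin r → G) : DF c (X := fun _ => ℕ) (fun _ n => wd x n) := by
  obtain ⟨_, _, _⟩ := grpI c (fun _ => G)
  have h1 := letter_df (c := c) (fun _ => x) (fun _ => inferInstance)
  have h2 := DF.recur (c := c) (Z := fun _ => ℕ) (fun _ _ k y => Ap (letter x) (k % (2 * r)) * y)
    (fun _ _ => 1) (fun k => k / (2 * r)) (fun _ => Nat.div_le_self _ _) (fun _ _ n => wd x n)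
    (fun _ _ => wd_zero x) (fun _ _ => wd_succ x) (by infer_instance) (by infer_instance)
    (by infer_instance)
  exact DF.comp₂ (fun _ (_ n : ℕ) => wd x n) h2 (fun _ n => n) (fun _ n => n)

end Carrier

/-- The context of a single structure with parameters. -/
@[reducible] def ctxS (L : FirstOrder.Language.{0, 0}) (M : Type) [s : L.Structure M] {B : Type}
    (par : B → M) : Ctx L := ⟨PUnit, fun _ => M, fun _ => s, B, fun _ => par⟩

instance ctxS_srt (M : Type) [L.Structure M] {B : Type} (par : B → M) :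
    Srt (ctxS L M par) (fun _ => M) := carrierSrt _

theorem extract0 {M : Type} [L.Structure M] {ι : Type} [Finite ι] {P : (ι → M) → Prop}
    (h : DP (ctxS L M Empty.elim) (X := fun _ => ι → M) (fun _ v => P v)) :
    ∃ φ : L.Formula ι, ∀ v, φ.Realize v ↔ P v := by
  obtain ⟨φ, hφ⟩ := DP.extract h
  refine ⟨φ.relabel (Sum.elim Empty.elim id), fun v => ?_⟩
  rw [Formula.realize_relabel, ← hφ PUnit.unit v]
  congr! 1
  funext a
  rcases a with a | a
  · exact a.elim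
  · rfl

theorem exists_theta {r : ℕ} (hr : 2 ≤ r) (d : ℕ) [L.Structure (FS r (d + 2))]
    (μ : L.Formula (Fin 3)) (hμ : ∀ v : Fin 3 → FS r (d + 2), μ.Realize v ↔ v 0 * v 1 = v 2) :
    ∃ θ : L.Formula (Fin r), θ.Realize (gx r (d + 2)) ∧
      ∀ y : Fin r → FS r (d + 2), θ.Realize y → Subgroup.closure (Set.range y) = ⊤ := by
  let i0 : Fin r := ⟨0, by omega⟩
  obtain ⟨φ, hφ⟩ : ∃ φ : L.Formula (Fin r ⊕ Fin 2), ∀ v : Fin 2 → FS r (d + 2),
      φ.Realize (Sum.elim (gx r (d + 2)) v) ↔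
        Ball (gx r (d + 2)) (gx r (d + 2) i0) (v 0) (v 1) := by
    let c := ctxS L (FS r (d + 2)) (gx r (d + 2))
    have : MulD c (fun _ => FS r (d + 2)) := mulD_of_formula μ fun _ => hμ
    have hc : ∀ g : FS r (d + 2), DC c (fun _ => g) := fun g =>
      DC.of_closure (T := Set.range (gx r (d + 2))) (by rintro _ ⟨j, rfl⟩; exact DC.par (c := c) j)
        (by rw [gx_gen]; trivial)
    obtain ⟨_, _, _, _⟩ := coded_fs hr d hc
    have : PowI c (FS r (d + 2)) := powI c _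
    have := wd_df (c := c) (gx r (d + 2))
    have h1 : DP c (X := fun _ => Fin 2 → FS r (d + 2))
        (fun _ v => Ball (gx r (d + 2)) (gx r (d + 2) i0) (v 0) (v 1)) :=
      DP.of_iff (fun _ v => ∃ n : ℕ, Ev v 1 = gx r (d + 2) i0 ^ n ∧
        ∃ k, k ≤ n ∧ Ap (wd (gx r (d + 2))) k = Ev v 0) (fun _ _ => by exact Iff.rfl)
        (by infer_instance)
    obtain ⟨φ, hφ⟩ := DP.extract h1
    exact ⟨φ, hφ PUnit.unit⟩
  let B : (Fin r → FS r (d + 2)) → FS r (d + 2) → FS r (d + 2) → Prop :=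
    fun y g h => φ.Realize (Sum.elim y ![g, h])
  let c := ctxS L (FS r (d + 2)) Empty.elim
  have : MulD c (fun _ => FS r (d + 2)) := mulD_of_formula μ fun _ => hμ
  obtain ⟨_, _, _⟩ := grpI c (fun _ => FS r (d + 2))
  have h1 : DP c (X := fun _ => (Fin r → FS r (d + 2)) × FS r (d + 2) × FS r (d + 2))
      (fun _ p => B p.1 p.2.1 p.2.2) := by
    have a1 := DF.vec2 (c := c)
      (X := fun _ => (Fin r → FS r (d + 2)) × FS r (d + 2) × FS r (d + 2))
      (fun _ p => p.2.1) (fun _ p => p.2.2)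
    have a2 := DF.elim (c := c)
      (X := fun _ => (Fin r → FS r (d + 2)) × FS r (d + 2) × FS r (d + 2))
      (fun _ p => p.1) (fun _ p => ![p.2.1, p.2.2])
    exact DP.comp (fun _ (v : Fin r ⊕ Fin 2 → FS r (d + 2)) => φ.Realize v)
      (hP := DP.formula (c := c) φ) _ (hf := a2)
  have h2 : DP c (X := fun _ => Fin r → FS r (d + 2)) (fun _ y => Ax (B y) y (y i0)) :=
    DP.of_iff (fun _ y =>
      (∃ g, Ev y i0 * (g * Ev y i0 * g⁻¹) ≠ (g * Ev y i0 * g⁻¹) * Ev y i0) ∧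
      (∀ g, ∃ h, Ev y i0 * h = h * Ev y i0 ∧ Ap3 B y g h) ∧
      (∀ g h, Ap3 B y g h → g = 1 ∨ ∃ j, Ap3 B y ((Ev y j)⁻¹ * g) (h * (Ev y i0)⁻¹) ∨
        Ap3 B y (Ev y j * g) (h * (Ev y i0)⁻¹)) ∧
      (∀ g h, Ap3 B y g h → Ap3 B y 1 h) ∧
      (∀ h h', Ap3 B y 1 h → Ap3 B y 1 h' → Ap3 B y 1 (h * h')) ∧ Ap3 B y 1 (Ev y i0) ∧
      ¬ Ap3 B y 1 (Ev y i0)⁻¹) (fun _ _ => by exact Iff.rfl) (by infer_instance)
  obtain ⟨θ, hθ⟩ := extract0 h2
  refine ⟨θ, (hθ _).2 ?_, fun y hy => ((hθ y).1 hy).gen (fs_tf _ _) (msd r (d + 1))⟩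
  obtain ⟨a, ha, ha1⟩ := ker_nontriv r hr (d + 1)
  have e : B (gx r (d + 2)) = Ball (gx r (d + 2)) (gx r (d + 2) i0) := by
    funext g h
    exact propext (hφ ![g, h])
  rw [e]
  exact ax_ball (fs_tf _ _) (msd r (d + 1)) (gx_ne_one r d i0) ha ha1

theorem exists_psi {r d : ℕ} [L.Structure (FS r d)]
    (μ : L.Formula (Fin 3)) (hμ : ∀ v : Fin 3 → FS r d, μ.Realize v ↔ v 0 * v 1 = v 2)
    {ι : Type} [Finite ι] (u : ι → FS r d) :
    ∃ ψ : L.Formula (Fin r ⊕ ι), ∀ v, ψ.Realize (Sum.elim (gx r d) v) ↔ v = u := by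
  let c := ctxS L (FS r d) (gx r d)
  have : MulD c (fun _ => FS r d) := mulD_of_formula μ fun _ => hμ
  have hc : ∀ g : FS r d, DC c (fun _ => g) := fun g =>
    DC.of_closure (T := Set.range (gx r d)) (by rintro _ ⟨j, rfl⟩; exact DC.par (c := c) j)
      (by rw [gx_gen]; trivial)
  have h1 : DP c (X := fun _ => ι → FS r d) (fun _ v => v = u) :=
    DP.of_iff (fun _ v => ∀ j, Ev v j = u j) (fun _ _ => funext_iff) (by infer_instance)
  obtain ⟨φ, hφ⟩ := DP.extract h1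
  exact ⟨φ, hφ PUnit.unit⟩

end Pool.Agent.H259Z.Rich
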