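import Pool.Agent.H259Z.Rich.MS
import Pool.Agent.Helper777.Prof.P_rf_dq

/-! The tower of free solvable groups. -/

set_option autoImplicit false
set_option linter.unusedSectionVars false

namespace Pool.Agent.H259Z.Rich

open Pool.Agent.Helper777.Prof (Dq pn mag Wr dq_embed mag_m rf_dq RF0)

/-- Generated by `k` elements. -/
def GenLe {Q : Type} [Group Q] (k : ℕ) (H : Subgroup Q) : Prop :=
  ∃ h : Fin k → Q, Subgroup.closure (Set.range h) = H

/-- Reduction in `n` steps, modulo `k`-generated subgroups avoiding a given finite set, to the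
powers of one element. -/
def Red {Q : Type} [Group Q] (k : ℕ) : ℕ → Set Q → Prop
  | 0, Y => ∃ g, ∀ q ∈ Y, ∃ j : ℕ, q = g ^ j
  | n + 1, Y => ∀ T : Finset Q, (1 : Q) ∉ T → ∀ Λ : Finset Q, (∀ q ∈ Λ, q ∈ Y) →
      ∃ H : Subgroup Q, GenLe k H ∧ (∀ s ∈ T, s ∉ H) ∧
        ∃ Y' : Set Q, Red k n Y' ∧ ∀ q ∈ Λ, ∃ y ∈ Y', q * y⁻¹ ∈ H

/-- The free solvable group of rank `r` and derived length `d`. -/
abbrev FS (r d : ℕ) : Type := Dq (Fin r) d

/-- The generators. -/
def gx (r d : ℕ) (i : Fin r) : FS r d := pn _ d (FreeGroup.of i)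

theorem pn_surj (r d : ℕ) : Function.Surjective (pn (Fin r) d) := QuotientGroup.mk'_surjective _

theorem gx_gen (r d : ℕ) : Subgroup.closure (Set.range (gx r d)) = ⊤ := by
  have : Set.range (gx r d) = pn (Fin r) d '' Set.range FreeGroup.of := by
    rw [← Set.range_comp]; rfl
  rw [this, ← MonoidHom.map_closure, FreeGroup.closure_range_of,
    Subgroup.map_top_of_surjective _ (pn_surj r d)]

/-- The projection from level `d + 1` to level `d`. -/
def prj (r d : ℕ) : FS r (d + 1) →* FS r d :=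
  QuotientGroup.map _ _ (MonoidHom.id _) (derivedSeries_antitone _ (Nat.le_succ d))

theorem prj_pn (r d : ℕ) (w : FreeGroup (Fin r)) : prj r d (pn _ (d + 1) w) = pn _ d w := rfl

/-- The Magnus structure of a free solvable group. -/
noncomputable def msd (r d : ℕ) : MS r (FS r (d + 1)) (FS r d) where
  pr := prj r d
  surj q := by
    obtain ⟨w, rfl⟩ := pn_surj r d q
    exact ⟨pn _ _ w, rfl⟩
  x := gx r (d + 1)
  gen := gx_gen r (d + 1)
  der g := ((dq_embed (ι := Fin r) d).choose g).v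
  der_mul a b := by
    obtain ⟨w, rfl⟩ := pn_surj r _ a
    rw [map_mul, Wr.mul_v, (dq_embed (ι := Fin r) d).choose_spec.2 w, mag_m]
    rfl
  der_x i := by
    rw [gx, (dq_embed (ι := Fin r) d).choose_spec.2]
    simp [mag]
  inj0 g hg hp := by
    obtain ⟨w, rfl⟩ := pn_surj r _ g
    apply (dq_embed (ι := Fin r) d).choose_spec.1
    rw [map_one]
    refine Wr.ext hg ?_
    rw [(dq_embed (ι := Fin r) d).choose_spec.2, mag_m]
    exact hp

theorem msd_x (r d : ℕ) (i : Fin r) : (msd r d).x i = gx r (d + 1) i := rfl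

theorem msd_pr (r d : ℕ) : (msd r d).pr = prj r d := rfl

theorem prj_gx (r d : ℕ) (i : Fin r) : prj r d (gx r (d + 1) i) = gx r d i := rfl

instance (r : ℕ) : Subsingleton (FS r 0) := by
  refine ⟨fun a b => ?_⟩
  obtain ⟨u, rfl⟩ := pn_surj r 0 a
  obtain ⟨v, rfl⟩ := pn_surj r 0 b
  exact QuotientGroup.eq.2 (Subgroup.mem_top _)

instance fs_up (r : ℕ) : ∀ d, UniqueProds (FS r d)
  | 0 => ⟨fun {_ _} ⟨a, ha⟩ ⟨b, hb⟩ => ⟨a, ha, b, hb, fun _ _ _ _ _ =>
      ⟨Subsingleton.elim _ _, Subsingleton.elim _ _⟩⟩⟩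
  | d + 1 => @MS.up _ _ _ _ _ (msd r d) (fs_up r d)

theorem fs_tf (r : ℕ) : ∀ d, TF (FS r d)
  | 0 => fun _ _ _ _ => Subsingleton.elim _ _
  | d + 1 => (msd r d).tf (fs_tf r d)

theorem MS.x_ne_one {r : ℕ} {G Q : Type} [Group G] [Group Q] (S : MS r G Q) (i : Fin r) :
    S.x i ≠ 1 := by
  intro h
  have := S.dg_x i i
  rw [h, S.dg_one, if_pos rfl] at this
  exact zero_ne_one this

theorem gx_ne_one (r d : ℕ) (i : Fin r) : gx r (d + 1) i ≠ 1 := (msd r d).x_ne_one i

theorem dg_prj (r d : ℕ) (i : Fin r) (g : FS r (d + 2)) :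
    (msd r d).dg i (prj r (d + 1) g) = (msd r (d + 1)).dg i g := by
  induction g using (msd r (d + 1)).induction with
  | h1 => rw [map_one, MS.dg_one, MS.dg_one]
  | hx j => rw [MS.dg_x, msd_x, prj_gx, ← msd_x, MS.dg_x]
  | hm a b ha hb => rw [map_mul, MS.dg_mul, MS.dg_mul, ha, hb]
  | hi a ha => rw [map_inv, MS.dg_inv, MS.dg_inv, ha]

/-- The kernel at each level is nontrivial. -/
theorem ker_nontriv (r : ℕ) (hr : 2 ≤ r) (d : ℕ) :
    ∃ a : FS r (d + 1), prj r d a = 1 ∧ a ≠ 1 := by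
  induction d with
  | zero => exact ⟨gx r 1 ⟨0, by omega⟩, Subsingleton.elim _ _, gx_ne_one _ _ _⟩
  | succ d ih =>
    have key : ∃ u v : FS r (d + 1), prj r d u = 1 ∧ prj r d v = 1 ∧ u ≠ 1 ∧
        ∀ (k : ℕ) (j : ℤ), k ≠ 0 → v ^ k ≠ u ^ j := by
      rcases d with _ | d
      · refine ⟨gx r 1 ⟨0, by omega⟩, gx r 1 ⟨1, by omega⟩, Subsingleton.elim _ _,
          Subsingleton.elim _ _, gx_ne_one _ _ _, fun k j hk e => ?_⟩
        have := congrArg ((msd r 0).dg ⟨1, by omega⟩) e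
        rw [MS.dg_pow, MS.dg_zpow, ← msd_x, ← msd_x, MS.dg_x, MS.dg_x] at this
        simp [hk] at this
      · obtain ⟨u, hu, hu1⟩ := ih
        let z := gx r (d + 2) ⟨0, by omega⟩
        have hv : prj r (d + 1) (z * u * z⁻¹) = 1 := by simp [hu]
        refine ⟨u, z * u * z⁻¹, hu, hv, hu1, fun k j hk e => ?_⟩
        have h1 := congrArg (msd r (d + 1)).der e
        rw [MS.der_pow_ker _ hv, MS.der_zpow_ker _ hu, MS.der_conj _ _ hu] at h1
        have h2 : (k • oo ((msd r (d + 1)).pr z) - (j : ZG (FS r (d + 1)))) •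
            (msd r (d + 1)).der u = 0 := by
          rw [sub_smul, smul_assoc, h1, Int.cast_smul_eq_zsmul, sub_self]
        rcases MS.smul_eq_zero' h2 with h3 | h3
        · classical
          have h4 := congrArg (E (fun q => if q = 1 then (0 : ℤ) else 1)) h3
          have h5 : (msd r (d + 1)).pr z ≠ 1 := gx_ne_one r d _
          rw [map_sub, map_nsmul, E_oo, if_neg h5, ← zsmul_one, map_zsmul, E_one, if_pos rfl] at h4
          simp [hk] at h4
        · exact hu1 ((msd r (d + 1)).inj _ h3)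
    obtain ⟨u, v, hu, hv, hu1, huv⟩ := key
    obtain ⟨u', rfl⟩ := (msd r (d + 1)).surj u
    obtain ⟨v', rfl⟩ := (msd r (d + 1)).surj v
    refine ⟨u' * v' * (v' * u')⁻¹, ?_, fun e => ?_⟩
    · rw [map_mul, map_inv, map_mul, map_mul, mul_inv_eq_one]
      exact (msd r d).ker_comm hu hv
    · obtain ⟨k, j, hk, e'⟩ := (msd r (d + 1)).cent (fs_tf _ _) hu1 (mul_inv_eq_one.1 e)
      exact huv k j hk (by rw [← map_pow, e', map_zpow])

/-- Finitely generated residually finite groups are Hopfian. -/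
theorem hopf {G : Type} [Group G] {r : ℕ} (x : Fin r → G)
    (hx : Subgroup.closure (Set.range x) = ⊤) (hG : RF0 G) (φ : G →* G)
    (hφ : Function.Surjective φ) : Function.Injective φ := by
  rw [injective_iff_map_eq_one]
  intro g hg
  by_contra h1
  obtain ⟨Q, _, _, f, hf⟩ := hG g h1
  have : Finite (G →* Q) := by
    refine Finite.of_injective (fun (f : G →* Q) i => f (x i)) fun f f' e => ?_
    refine MonoidHom.eq_of_eqOn_dense hx ?_
    rintro _ ⟨i, rfl⟩
    exact congrFun e i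
  have hi : Function.Injective (fun f : G →* Q => f.comp φ) := fun f f' e =>
    (MonoidHom.cancel_right hφ).1 e
  obtain ⟨f', rfl⟩ := Finite.surjective_of_injective hi f
  exact hf (by simp [hg])

/-- Every tuple is the image of the generators under an endomorphism. -/
theorem exists_endo (r d : ℕ) (y : Fin r → FS r d) :
    ∃ φ : FS r d →* FS r d, ∀ i, φ (gx r d i) = y i := by
  obtain ⟨w, hw⟩ : ∃ w : Fin r → FreeGroup (Fin r), ∀ i, pn _ d (w i) = y i :=
    ⟨fun i => (pn_surj r d (y i)).choose, fun i => (pn_surj r d (y i)).choose_spec⟩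
  refine ⟨QuotientGroup.map _ _ (FreeGroup.lift w) ?_, fun i => ?_⟩
  · exact Subgroup.map_le_iff_le_comap.1 (map_derivedSeries_le_derivedSeries _ _)
  · rw [← hw]
    show pn _ d (FreeGroup.lift w (FreeGroup.of i)) = _
    simp

/-- Every generating tuple is the image of the generators under an automorphism. -/
theorem exists_aut (r d : ℕ) (y : Fin r → FS r d) (hy : Subgroup.closure (Set.range y) = ⊤) :
    ∃ φ : FS r d ≃* FS r d, ∀ i, φ (gx r d i) = y i := by
  obtain ⟨φ, hφ⟩ := exists_endo r d y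
  have hs : Function.Surjective φ := by
    rw [← MonoidHom.range_eq_top, eq_top_iff, ← hy, Subgroup.closure_le]
    rintro _ ⟨i, rfl⟩
    exact ⟨_, hφ i⟩
  exact ⟨MulEquiv.ofBijective φ ⟨hopf _ (gx_gen r d) (rf_dq _ d) φ hs, hs⟩, hφ⟩

end Pool.Agent.H259Z.Rich
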